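import Mathlib

/-!
# Origamis: periods and rows of a permutation, primitivity

Helper file for `MP_7a6c3d_gt`.
-/

namespace Pool.Agent.Origami

open Equiv Equiv.Perm

variable {Ω : Type*}

section per

/-- The length of the cycle of `h` through `x` (a fixed point has `per = 1`). -/
noncomputable def per (h : Perm Ω) (x : Ω) : ℕ := MulAction.period h x

theorem per_pos [Finite Ω] (h : Perm Ω) (x : Ω) : 0 < per h x := by
  unfold per
  exact MulAction.period_pos_of_orderOf_pos (orderOf_pos h) x

theorem zz (h : Perm Ω) (x : Ω) (i j : ℤ) : (h ^ i) ((h ^ j) x) = (h ^ (i + j)) x := by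
  rw [zpow_add, Perm.mul_apply]

theorem nn (h : Perm Ω) (x : Ω) (i j : ℕ) : (h ^ i) ((h ^ j) x) = (h ^ (i + j)) x := by
  rw [pow_add, Perm.mul_apply]

theorem apply_pow' (h : Perm Ω) (x : Ω) (j : ℕ) : h ((h ^ j) x) = (h ^ (j + 1)) x := by
  rw [pow_succ', Perm.mul_apply]

theorem apply_zpow' (h : Perm Ω) (x : Ω) (j : ℤ) : h ((h ^ j) x) = (h ^ (j + 1)) x := by
  rw [add_comm, zpow_add, zpow_one, Perm.mul_apply]

theorem zpow_fix_iff (h : Perm Ω) (x : Ω) (j : ℤ) : (h ^ j) x = x ↔ (per h x : ℤ) ∣ j := by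
  rw [← Perm.smul_def, MulAction.zpow_smul_eq_iff_period_dvd]; rfl

theorem zpow_eq_iff (h : Perm Ω) (x : Ω) (i j : ℤ) :
    (h ^ i) x = (h ^ j) x ↔ (per h x : ℤ) ∣ i - j := by
  rw [← zpow_fix_iff, sub_eq_neg_add, zpow_add, Perm.mul_apply, zpow_neg, Perm.inv_eq_iff_eq]

theorem zpow_per (h : Perm Ω) (x : Ω) : (h ^ (per h x : ℤ)) x = x := by
  rw [zpow_fix_iff]

theorem pow_per (h : Perm Ω) (x : Ω) : (h ^ (per h x)) x = x := by
  have := zpow_per h x
  rwa [zpow_natCast] at this

theorem zpow_emod (h : Perm Ω) (x : Ω) (j : ℤ) : (h ^ (j % (per h x : ℤ))) x = (h ^ j) x := by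
  rw [zpow_eq_iff]
  exact ⟨-(j / (per h x : ℤ)), by rw [Int.emod_def]; ring⟩

/-- two permutations (possibly on different sets) have the same period at points
at which the iterates return at the same times. -/
theorem per_congr {Ω' : Type*} {h : Perm Ω} {h' : Perm Ω'} {x : Ω} {x' : Ω'}
    (H : ∀ j : ℤ, (h ^ j) x = x ↔ (h' ^ j) x' = x') : per h x = per h' x' := by
  have H' : ∀ j : ℤ, (per h x : ℤ) ∣ j ↔ (per h' x' : ℤ) ∣ j := by
    intro j
    rw [← zpow_fix_iff, ← zpow_fix_iff]; exact H j
  have h1 := (H' (per h' x')).2 (dvd_refl _)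
  have h2 := (H' (per h x)).1 (dvd_refl _)
  exact Nat.dvd_antisymm (by exact_mod_cast h1) (by exact_mod_cast h2)

theorem per_zpow (h : Perm Ω) (x : Ω) (i : ℤ) : per h ((h ^ i) x) = per h x := by
  apply per_congr
  intro j
  rw [← Perm.mul_apply, ← zpow_add, add_comm, zpow_add, Perm.mul_apply]
  exact (Equiv.apply_eq_iff_eq (h ^ i))

theorem per_pow (h : Perm Ω) (x : Ω) (i : ℕ) : per h ((h ^ i) x) = per h x := by
  have := per_zpow h x i
  rwa [zpow_natCast] at this

theorem per_apply (h : Perm Ω) (x : Ω) : per h (h x) = per h x := by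
  have := per_zpow h x 1
  rwa [zpow_one] at this

theorem per_sameCycle {h : Perm Ω} {x y : Ω} (H : SameCycle h x y) : per h y = per h x := by
  obtain ⟨i, rfl⟩ := H
  exact per_zpow h x i

/-- characterisation of the period -/
theorem per_eq_of (h : Perm Ω) (x : Ω) {L : ℕ} (hL : 0 < L) (h1 : (h ^ L) x = x)
    (h2 : ∀ k, 0 < k → k < L → (h ^ k) x ≠ x) : per h x = L := by
  have hd : per h x ∣ L := by
    have := (zpow_fix_iff h x L).1 (by rw [zpow_natCast]; exact h1)
    exact_mod_cast this
  have hpos : 0 < per h x := Nat.pos_of_dvd_of_pos hd hL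
  rcases lt_or_eq_of_le (Nat.le_of_dvd hL hd) with hlt | heq
  · exact absurd (pow_per h x) (h2 _ hpos hlt)
  · exact heq

theorem pow_ne_of_lt_per (h : Perm Ω) (x : Ω) {k : ℕ} (hk : 0 < k) (hk' : k < per h x) :
    (h ^ k) x ≠ x := by
  intro H
  have := (zpow_fix_iff h x k).1 (by rw [zpow_natCast]; exact H)
  have h3 : per h x ∣ k := by exact_mod_cast this
  exact absurd (Nat.le_of_dvd hk h3) (by omega)

theorem per_dvd_of_pow (h : Perm Ω) (x : Ω) {k : ℕ} (H : (h ^ k) x = x) : per h x ∣ k := by
  have := (zpow_fix_iff h x k).1 (by rw [zpow_natCast]; exact H)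
  exact_mod_cast this

theorem per_inv (h : Perm Ω) (x : Ω) : per h⁻¹ x = per h x := by
  apply per_congr
  intro j
  rw [inv_zpow', zpow_fix_iff, zpow_fix_iff, dvd_neg]

/-- the element of a row reached in a nonnegative number of steps less than the period -/
theorem exists_pow_lt_of_sameCycle [Finite Ω] {h : Perm Ω} {x y : Ω} (H : SameCycle h x y) :
    ∃ k, k < per h x ∧ (h ^ k) x = y := by
  obtain ⟨i, rfl⟩ := H
  have hp : (0 : ℤ) < per h x := by exact_mod_cast per_pos h x
  refine ⟨(i % (per h x : ℤ)).toNat, ?_, ?_⟩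
  · have h1 := Int.emod_lt_of_pos i hp
    have h2 := Int.emod_nonneg i hp.ne'
    omega
  · have h2 := Int.emod_nonneg i hp.ne'
    rw [← zpow_natCast, Int.toNat_of_nonneg h2, zpow_emod]

open Classical in
/-- the number of points of a row is its period -/
theorem card_row [Fintype Ω] (h : Perm Ω) (x : Ω) :
    (Finset.univ.filter (fun y => SameCycle h x y)).card = per h x := by
  have : (Finset.univ.filter (fun y => SameCycle h x y))
      = (Finset.range (per h x)).image (fun k => (h ^ k) x) := by
    ext y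
    simp only [Finset.mem_filter, Finset.mem_univ, true_and, Finset.mem_image, Finset.mem_range]
    constructor
    · intro H
      obtain ⟨k, hk, hk'⟩ := exists_pow_lt_of_sameCycle H
      exact ⟨k, hk, hk'⟩
    · rintro ⟨k, _, rfl⟩
      exact ⟨k, by rw [zpow_natCast]⟩
  rw [this, Finset.card_image_of_injOn, Finset.card_range]
  intro i hi j hj hij
  simp only [Finset.coe_range, Set.mem_Iio] at hi hj
  have hij' : (h ^ (i : ℤ)) x = (h ^ (j : ℤ)) x := by
    rw [zpow_natCast, zpow_natCast]; exact hij
  rw [zpow_eq_iff] at hij'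
  obtain ⟨c, hc⟩ := hij'
  have hp : (0 : ℤ) < per h x := by exact_mod_cast (lt_of_le_of_lt (Nat.zero_le _) hi)
  have hi' : (i : ℤ) < per h x := by exact_mod_cast hi
  have hj' : (j : ℤ) < per h x := by exact_mod_cast hj
  have hc0 : c = 0 := by
    rcases lt_trichotomy c 0 with h0 | h0 | h0
    · nlinarith [hc]
    · exact h0
    · nlinarith [hc]
  subst hc0
  omega

/-- all periods equal to `1` means the identity -/
theorem eq_one_of_per (h : Perm Ω) (H : ∀ x, per h x = 1) : h = 1 := by
  ext x
  have := pow_per h x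
  rw [H x, pow_one] at this
  simpa using this

end per

section closed

/-- A subset of a finite set closed under a permutation is closed under its inverse. -/
theorem closed_inv [Finite Ω] (h : Perm Ω) (S : Set Ω) (H : ∀ x ∈ S, h x ∈ S) :
    ∀ x ∈ S, h⁻¹ x ∈ S := by
  intro x hx
  have hpow : ∀ k : ℕ, (h ^ k) x ∈ S := by
    intro k
    induction k with
    | zero => simpa using hx
    | succ k ih => rw [pow_succ', Perm.mul_apply]; exact H _ ih
  have h1 : h⁻¹ x = (h ^ (per h x - 1)) x := by
    rw [Perm.inv_eq_iff_eq, ← Perm.mul_apply, ← pow_succ', Nat.sub_add_cancel (per_pos h x),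
      pow_per]
  rw [h1]; exact hpow _

/-- A nonempty set closed under generators of a transitive group is everything. -/
theorem closed_eq_univ [Finite Ω] (h v : Perm Ω)
    (ht : MulAction.IsPretransitive (Subgroup.closure {h, v}) Ω) (S : Set Ω)
    (x0 : Ω) (hx0 : x0 ∈ S) (Hh : ∀ x ∈ S, h x ∈ S) (Hv : ∀ x ∈ S, v x ∈ S) :
    ∀ y, y ∈ S := by
  intro y
  obtain ⟨⟨g, hg⟩, hgy⟩ := ht.exists_smul_eq x0 y
  have key : ∀ g ∈ Subgroup.closure {h, v}, ∀ x ∈ S, g x ∈ S := by
    intro g hg
    induction hg using Subgroup.closure_induction with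
    | mem g hg =>
      rcases hg with rfl | hg
      · exact Hh
      · rw [Set.mem_singleton_iff] at hg; subst hg; exact Hv
    | one => intro x hx; simpa using hx
    | mul a b _ _ ha hb => intro x hx; rw [Perm.mul_apply]; exact ha _ (hb _ hx)
    | inv a _ ha => exact closed_inv a S ha
  have h1 := key g hg x0 hx0
  have h2 : g x0 = y := hgy
  rwa [h2] at h1

/-- For a primitive group generated by `h, v`, an equivalence relation preserved by
`h` and `v` is trivial. -/
theorem prim_setoid [Finite Ω] (h v : Perm Ω)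
    (hp : MulAction.IsPreprimitive (Subgroup.closure {h, v}) Ω) (r : Setoid Ω)
    (Hh : ∀ x y, r x y → r (h x) (h y)) (Hv : ∀ x y, r x y → r (v x) (v y)) :
    (∀ x y, r x y → x = y) ∨ (∀ x y, r x y) := by
  -- every element of the group preserves `r`
  have keyinv : ∀ a : Perm Ω, (∀ x y, r x y → r (a x) (a y)) →
      (∀ x y, r x y → r (a⁻¹ x) (a⁻¹ y)) := by
    intro a ha x y hxy
    have hpow : ∀ k : ℕ, ∀ x y, r x y → r ((a ^ k) x) ((a ^ k) y) := by
      intro k
      induction k with
      | zero => intro x y hxy; simpa using hxy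
      | succ k ih =>
        intro x y hxy
        rw [pow_succ', Perm.mul_apply, Perm.mul_apply]; exact ha _ _ (ih _ _ hxy)
    have h1 : a⁻¹ = a ^ (orderOf a - 1) := by
      rw [inv_eq_iff_mul_eq_one, ← pow_succ', Nat.sub_add_cancel (orderOf_pos a),
        pow_orderOf_eq_one]
    rw [h1]; exact hpow _ _ _ hxy
  have key : ∀ g ∈ Subgroup.closure {h, v}, ∀ x y, r x y → r (g x) (g y) := by
    intro g hg
    induction hg using Subgroup.closure_induction with
    | mem g hg =>
      rcases hg with rfl | hg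
      · exact Hh
      · rw [Set.mem_singleton_iff] at hg; subst hg; exact Hv
    | one => intro x y hxy; simpa using hxy
    | mul a b _ _ ha hb =>
      intro x y hxy; rw [Perm.mul_apply, Perm.mul_apply]; exact ha _ _ (hb _ _ hxy)
    | inv a _ ha => exact keyinv a ha
  by_cases hex : ∃ x y, r x y ∧ x ≠ y
  · right
    obtain ⟨x0, y0, hxy, hne⟩ := hex
    -- the class of x0 is a block
    have hB : MulAction.IsBlock (Subgroup.closure {h, v}) {z | r x0 z} := by
      rw [MulAction.isBlock_iff_smul_eq_of_nonempty]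
      rintro ⟨g, hg⟩ ⟨z, hz1, hz2⟩
      obtain ⟨w, hw, hwz⟩ := hz1
      have hwz' : g w = z := hwz
      have hw' : r x0 w := hw
      have hz2' : r x0 z := hz2
      have hgx : r x0 (g x0) := by
        have := key g hg _ _ hw'
        rw [hwz'] at this
        exact r.trans' hz2' (r.symm' this)
      ext u
      constructor
      · rintro ⟨w', hw', rfl⟩
        exact r.trans' hgx (key g hg _ _ hw')
      · intro hu
        refine ⟨g⁻¹ u, ?_, ?_⟩
        · have hu' : r x0 u := hu
          have h1 : r (g x0) u := r.trans' (r.symm' hgx) hu'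
          have h2 := key g⁻¹ (Subgroup.inv_mem _ hg) _ _ h1
          have h3 : g⁻¹ (g x0) = x0 := by simp
          rw [h3] at h2
          exact h2
        · change g (g⁻¹ u) = u
          simp
    rcases hp.isTrivialBlock_of_isBlock hB with hs | hu
    · exact absurd (hs (r.refl' x0) hxy) hne
    · intro x y
      have hx : x ∈ {z | r x0 z} := by rw [hu]; trivial
      have hy : y ∈ {z | r x0 z} := by rw [hu]; trivial
      exact r.trans' (r.symm' hx) hy
  · left
    intro x y hxy
    by_contra hne
    exact hex ⟨x, y, hxy, hne⟩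

end closed

end Pool.Agent.Origami
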