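import Mathlib

/-!
# Origamis in H(2), their SL(2,Z)-orbit graphs, and local minors

Definitions for `MP_7a6c3d_gt`.
-/

namespace Pool.Agent.Origami

open Equiv

theorem closure_T {G : Type*} [Group G] (h v : G) :
    Subgroup.closure {h, v * h⁻¹} = Subgroup.closure {h, v} := by
  apply le_antisymm
  · rw [Subgroup.closure_le]
    intro x hx
    rcases hx with rfl | hx
    · exact Subgroup.subset_closure (by simp)
    · rw [Set.mem_singleton_iff] at hx
      rw [hx]
      exact Subgroup.mul_mem _ (Subgroup.subset_closure (by simp))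
        (Subgroup.inv_mem _ (Subgroup.subset_closure (by simp)))
  · rw [Subgroup.closure_le]
    intro x hx
    rcases hx with rfl | hx
    · exact Subgroup.subset_closure (by simp)
    · rw [Set.mem_singleton_iff] at hx
      have : x = (v * h⁻¹) * h := by rw [hx]; group
      rw [this]
      exact Subgroup.mul_mem _ (Subgroup.subset_closure (by simp))
        (Subgroup.subset_closure (by simp))

theorem closure_Ti {G : Type*} [Group G] (h v : G) :
    Subgroup.closure {h, v * h} = Subgroup.closure {h, v} := by
  rw [← closure_T h (v * h)]; congr 2; group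

theorem closure_S {G : Type*} [Group G] (h v : G) :
    Subgroup.closure {h * v⁻¹, v} = Subgroup.closure {h, v} := by
  rw [Set.pair_comm, closure_T, Set.pair_comm]

theorem closure_Si {G : Type*} [Group G] (h v : G) :
    Subgroup.closure {h * v, v} = Subgroup.closure {h, v} := by
  rw [Set.pair_comm, closure_Ti, Set.pair_comm]

/-- Pairs `(h, v)` of permutations of `n` squares generating a transitive group. -/
abbrev TransPair (n : ℕ) : Type :=
  {p : Perm (Fin n) × Perm (Fin n) //
    MulAction.IsPretransitive (Subgroup.closure {p.1, p.2}) (Fin n)}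

/-- Simultaneous conjugation of pairs. -/
def conjSetoid (n : ℕ) : Setoid (TransPair n) where
  r p q := ∃ g : Perm (Fin n), q.1.1 = g * p.1.1 * g⁻¹ ∧ q.1.2 = g * p.1.2 * g⁻¹
  iseqv :=
    { refl := fun p => ⟨1, by simp, by simp⟩
      symm := by
        rintro p q ⟨g, h1, h2⟩
        exact ⟨g⁻¹, by rw [h1]; group, by rw [h2]; group⟩
      trans := by
        rintro p q r ⟨g, h1, h2⟩ ⟨k, h3, h4⟩
        exact ⟨k * g, by rw [h3, h1]; group, by rw [h4, h2]; group⟩ }

/-- An `n`-square origami: a pair of permutations `(h, v)` in `Sym(n)` generating a transitive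
group, up to simultaneous conjugation. -/
def Origami (n : ℕ) : Type := Quotient (conjSetoid n)

/-- The action of `T = (1 1; 0 1)`: `T (h, v) = (h, v h⁻¹)`. -/
def T (n : ℕ) : Perm (Origami n) where
  toFun := Quotient.map (sa := conjSetoid n) (sb := conjSetoid n)
    (fun p => ⟨(p.1.1, p.1.2 * p.1.1⁻¹), by rw [closure_T]; exact p.2⟩)
    (by
      rintro p q ⟨g, h1, h2⟩
      refine ⟨g, h1, ?_⟩
      simp only
      rw [h1, h2]; group)
  invFun := Quotient.map (sa := conjSetoid n) (sb := conjSetoid n)
    (fun p => ⟨(p.1.1, p.1.2 * p.1.1), by rw [closure_Ti]; exact p.2⟩)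
    (by
      rintro p q ⟨g, h1, h2⟩
      refine ⟨g, h1, ?_⟩
      simp only
      rw [h1, h2]; group)
  left_inv := by
    intro x
    induction x using Quotient.inductionOn with
    | h p => simp [Quotient.map_mk]
  right_inv := by
    intro x
    induction x using Quotient.inductionOn with
    | h p => simp [Quotient.map_mk]

/-- The action of `S = (1 0; 1 1)`: `S (h, v) = (h v⁻¹, v)`. -/
def S (n : ℕ) : Perm (Origami n) where
  toFun := Quotient.map (sa := conjSetoid n) (sb := conjSetoid n)
    (fun p => ⟨(p.1.1 * p.1.2⁻¹, p.1.2), by rw [closure_S]; exact p.2⟩)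
    (by
      rintro p q ⟨g, h1, h2⟩
      refine ⟨g, ?_, h2⟩
      simp only
      rw [h1, h2]; group)
  invFun := Quotient.map (sa := conjSetoid n) (sb := conjSetoid n)
    (fun p => ⟨(p.1.1 * p.1.2, p.1.2), by rw [closure_Si]; exact p.2⟩)
    (by
      rintro p q ⟨g, h1, h2⟩
      refine ⟨g, ?_, h2⟩
      simp only
      rw [h1, h2]; group)
  left_inv := by
    intro x
    induction x using Quotient.inductionOn with
    | h p => simp [Quotient.map_mk]
  right_inv := by
    intro x
    induction x using Quotient.inductionOn with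
    | h p => simp [Quotient.map_mk]

/-- The origami lies in the stratum `H(2)`: the commutator `h v h⁻¹ v⁻¹` is a 3-cycle. -/
def InH2 {n : ℕ} (x : Origami n) : Prop :=
  ∃ p : TransPair n, Quotient.mk (conjSetoid n) p = x ∧
    (p.1.1 * p.1.2 * p.1.1⁻¹ * p.1.2⁻¹).IsThreeCycle

/-- The origami is primitive: `⟨h, v⟩` is a primitive permutation group. -/
def IsPrimitive {n : ℕ} (x : Origami n) : Prop :=
  ∃ p : TransPair n, Quotient.mk (conjSetoid n) p = x ∧
    MulAction.IsPreprimitive (Subgroup.closure {p.1.1, p.1.2}) (Fin n)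

/-- The monodromy group `⟨h, v⟩` is the alternating group. -/
def HasAltMonodromy {n : ℕ} (x : Origami n) : Prop :=
  ∃ p : TransPair n, Quotient.mk (conjSetoid n) p = x ∧
    Subgroup.closure {p.1.1, p.1.2} = alternatingGroup (Fin n)

/-- The `SL(2,Z)`-orbit of an origami: its orbit under the group generated by `T` and `S`. -/
def sl2Orbit {n : ℕ} (x : Origami n) : Set (Origami n) :=
  MulAction.orbit (Subgroup.closure {T n, S n}) x

/-- The orbit graph: vertices are the origamis `O` of the orbit, with an edge from each `O` to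
`T O` and to `S O` (as a simple graph: loops and multiplicities are forgotten). -/
def orbitGraph {n : ℕ} (x : Origami n) : SimpleGraph (sl2Orbit x) :=
  SimpleGraph.fromRel (fun y z => T n y = z ∨ S n y = z)

/-- `G` contains an `L`-local `H` minor: pairwise disjoint vertex sets `B w` (`w ∈ V(H)`), each
inducing a connected subgraph with at most `L` vertices, with an edge of `G` between `B w` and
`B w'` whenever `w w'` is an edge of `H`. -/
def HasLocalMinor {V W : Type*} (L : ℕ) (H : SimpleGraph W) (G : SimpleGraph V) : Prop :=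
  ∃ B : W → Set V, (∀ w w', w ≠ w' → Disjoint (B w) (B w')) ∧
    (∀ w, (G.induce (B w)).Connected ∧ (B w).encard ≤ L) ∧
    ∀ w w', H.Adj w w' → ∃ a ∈ B w, ∃ b ∈ B w', G.Adj a b

end Pool.Agent.Origami
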