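import Pool.Agent.Origami.LPair

/-!
# Twelve distinct vertices near an L-shaped origami

Helper file for `MP_7a6c3d_gt`.
-/

namespace Pool.Agent.Origami

open Equiv Equiv.Perm

variable {n : ℕ}

theorem hN_spec (p i : ℕ) : (i + 1 < p ∧ hN p i = i + 1) ∨ (i + 1 = p ∧ hN p i = 0) ∨
    (p < i + 1 ∧ hN p i = i) := by
  unfold hN; split_ifs <;> omega

theorem XN_spec (n i : ℕ) : (i + 1 < n ∧ XN n i = i + 1) ∨ (n ≤ i + 1 ∧ XN n i = 0) := by
  unfold XN; split_ifs <;> omega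

theorem YN_spec (p n i : ℕ) : (i + 2 < p ∧ YN p n i = i + 2) ∨ (i + 2 = p ∧ YN p n i = p) ∨
    (i + 1 = p ∧ YN p n i = 1) ∨ (p < i + 1 ∧ i + 1 < n ∧ YN p n i = i + 1) ∨
    (p < i + 1 ∧ n ≤ i + 1 ∧ YN p n i = 0) := by
  unfold YN; split_ifs <;> omega

theorem iter_label {Ω : Type*} (w : Perm Ω) (f : ℕ → Ω) (N : ℕ → ℕ) (m : ℕ)
    (hw : ∀ i < m, w (f i) = f (N i)) (hN : ∀ i < m, N i < m) (k : ℕ) :
    ∀ i < m, (w ^ k) (f i) = f (N^[k] i) ∧ N^[k] i < m := by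
  induction k with
  | zero => intro i hi; exact ⟨rfl, hi⟩
  | succ k ih =>
    intro i hi
    obtain ⟨h1, h2⟩ := ih i hi
    rw [← apply_pow', h1, hw _ h2, Function.iterate_succ_apply']
    exact ⟨rfl, hN _ h2⟩

/-- the points `P j = T^{-j} o` -/
def Pt (o : Origami n) (k : ℤ) : Origami n := (T n ^ (-k)) o

/-- the points `y k = T^k c o` -/
def Yt (o : Origami n) (k : ℤ) : Origami n := (T n ^ k) (cc o)

/-- the points `z k = T^k c T⁻¹ o` -/
def Zt (o : Origami n) (k : ℤ) : Origami n := (T n ^ k) (cc ((T n)⁻¹ o))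

section

variable {o : Origami n} {h v : Perm (Fin n)} {p q : ℕ} {f : ℕ → Fin n}

theorem rep_Pt (H : Rep o h v) (k : ℤ) : Rep (Pt o k) h (v * h ^ k) := by
  have := H.Tz (-k)
  rw [neg_neg] at this
  exact this

theorem rep_Yt (H : Rep o h v) (k : ℤ) : Rep (Yt o k) (v * h) (h⁻¹ * (v * h) ^ (-k)) := by
  have h1 := (H.cc).conj_of h⁻¹ (h' := v * h) (v' := h⁻¹) (by group) (by group)
  exact h1.Tz k

theorem rep_Zt (H : Rep o h v) (k : ℤ) :
    Rep (Zt o k) (v * h * h) (h⁻¹ * (v * h * h) ^ (-k)) := by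
  have h1 := (H.Ti.cc).conj_of h⁻¹ (h' := v * h * h) (v' := h⁻¹) (by group) (by group)
  exact h1.Tz k

theorem fix_pos (X h : Perm (Fin n)) (k : ℕ) :
    (∃ i, (h⁻¹ * X ^ (-(k : ℤ))) i = i) ↔ ∃ i, (X ^ k) (h i) = i := by
  constructor
  · rintro ⟨i, hi⟩
    refine ⟨i, ?_⟩
    rw [Perm.mul_apply, Perm.inv_eq_iff_eq] at hi
    rw [← hi, zpow_neg, zpow_natCast]
    simp
  · rintro ⟨i, hi⟩
    refine ⟨i, ?_⟩
    rw [Perm.mul_apply, Perm.inv_eq_iff_eq, zpow_neg, zpow_natCast, Perm.inv_eq_iff_eq]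
    exact hi.symm

theorem fix_neg (X h : Perm (Fin n)) (k : ℕ) :
    (∃ i, (h⁻¹ * X ^ (-(-(k : ℤ)))) i = i) ↔ ∃ i, (X ^ k) i = h i := by
  constructor
  · rintro ⟨i, hi⟩
    refine ⟨i, ?_⟩
    rw [Perm.mul_apply, Perm.inv_eq_iff_eq, neg_neg, zpow_natCast] at hi
    exact hi
  · rintro ⟨i, hi⟩
    refine ⟨i, ?_⟩
    rw [Perm.mul_apply, Perm.inv_eq_iff_eq, neg_neg, zpow_natCast]
    exact hi

/-- facts on fixed points -/
structure Facts (o : Origami n) (p q : ℕ) : Prop where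
  neg : ∀ z ∈ sl2Orbit o, NegFix z
  A1P : ∀ k, A1 (Pt o k)
  A1Y : ∀ k, ¬ A1 (Yt o k)
  A1Z : ∀ k, ¬ A1 (Zt o k)
  P0 : A2 (Pt o 0)
  P1 : ¬ A2 (Pt o 1)
  P2 : ¬ A2 (Pt o 2)
  P3 : ¬ A2 (Pt o 3)
  Ym1 : A2 (Yt o (-1))
  Y0 : A2 (Yt o 0)
  Y1 : ¬ A2 (Yt o 1)
  Y2 : ¬ A2 (Yt o 2)
  Y3 : p ≠ 4 → ¬ A2 (Yt o 3)
  Y3' : p = 4 → A2 (Yt o 3)
  Y4 : p ≠ 5 → ¬ (p = 4 ∧ q = 2) → ¬ A2 (Yt o 4)
  Y4' : p = 4 ∧ q = 2 → A2 (Yt o 4)
  Zm3 : p ≠ 5 → ¬ (p = 4 ∧ q = 2) → ¬ A2 (Zt o (-3))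
  Zm3' : p = 5 → A2 (Zt o (-3))
  Zm2 : ¬ A2 (Zt o (-2))
  Zm1 : ¬ A2 (Zt o (-1))
  Z0 : A2 (Zt o 0)
  Z1 : ¬ A2 (Zt o 1)
  Z2 : p = 5 → A2 (Zt o 2)
  ZZ : p = 4 ∧ q = 2 → A3 (Zt o (-2)) ∧ ¬ A3 (Zt o 1)

set_option maxRecDepth 4000 in
theorem facts (H : Rep o h v) (L : LPair h v p q f) (hp : 4 ≤ p) : Facts o p q := by
  have hq := L.hq
  have hX := iter_label (v * h) f (XN (p + q - 1)) (p + q - 1) L.X_eq (fun i hi => XN_lt hi)
  have hY := iter_label (v * h * h) f (YN p (p + q - 1)) (p + q - 1) L.Y_eq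
    (fun i hi => YN_lt (by omega) (by omega) hi)
  have hid : ∀ i < p + q - 1, (1 : Perm (Fin n)) (f i) = f i := fun i _ => rfl
  -- words of the form `w^k * h`
  have hXh : ∀ k : ℕ, ∀ i < p + q - 1, ((v * h) ^ k * h) (f i) =
      f ((XN (p + q - 1))^[k] (hN p i)) := by
    intro k i hi
    rw [Perm.mul_apply, L.h_eq i hi, (hX k _ (hN_lt hq hi)).1]
  have hYh : ∀ k : ℕ, ∀ i < p + q - 1, ((v * h * h) ^ k * h) (f i) =
      f ((YN p (p + q - 1))^[k] (hN p i)) := by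
    intro k i hi
    rw [Perm.mul_apply, L.h_eq i hi, (hY k _ (hN_lt hq hi)).1]
  have nofixX : ∀ k : ℕ, (∀ i < p + q - 1, (XN (p + q - 1))^[k] (hN p i) ≠ i) →
      ¬ A2 (Yt o k) := by
    intro k hk
    rw [(rep_Yt H k).A2, fix_pos]
    exact L.no_fix ((v * h) ^ k * h) 1 _ (fun i => i) (hXh k) hid
      (fun i hi => (hX k _ (hN_lt hq hi)).2) (fun i hi => hi) hk
  have nofixY : ∀ k : ℕ, (∀ i < p + q - 1, (YN p (p + q - 1))^[k] (hN p i) ≠ i) →
      ¬ A2 (Zt o k) := by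
    intro k hk
    rw [(rep_Zt H k).A2, fix_pos]
    exact L.no_fix ((v * h * h) ^ k * h) 1 _ (fun i => i) (hYh k) hid
      (fun i hi => (hY k _ (hN_lt hq hi)).2) (fun i hi => hi) hk
  have nofixYn : ∀ k : ℕ, (∀ i < p + q - 1, (YN p (p + q - 1))^[k] i ≠ hN p i) →
      ¬ A2 (Zt o (-(k : ℤ))) := by
    intro k hk
    rw [(rep_Zt H _).A2, fix_neg]
    exact L.no_fix ((v * h * h) ^ k) h _ (hN p) (fun i hi => (hY k i hi).1) L.h_eq
      (fun i hi => (hY k i hi).2) (fun i hi => hN_lt hq hi) hk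
  have fixX : ∀ k : ℕ, (∃ i < p + q - 1, (XN (p + q - 1))^[k] (hN p i) = i) →
      A2 (Yt o k) := by
    rintro k ⟨i, hi, he⟩
    rw [(rep_Yt H k).A2, fix_pos]
    refine ⟨f i, ?_⟩
    rw [← Perm.mul_apply, hXh k i hi, he]
  have fixY : ∀ k : ℕ, (∃ i < p + q - 1, (YN p (p + q - 1))^[k] (hN p i) = i) →
      A2 (Zt o k) := by
    rintro k ⟨i, hi, he⟩
    rw [(rep_Zt H k).A2, fix_pos]
    refine ⟨f i, ?_⟩
    rw [← Perm.mul_apply, hYh k i hi, he]
  have fixXn : ∀ k : ℕ, (∃ i < p + q - 1, (XN (p + q - 1))^[k] i = hN p i) →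
      A2 (Yt o (-(k : ℤ))) := by
    rintro k ⟨i, hi, he⟩
    rw [(rep_Yt H _).A2, fix_neg]
    exact ⟨f i, by rw [(hX k i hi).1, he, L.h_eq i hi]⟩
  have fixYn : ∀ k : ℕ, (∃ i < p + q - 1, (YN p (p + q - 1))^[k] i = hN p i) →
      A2 (Zt o (-(k : ℤ))) := by
    rintro k ⟨i, hi, he⟩
    rw [(rep_Zt H _).A2, fix_neg]
    exact ⟨f i, by rw [(hY k i hi).1, he, L.h_eq i hi]⟩
  have hhfix : h (f p) = f p := by
    rw [L.h_eq p (by omega)]
    congr 1
    unfold hN; split_ifs <;> omega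
  refine ⟨?_, ?_, ?_, ?_, ?_, ?_, ?_, ?_, ?_, ?_, ?_, ?_, ?_, ?_, ?_, ?_, ?_, ?_, ?_, ?_, ?_, ?_,
    ?_, ?_⟩
  · -- neg
    intro z hz
    obtain ⟨g, h1, h2⟩ := L.conj L.neg
    exact (NegFix.of_orbit hz).1 ⟨h, v, g, H, h1, h2⟩
  · intro k
    rw [(rep_Pt H k).A1]
    exact ⟨f p, hhfix⟩
  · intro k
    rw [(rep_Yt H k).A1]
    exact L.no_fix (v * h) 1 _ (fun i => i) L.X_eq hid (fun i hi => XN_lt hi) (fun i hi => hi)
      (fun i hi => by unfold XN; split_ifs <;> omega)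
  · intro k
    rw [(rep_Zt H k).A1]
    exact L.no_fix (v * h * h) 1 _ (fun i => i) L.Y_eq hid
      (fun i hi => YN_lt (by omega) (by omega) hi) (fun i hi => hi)
      (fun i hi => by unfold YN; split_ifs <;> omega)
  · rw [(rep_Pt H 0).A2]
    refine ⟨f 1, ?_⟩
    have e : vN p (p + q - 1) 1 = 1 := by
      rw [vN, if_neg one_ne_zero, if_pos (by omega)]
    rw [zpow_zero, mul_one, L.v_eq 1 (by omega), e]
  · rw [(rep_Pt H 1).A2, zpow_one]
    exact L.no_fix (v * h) 1 _ (fun i => i) L.X_eq hid (fun i hi => XN_lt hi) (fun i hi => hi)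
      (fun i hi => by unfold XN; split_ifs <;> omega)
  · rw [(rep_Pt H 2).A2]
    have e : v * h ^ (2 : ℤ) = v * h * h := by
      rw [show (2 : ℤ) = ((2 : ℕ) : ℤ) by rfl, zpow_natCast, pow_two, mul_assoc]
    rw [e]
    exact L.no_fix (v * h * h) 1 _ (fun i => i) L.Y_eq hid
      (fun i hi => YN_lt (by omega) (by omega) hi) (fun i hi => hi)
      (fun i hi => by unfold YN; split_ifs <;> omega)
  · rw [(rep_Pt H 3).A2]
    have e : v * h ^ (3 : ℤ) = v * h * h * h := by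
      rw [show (3 : ℤ) = ((3 : ℕ) : ℤ) by rfl, zpow_natCast, pow_succ, pow_two]
      simp only [mul_assoc]
    rw [e]
    exact L.no_fix (v * h * h * h) 1 _ (fun i => i) (L.Z_eq (by omega)) hid
      (fun i hi => by unfold ZN; split_ifs <;> omega) (fun i hi => hi)
      (fun i hi => by unfold ZN; split_ifs <;> omega)
  · -- Ym1
    apply fixXn 1
    refine ⟨0, by omega, ?_⟩
    change XN (p + q - 1) 0 = hN p 0
    have s1 := XN_spec (p + q - 1) 0
    have s2 := hN_spec p 0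
    omega
  · apply fixX 0
    refine ⟨p, by omega, ?_⟩
    change hN p p = p
    have s2 := hN_spec p p
    omega
  · apply nofixX 1
    intro i hi
    change XN (p + q - 1) (hN p i) ≠ i
    have s1 := XN_spec (p + q - 1) (hN p i)
    have s2 := hN_spec p i
    omega
  · apply nofixX 2
    intro i hi
    change XN (p + q - 1) (XN (p + q - 1) (hN p i)) ≠ i
    have s0 := XN_spec (p + q - 1) (XN (p + q - 1) (hN p i))
    have s1 := XN_spec (p + q - 1) (hN p i)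
    have s2 := hN_spec p i
    omega
  · intro hp4
    apply nofixX 3
    intro i hi
    change XN (p + q - 1) (XN (p + q - 1) (XN (p + q - 1) (hN p i))) ≠ i
    have s' := XN_spec (p + q - 1) (XN (p + q - 1) (XN (p + q - 1) (hN p i)))
    have s0 := XN_spec (p + q - 1) (XN (p + q - 1) (hN p i))
    have s1 := XN_spec (p + q - 1) (hN p i)
    have s2 := hN_spec p i
    omega
  · intro hp4
    apply fixX 3
    refine ⟨3, by omega, ?_⟩
    change XN (p + q - 1) (XN (p + q - 1) (XN (p + q - 1) (hN p 3))) = 3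
    have s' := XN_spec (p + q - 1) (XN (p + q - 1) (XN (p + q - 1) (hN p 3)))
    have s0 := XN_spec (p + q - 1) (XN (p + q - 1) (hN p 3))
    have s1 := XN_spec (p + q - 1) (hN p 3)
    have s2 := hN_spec p 3
    omega
  · intro hp5 hpq
    apply nofixX 4
    intro i hi
    have hpq' : p ≠ 4 ∨ q ≠ 2 := by
      by_contra hc; push Not at hc; exact hpq hc
    change XN (p + q - 1) (XN (p + q - 1) (XN (p + q - 1) (XN (p + q - 1) (hN p i)))) ≠ i
    have s'' := XN_spec (p + q - 1) (XN (p + q - 1) (XN (p + q - 1) (XN (p + q - 1) (hN p i))))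
    have s' := XN_spec (p + q - 1) (XN (p + q - 1) (XN (p + q - 1) (hN p i)))
    have s0 := XN_spec (p + q - 1) (XN (p + q - 1) (hN p i))
    have s1 := XN_spec (p + q - 1) (hN p i)
    have s2 := hN_spec p i
    omega
  · rintro ⟨hp4, hq2⟩
    apply fixX 4
    refine ⟨0, by omega, ?_⟩
    subst hp4 hq2
    rfl
  · intro hp5 hpq
    apply nofixYn 3
    intro i hi
    have hpq' : p ≠ 4 ∨ q ≠ 2 := by
      by_contra hc; push Not at hc; exact hpq hc
    change YN p (p + q - 1) (YN p (p + q - 1) (YN p (p + q - 1) i)) ≠ hN p i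
    have s' := YN_spec p (p + q - 1) (YN p (p + q - 1) (YN p (p + q - 1) i))
    have s0 := YN_spec p (p + q - 1) (YN p (p + q - 1) i)
    have s1 := YN_spec p (p + q - 1) i
    have s2 := hN_spec p i
    omega
  · intro hp5
    apply fixYn 3
    refine ⟨0, by omega, ?_⟩
    change YN p (p + q - 1) (YN p (p + q - 1) (YN p (p + q - 1) 0)) = hN p 0
    have s' := YN_spec p (p + q - 1) (YN p (p + q - 1) (YN p (p + q - 1) 0))
    have s0 := YN_spec p (p + q - 1) (YN p (p + q - 1) 0)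
    have s1 := YN_spec p (p + q - 1) 0
    have s2 := hN_spec p 0
    omega
  · apply nofixYn 2
    intro i hi
    change YN p (p + q - 1) (YN p (p + q - 1) i) ≠ hN p i
    have s0 := YN_spec p (p + q - 1) (YN p (p + q - 1) i)
    have s1 := YN_spec p (p + q - 1) i
    have s2 := hN_spec p i
    omega
  · apply nofixYn 1
    intro i hi
    change YN p (p + q - 1) i ≠ hN p i
    have s1 := YN_spec p (p + q - 1) i
    have s2 := hN_spec p i
    omega
  · apply fixY 0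
    refine ⟨p, by omega, ?_⟩
    change hN p p = p
    have s2 := hN_spec p p
    omega
  · apply nofixY 1
    intro i hi
    change YN p (p + q - 1) (hN p i) ≠ i
    have s1 := YN_spec p (p + q - 1) (hN p i)
    have s2 := hN_spec p i
    omega
  · intro hp5
    apply fixY 2
    refine ⟨4, by omega, ?_⟩
    change YN p (p + q - 1) (YN p (p + q - 1) (hN p 4)) = 4
    have s0 := YN_spec p (p + q - 1) (YN p (p + q - 1) (hN p 4))
    have s1 := YN_spec p (p + q - 1) (hN p 4)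
    have s2 := hN_spec p 4
    omega
  · rintro ⟨hp4, hq2⟩
    subst hp4 hq2
    constructor
    · rw [(rep_Zt H (-2)).A3]
      refine ⟨f 2, ?_⟩
      have e1 : (h⁻¹ * (v * h * h) ^ (-(-2 : ℤ))) (f 2) = f 3 := by
        rw [Perm.mul_apply, Perm.inv_eq_iff_eq, neg_neg, show (2 : ℤ) = ((2 : ℕ) : ℤ) by rfl,
          zpow_natCast, (hY 2 2 (by norm_num)).1, L.h_eq 3 (by norm_num)]
        rfl
      have e2 : (h⁻¹ * (v * h * h) ^ (-(-2 : ℤ))) (f 3) = f 2 := by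
        rw [Perm.mul_apply, Perm.inv_eq_iff_eq, neg_neg, show (2 : ℤ) = ((2 : ℕ) : ℤ) by rfl,
          zpow_natCast, (hY 2 3 (by norm_num)).1, L.h_eq 2 (by norm_num)]
        rfl
      rw [e1, e2]
    · rw [(rep_Zt H 1).A3]
      have e : h⁻¹ * (v * h * h) ^ (-(1 : ℤ)) = ((v * h * h) * h)⁻¹ := by group
      rw [e]
      rintro ⟨x, hx⟩
      rw [Perm.inv_eq_iff_eq, Perm.inv_eq_iff_eq] at hx
      obtain ⟨i, hi, rfl⟩ := L.surj x
      have h1 := hYh 1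
      rw [pow_one] at h1
      have h2 : (YN 4 (4 + 2 - 1))^[1] (hN 4 i) < 4 + 2 - 1 := (hY 1 _ (hN_lt hq hi)).2
      rw [h1 i hi, h1 _ h2] at hx
      have h3 := L.inj _ _ hi ((hY 1 _ (hN_lt hq h2)).2) hx
      norm_num at hi
      interval_cases i <;> revert h3 <;> decide

end

end Pool.Agent.Origami
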