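import Pool.Agent.Origami.Model

/-!
# Sets of primitive pairs closed under the moves

Helper file for `MP_7a6c3d_gt`.
-/

namespace Pool.Agent.Origami

open Equiv Equiv.Perm

variable {Ω : Type*}

/-- a set of pairs closed under the moves `T, S`, their inverses and conjugation, all of whose
elements are primitive with commutator a 3-cycle -/
structure GoodSet [Fintype Ω] [DecidableEq Ω] (O : Set (Perm Ω × Perm Ω)) : Prop where
  T : ∀ h v, (h, v) ∈ O → (h, v * h⁻¹) ∈ O
  Ti : ∀ h v, (h, v) ∈ O → (h, v * h) ∈ O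
  S : ∀ h v, (h, v) ∈ O → (h * v⁻¹, v) ∈ O
  Si : ∀ h v, (h, v) ∈ O → (h * v, v) ∈ O
  conj : ∀ g h v, (h, v) ∈ O → (g * h * g⁻¹, g * v * g⁻¹) ∈ O
  three : ∀ h v, (h, v) ∈ O → (h * v * h⁻¹ * v⁻¹).IsThreeCycle
  prim : ∀ h v, (h, v) ∈ O → MulAction.IsPreprimitive (Subgroup.closure {h, v}) Ω

section model

variable {h v : Perm Ω} {w1 h1 : ℕ} {t1 : ℤ} {w2 h2 : ℕ} {t2 : ℤ} {a b : ℤ → ℕ → Ω}

theorem Model.ha_zpow (M : Model h v w1 h1 t1 w2 h2 t2 a b) (i : ℤ) (j : ℕ) (k : ℤ) :
    (h ^ k) (a i j) = a (i + k) j := by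
  induction k using Int.induction_on with
  | zero => simp
  | succ k ih =>
    rw [← apply_zpow', ih, M.ha]; congr 1; ring
  | pred k ih =>
    have h1 : h ((h ^ (-(k : ℤ) - 1)) (a i j)) = h (a (i + (-(k : ℤ) - 1)) j) := by
      rw [apply_zpow', M.ha, sub_add_cancel, ih]; congr 1; ring
    exact Equiv.injective h h1

theorem Model.hb_zpow (M : Model h v w1 h1 t1 w2 h2 t2 a b) (i : ℤ) (j : ℕ) (k : ℤ) :
    (h ^ k) (b i j) = b (i + k) j := by
  induction k using Int.induction_on with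
  | zero => simp
  | succ k ih =>
    rw [← apply_zpow', ih, M.hb]; congr 1; ring
  | pred k ih =>
    have h1 : h ((h ^ (-(k : ℤ) - 1)) (b i j)) = h (b (i + (-(k : ℤ) - 1)) j) := by
      rw [apply_zpow', M.hb, sub_add_cancel, ih]; congr 1; ring
    exact Equiv.injective h h1

theorem Model.per_a (M : Model h v w1 h1 t1 w2 h2 t2 a b) (i : ℤ) (j : ℕ) (hj : j < h1) :
    per h (a i j) = w1 := by
  have H : ∀ k : ℤ, (per h (a i j) : ℤ) ∣ k ↔ (w1 : ℤ) ∣ k := by
    intro k
    rw [← zpow_fix_iff, M.ha_zpow, M.a_inj _ _ _ _ hj hj]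
    simp
  have h1 := (H w1).2 (dvd_refl _)
  have h2 := (H (per h (a i j))).1 (dvd_refl _)
  exact Nat.dvd_antisymm (by exact_mod_cast h1) (by exact_mod_cast h2)

theorem Model.per_b (M : Model h v w1 h1 t1 w2 h2 t2 a b) (i : ℤ) (j : ℕ) (hj : j < h2) :
    per h (b i j) = w2 := by
  have H : ∀ k : ℤ, (per h (b i j) : ℤ) ∣ k ↔ (w2 : ℤ) ∣ k := by
    intro k
    rw [← zpow_fix_iff, M.hb_zpow, M.b_inj _ _ _ _ hj hj]
    simp
  have h1 := (H w2).2 (dvd_refl _)
  have h2 := (H (per h (b i j))).1 (dvd_refl _)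
  exact Nat.dvd_antisymm (by exact_mod_cast h1) (by exact_mod_cast h2)

/-- a function of two variables, injective modulo `w` in each row: number of values -/
theorem card_rows [DecidableEq Ω] {w H : ℕ} (a : ℤ → ℕ → Ω)
    (hinj : ∀ i j i' j', j < H → j' < H → (a i j = a i' j' ↔ (j = j' ∧ (w : ℤ) ∣ i - i'))) :
    (((Finset.range w) ×ˢ (Finset.range H)).image (fun p => a p.1 p.2)).card = w * H := by
  rw [Finset.card_image_of_injOn, Finset.card_product, Finset.card_range, Finset.card_range]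
  rintro ⟨i, j⟩ hij ⟨i', j'⟩ hij' he
  simp only [Finset.coe_product, Finset.coe_range, Set.mem_prod, Set.mem_Iio] at hij hij'
  simp only at he
  rw [hinj _ _ _ _ hij.2 hij'.2] at he
  obtain ⟨rfl, c, hc⟩ := he
  have h1 : (i : ℤ) < w := by exact_mod_cast hij.1
  have h2 : (i' : ℤ) < w := by exact_mod_cast hij'.1
  have hc0 : c = 0 := by
    rcases lt_trichotomy c 0 with h0 | h0 | h0
    · nlinarith
    · exact h0
    · nlinarith
  subst hc0
  have : i = i' := by omega
  rw [this]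

theorem Model.set_a [Fintype Ω] [DecidableEq Ω] (M : Model h v w1 h1 t1 w2 h2 t2 a b) :
    (Finset.univ.filter (fun x => per h x = w1)) =
      (((Finset.range w1) ×ˢ (Finset.range h1)).image (fun p => a p.1 p.2)) := by
  ext x
  simp only [Finset.mem_filter, Finset.mem_univ, true_and, Finset.mem_image,
    Finset.mem_product, Finset.mem_range, Prod.exists]
  constructor
  · intro hx
    rcases M.cover x with ⟨i, j, hj, rfl⟩ | ⟨i, j, hj, rfl⟩
    · obtain ⟨r, hr, hrw⟩ := emod_toNat_lt M.w1_pos i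
      refine ⟨r, j, ⟨hrw, hj⟩, ?_⟩
      rw [M.a_inj _ _ _ _ hj hj]
      refine ⟨rfl, ?_⟩
      rw [hr, ← dvd_neg, neg_sub]
      exact Int.dvd_self_sub_emod
    · rw [M.per_b _ _ hj] at hx
      exact absurd hx (ne_of_gt M.w12)
  · rintro ⟨i, j, ⟨_, hj⟩, rfl⟩
    exact M.per_a _ _ hj

theorem Model.set_b [Fintype Ω] [DecidableEq Ω] (M : Model h v w1 h1 t1 w2 h2 t2 a b) :
    (Finset.univ.filter (fun x => per h x = w2)) =
      (((Finset.range w2) ×ˢ (Finset.range h2)).image (fun p => b p.1 p.2)) := by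
  ext x
  simp only [Finset.mem_filter, Finset.mem_univ, true_and, Finset.mem_image,
    Finset.mem_product, Finset.mem_range, Prod.exists]
  constructor
  · intro hx
    rcases M.cover x with ⟨i, j, hj, rfl⟩ | ⟨i, j, hj, rfl⟩
    · rw [M.per_a _ _ hj] at hx
      exact absurd hx (ne_of_lt M.w12)
    · obtain ⟨r, hr, hrw⟩ := emod_toNat_lt (lt_trans M.w1_pos M.w12) i
      refine ⟨r, j, ⟨hrw, hj⟩, ?_⟩
      rw [M.b_inj _ _ _ _ hj hj]
      refine ⟨rfl, ?_⟩
      rw [hr, ← dvd_neg, neg_sub]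
      exact Int.dvd_self_sub_emod
  · rintro ⟨i, j, ⟨_, hj⟩, rfl⟩
    exact M.per_b _ _ hj

theorem Model.card_a [Fintype Ω] (M : Model h v w1 h1 t1 w2 h2 t2 a b) :
    (Finset.univ.filter (fun x => per h x = w1)).card = w1 * h1 := by
  classical
  rw [M.set_a, card_rows a M.a_inj]

theorem Model.card_b [Fintype Ω] (M : Model h v w1 h1 t1 w2 h2 t2 a b) :
    (Finset.univ.filter (fun x => per h x = w2)).card = w2 * h2 := by
  classical
  rw [M.set_b, card_rows b M.b_inj]

theorem Model.per_or (M : Model h v w1 h1 t1 w2 h2 t2 a b) (x : Ω) :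
    per h x = w1 ∨ per h x = w2 := by
  rcases M.cover x with ⟨i, j, hj, rfl⟩ | ⟨i, j, hj, rfl⟩
  · left; exact M.per_a _ _ hj
  · right; exact M.per_b _ _ hj

theorem Model.card [Fintype Ω] (M : Model h v w1 h1 t1 w2 h2 t2 a b) :
    Fintype.card Ω = w1 * h1 + w2 * h2 := by
  classical
  rw [← M.card_a, ← M.card_b, ← Finset.card_union_of_disjoint]
  · rw [← Finset.card_univ]
    congr 1
    ext x
    simp only [Finset.mem_univ, Finset.mem_union, Finset.mem_filter, true_and, true_iff]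
    exact M.per_or x
  · rw [Finset.disjoint_filter]
    intro x _ hx hx'
    have := M.w12
    omega

/-- the heights are coprime when the pair is primitive -/
theorem Model.coprime [Finite Ω] (M : Model h v w1 h1 t1 w2 h2 t2 a b)
    (hp : MulAction.IsPreprimitive (Subgroup.closure {h, v}) Ω) : Nat.Coprime h1 h2 := by
  classical
  set g := Nat.gcd h1 h2 with hg
  have hg1 : g ∣ h1 := Nat.gcd_dvd_left _ _
  have hg2 : g ∣ h2 := Nat.gcd_dvd_right _ _
  have hex : ∀ x, ∃ j, (∃ i, j < h1 ∧ x = a i j) ∨ (∃ i, j < h2 ∧ x = b i j) := by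
    intro x
    rcases M.cover x with ⟨i, j, hj, rfl⟩ | ⟨i, j, hj, rfl⟩
    · exact ⟨j, Or.inl ⟨i, hj, rfl⟩⟩
    · exact ⟨j, Or.inr ⟨i, hj, rfl⟩⟩
  choose ρ hρ using hex
  have ρa : ∀ i j, j < h1 → ρ (a i j) = j := by
    intro i j hj
    rcases hρ (a i j) with ⟨i', hj', he⟩ | ⟨i', hj', he⟩
    · exact (((M.a_inj _ _ _ _ hj hj').1 he).1).symm
    · exact absurd he (M.ab _ _ _ _ hj hj')
  have ρb : ∀ i j, j < h2 → ρ (b i j) = j := by
    intro i j hj
    rcases hρ (b i j) with ⟨i', hj', he⟩ | ⟨i', hj', he⟩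
    · exact absurd he.symm (M.ab _ _ _ _ hj' hj)
    · exact (((M.b_inj _ _ _ _ hj hj').1 he).1).symm
  set f : Ω → ZMod g := fun x => (ρ x : ZMod g) with hf
  have z1 : (h1 : ZMod g) = 0 := (ZMod.natCast_eq_zero_iff h1 g).2 hg1
  have z2 : (h2 : ZMod g) = 0 := (ZMod.natCast_eq_zero_iff h2 g).2 hg2
  have fh : ∀ x, f (h x) = f x := by
    intro x
    rcases M.cover x with ⟨i, j, hj, rfl⟩ | ⟨i, j, hj, rfl⟩
    · simp only [hf]; rw [M.ha, ρa _ _ hj, ρa _ _ hj]
    · simp only [hf]; rw [M.hb, ρb _ _ hj, ρb _ _ hj]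
  have fv : ∀ x, f (v x) = f x + 1 := by
    intro x
    rcases M.cover x with ⟨i, j, hj, rfl⟩ | ⟨i, j, hj, rfl⟩
    · simp only [hf]
      rw [ρa _ _ hj]
      rcases Nat.lt_or_ge (j + 1) h1 with h0 | h0
      · rw [M.va _ _ h0, ρa _ _ h0]; push_cast; ring
      · have h0' : j + 1 = h1 := by omega
        rw [M.va_top _ _ h0', ρb _ _ M.h2_pos]
        have : (j : ZMod g) + 1 = (h1 : ZMod g) := by rw [← h0']; push_cast; ring
        rw [this, z1]; simp
    · simp only [hf]
      rw [ρb _ _ hj]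
      rcases Nat.lt_or_ge (j + 1) h2 with h0 | h0
      · rw [M.vb _ _ h0, ρb _ _ h0]; push_cast; ring
      · have h0' : j + 1 = h2 := by omega
        have h3 : (j : ZMod g) + 1 = (h2 : ZMod g) := by rw [← h0']; push_cast; ring
        rcases lt_or_ge ((i - t2) % w2) (w1 : ℤ) with h4 | h4
        · rw [M.vb_top_lt _ _ h0' h4, ρa _ _ M.h1_pos, h3, z2]; simp
        · rw [M.vb_top_ge _ _ h0' h4, ρb _ _ M.h2_pos, h3, z2]; simp
  have := prim_setoid h v hp (Setoid.ker f)
    (fun x y hxy => by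
      have hxy' : f x = f y := hxy
      show f (h x) = f (h y)
      rw [fh, fh, hxy'])
    (fun x y hxy => by
      have hxy' : f x = f y := hxy
      show f (v x) = f (v y)
      rw [fv, fv, hxy'])
  rcases this with H | H
  · exfalso
    have h5 : b 0 0 = b 1 0 := by
      apply H
      show f (b 0 0) = f (b 1 0)
      simp only [hf]
      rw [ρb _ _ M.h2_pos, ρb _ _ M.h2_pos]
    rw [M.b_inj _ _ _ _ M.h2_pos M.h2_pos] at h5
    have h6 : (w2 : ℤ) ∣ 1 := by
      have := h5.2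
      rw [← dvd_neg] at this
      simpa using this
    have h7 : w2 ∣ 1 := by exact_mod_cast h6
    have h8 := Nat.dvd_one.1 h7
    have := M.w1_pos
    have := M.w12
    omega
  · have h5 : f (v (b 0 0)) = f (b 0 0) := H _ _
    rw [fv] at h5
    have h6 : ((1 : ℕ) : ZMod g) = 0 := by
      have : (1 : ZMod g) = 0 := by simpa using h5
      simpa using this
    rw [ZMod.natCast_eq_zero_iff] at h6
    exact Nat.dvd_one.1 h6

end model

/-- a non-uniform transitive pair with 3-cycle commutator has a two-cylinder model -/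
theorem exists_model [Fintype Ω] [DecidableEq Ω] (h v : Perm Ω)
    (H : (h * v * h⁻¹ * v⁻¹).IsThreeCycle)
    (ht : MulAction.IsPretransitive (Subgroup.closure {h, v}) Ω)
    (hnu : ∃ x y, per h x ≠ per h y) :
    ∃ (w1 h1 : ℕ) (t1 : ℤ) (w2 h2 : ℕ) (t2 : ℤ) (a b : ℤ → ℕ → Ω),
      Model h v w1 h1 t1 w2 h2 t2 a b := by
  obtain ⟨s1, s2, s3, S⟩ := exists_sg h v H
  have fin : ∀ {s1 s2 s3 : Ω}, Sg h v s1 s2 s3 → ¬ SameCycle h s1 s2 → ¬ SameCycle h s1 s3 →
      SameCycle h s2 s3 → ∃ (w1 h1 : ℕ) (t1 : ℤ) (w2 h2 : ℕ) (t2 : ℤ) (a b : ℤ → ℕ → Ω),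
      Model h v w1 h1 t1 w2 h2 t2 a b := by
    intro s1 s2 s3 S h12 h13 h23
    obtain ⟨w, c, C⟩ := S.caseC h12 h13 h23
    obtain ⟨h1, t1, h2, t2, a, b, M⟩ := model_of_caseC C ht
    exact ⟨_, _, _, _, _, _, _, _, M⟩
  by_cases h12 : SameCycle h s1 s2
  · by_cases h13 : SameCycle h s1 s3
    · exfalso
      obtain ⟨x, y, hxy⟩ := hnu
      have hA := (S.caseA h12 h13).1
      apply hxy
      have := closed_eq_univ h v ht {z | per h z = per h y} y rfl
        (fun z hz => by
          show per h (h z) = per h y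
          rw [per_apply]; exact hz)
        (fun z hz => by
          show per h (v z) = per h y
          rw [hA]; exact hz) x
      exact this
    · exact fin S.rot.rot (fun H => h13 H.symm) (fun H => h13 (h12.trans H.symm)) h12
  · by_cases h13 : SameCycle h s1 s3
    · exact fin S.rot (fun H => h12 (h13.trans H.symm)) (fun H => h12 H.symm) h13.symm
    · by_cases h23 : SameCycle h s2 s3
      · exact fin S h12 h13 h23
      · exact (S.caseB h12 h13 h23).elim

section good

variable [Fintype Ω] [DecidableEq Ω] {O : Set (Perm Ω × Perm Ω)}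

theorem GoodSet.Tn (G : GoodSet O) {h v : Perm Ω} (H : (h, v) ∈ O) (k : ℤ) :
    (h, v * h ^ k) ∈ O := by
  induction k using Int.induction_on with
  | zero => simpa using H
  | succ k ih =>
    have := G.Ti _ _ ih
    rwa [mul_assoc, ← zpow_add_one] at this
  | pred k ih =>
    have := G.T _ _ ih
    rwa [mul_assoc, ← zpow_sub_one] at this

theorem GoodSet.U (G : GoodSet O) {h v : Perm Ω} (H : (h, v) ∈ O) : (v, h⁻¹) ∈ O := by
  have h1 := G.T _ _ H
  have h2 := G.Si _ _ h1
  have h3 := G.T _ _ h2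
  have h4 := G.conj h⁻¹ _ _ h3
  convert h4 using 2 <;> group

theorem GoodSet.PQ2 (G : GoodSet O) {h v : Perm Ω} (H : (h, v) ∈ O) : (h, h * v) ∈ O := by
  have h1 := G.Ti _ _ H
  have h4 := G.conj h _ _ h1
  convert h4 using 2 <;> group

theorem GoodSet.QP1 (G : GoodSet O) {h v : Perm Ω} (H : (h, v) ∈ O) : (v * h, v) ∈ O := by
  have h1 := G.Si _ _ H
  have h4 := G.conj v _ _ h1
  convert h4 using 2 <;> group

theorem not_three_one : ¬ (1 : Perm Ω).IsThreeCycle := fun H => H.ne_one rfl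

/-- a good set that is nonempty contains a non-uniform pair -/
theorem GoodSet.exists_nonuniform (G : GoodSet O) {h v : Perm Ω} (H : (h, v) ∈ O) :
    ∃ h' v', (h', v') ∈ O ∧ ∃ x y, per h' x ≠ per h' y := by
  by_cases hnu : ∃ x y, per h x ≠ per h y
  · exact ⟨h, v, H, hnu⟩
  push Not at hnu
  obtain ⟨s1, s2, s3, S⟩ := exists_sg h v (G.three _ _ H)
  have alone : ∀ {s1 s2 s3 : Ω}, Sg h v s1 s2 s3 →
      SameCycle h s1 s2 ∨ SameCycle h s1 s3 := by
    intro s1 s2 s3 S
    by_contra hcon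
    push Not at hcon
    obtain ⟨h12, h13⟩ := hcon
    have harc := S.arc (per h s1) (by
      intro j hj hj'
      refine ⟨pow_ne_of_lt_per h s1 hj hj', ?_, ?_⟩
      · intro he; exact h12 ⟨j, by rw [zpow_natCast]; exact he⟩
      · intro he; exact h13 ⟨j, by rw [zpow_natCast]; exact he⟩)
    have h1 := harc (per h s1) (per_pos h s1) le_rfl
    rw [pow_per, hnu s1 (v s2), pow_per] at h1
    exact S.n12 (Equiv.injective v h1)
  have a1 := alone S
  have a2 := alone S.rot
  have a3 := alone S.rot.rot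
  have h12 : SameCycle h s1 s2 := by
    rcases a1 with h0 | h0
    · exact h0
    · rcases a2 with h1 | h1
      · exact h0.trans h1.symm
      · exact h1.symm
  have h13 : SameCycle h s1 s3 := by
    rcases a3 with h1 | h1
    · exact h1.symm
    · exact h12.trans h1.symm
  have hA := (S.caseA h12 h13).2
  rcases prim_setoid h v (G.prim _ _ H) (SameCycle.setoid h)
    (fun x y hxy => (sameCycle_apply_left.2 (sameCycle_apply_right.2 hxy)))
    (fun x y hxy => hA x y hxy) with H1 | H1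
  · exfalso
    have h1 : h = 1 := by
      ext x
      have : x = h x := H1 x (h x) ⟨1, by simp⟩
      simpa using this.symm
    have := G.three _ _ H
    rw [h1] at this
    simp only [one_mul, inv_one, mul_one, mul_inv_cancel] at this
    exact not_three_one this
  · obtain ⟨k, hk⟩ : SameCycle h s1 (v s1) := H1 _ _
    have h1 := G.Tn H (-k)
    have h2 := G.conj (h ^ (-k)) _ _ h1
    have h3 : (h, h ^ (-k) * v) ∈ O := by
      convert h2 using 2 <;> group
    have h4 := G.U h3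
    refine ⟨_, _, h4, ?_⟩
    by_contra hcon
    push Not at hcon
    have h5 : per (h ^ (-k) * v) s1 = 1 := by
      apply per_eq_of _ _ one_pos
      · rw [pow_one, Perm.mul_apply, ← hk, zz]; simp
      · intro j hj hj'; omega
    have h6 : h ^ (-k) * v = 1 := eq_one_of_per _ (fun x => by rw [hcon x s1, h5])
    have := G.three _ _ h4
    rw [h6] at this
    simp only [one_mul, inv_one, mul_one, mul_inv_cancel] at this
    exact not_three_one this

theorem GoodSet.exists_model (G : GoodSet O) {h v : Perm Ω} (H : (h, v) ∈ O)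
    (hnu : ∃ x y, per h x ≠ per h y) :
    ∃ (w1 h1 : ℕ) (t1 : ℤ) (w2 h2 : ℕ) (t2 : ℤ) (a b : ℤ → ℕ → Ω),
      Model h v w1 h1 t1 w2 h2 t2 a b :=
  Pool.Agent.Origami.exists_model h v (G.three _ _ H) (G.prim _ _ H).toIsPretransitive hnu

end good

end Pool.Agent.Origami
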