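import Pool.Agent.Origami.Distinct

/-!
# The local `K_{3,3}` minor

Helper file for `MP_7a6c3d_gt`.
-/

namespace Pool.Agent.Origami

open Equiv Equiv.Perm

/-- a local `K_{3,3}` minor from branch sets with at most two vertices -/
theorem localMinor_of {V : Type*} (G : SimpleGraph V) (s s' : Fin 3 ⊕ Fin 3 → V)
    (hdisj : ∀ x y, x ≠ y → s x ≠ s y ∧ s x ≠ s' y ∧ s' x ≠ s' y)
    (hin : ∀ x, s x = s' x ∨ G.Adj (s x) (s' x))
    (hcross : ∀ i j : Fin 3, G.Adj (s (Sum.inl i)) (s (Sum.inr j)) ∨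
      G.Adj (s (Sum.inl i)) (s' (Sum.inr j)) ∨ G.Adj (s' (Sum.inl i)) (s (Sum.inr j)) ∨
      G.Adj (s' (Sum.inl i)) (s' (Sum.inr j))) :
    HasLocalMinor 2 (completeBipartiteGraph (Fin 3) (Fin 3)) G := by
  have hcross' : ∀ i j : Fin 3, ∃ a ∈ ({s (Sum.inl i), s' (Sum.inl i)} : Set V),
      ∃ b ∈ ({s (Sum.inr j), s' (Sum.inr j)} : Set V), G.Adj a b := by
    intro i j
    rcases hcross i j with h | h | h | h
    · exact ⟨_, Or.inl rfl, _, Or.inl rfl, h⟩
    · exact ⟨_, Or.inl rfl, _, Or.inr rfl, h⟩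
    · exact ⟨_, Or.inr rfl, _, Or.inl rfl, h⟩
    · exact ⟨_, Or.inr rfl, _, Or.inr rfl, h⟩
  refine ⟨fun x => {s x, s' x}, ?_, ?_, ?_⟩
  · intro x y hxy
    obtain ⟨h1, h2, h3⟩ := hdisj x y hxy
    obtain ⟨_, h4, _⟩ := hdisj y x hxy.symm
    rw [Set.disjoint_left]
    rintro a (rfl | ha) (hb | hb)
    · exact h1 hb
    · exact h2 hb
    · rw [Set.mem_singleton_iff] at ha
      rw [ha] at hb
      exact h4 hb.symm
    · rw [Set.mem_singleton_iff] at ha hb
      rw [ha] at hb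
      exact h3 hb
  · intro x
    have hcard : ({s x, s' x} : Set V).encard ≤ (2 : ℕ) := by
      refine (Set.encard_insert_le _ _).trans ?_
      rw [Set.encard_singleton]
      exact le_of_eq one_add_one_eq_two
    refine ⟨?_, hcard⟩
    show (G.induce ({s x, s' x} : Set V)).Connected
    rcases hin x with h | h
    · rw [← h]
      have i1 : Subsingleton ({s x, s x} : Set V) := by
        rw [Set.pair_eq_singleton]; infer_instance
      have i2 : Nonempty ({s x, s x} : Set V) := ⟨⟨s x, by simp⟩⟩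
      exact SimpleGraph.Connected.of_subsingleton
    · exact SimpleGraph.induce_pair_connected_of_adj h
  · intro x y hxy
    rcases x with i | i <;> rcases y with j | j
    · simp at hxy
    · exact hcross' i j
    · obtain ⟨a, ha, b, hb, hab⟩ := hcross' j i
      exact ⟨b, hb, a, ha, hab.symm⟩
    · simp at hxy

variable {n : ℕ}

theorem adj_T {o : Origami n} (x y : sl2Orbit o) (hne : x ≠ y) (h : T n x.1 = y.1) :
    (orbitGraph o).Adj x y := by
  rw [orbitGraph, SimpleGraph.fromRel_adj]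
  exact ⟨hne, Or.inl (Or.inl h)⟩

theorem adj_S {o : Origami n} (x y : sl2Orbit o) (hne : x ≠ y) (h : S n x.1 = y.1) :
    (orbitGraph o).Adj x y := by
  rw [orbitGraph, SimpleGraph.fromRel_adj]
  exact ⟨hne, Or.inl (Or.inr h)⟩

theorem T_Pt (o : Origami n) (k : ℤ) : T n (Pt o (k + 1)) = Pt o k := by
  unfold Pt; rw [apply_zpow']; congr 2; ring

theorem T_Yt (o : Origami n) (k : ℤ) : T n (Yt o k) = Yt o (k + 1) := by
  unfold Yt; rw [apply_zpow']

theorem T_Zt (o : Origami n) (k : ℤ) : T n (Zt o k) = Zt o (k + 1) := by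
  unfold Zt; rw [apply_zpow']

theorem shift_P {o : Origami n} {i j : ℤ} (h : Pt o i = Pt o j) (m : ℤ) :
    Pt o m = Pt o (m + (j - i)) := by
  have := congrArg (fun x => (T n ^ (i - m)) x) h
  simp only [Pt, zz] at this ⊢
  convert this using 3 <;> ring

theorem shift_Y {o : Origami n} {i j : ℤ} (h : Yt o i = Yt o j) (m : ℤ) :
    Yt o m = Yt o (m + (j - i)) := by
  have := congrArg (fun x => (T n ^ (m - i)) x) h
  simp only [Yt, zz] at this ⊢
  convert this using 3 <;> ring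

theorem shift_Z {o : Origami n} {i j : ℤ} (h : Zt o i = Zt o j) (m : ℤ) :
    Zt o m = Zt o (m + (j - i)) := by
  have := congrArg (fun x => (T n ^ (m - i)) x) h
  simp only [Zt, zz] at this ⊢
  convert this using 3 <;> ring

theorem shift_YZ {o : Origami n} {i j : ℤ} (h : Yt o i = Zt o j) (m : ℤ) :
    Yt o m = Zt o (m + (j - i)) := by
  have := congrArg (fun x => (T n ^ (m - i)) x) h
  simp only [Yt, Zt, zz] at this ⊢
  convert this using 3 <;> ring

section facts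

variable {o : Origami n} {p q : ℕ}

theorem Facts.PP (F : Facts o p q) {i j : ℤ} (h1 : i < j) (h2 : j - i ≤ 3) : Pt o i ≠ Pt o j := by
  intro he
  have h3 := shift_P he 0
  have h4 : j - i = 1 ∨ j - i = 2 ∨ j - i = 3 := by omega
  have hP := F.P0
  rw [h3, zero_add] at hP
  rcases h4 with h4 | h4 | h4 <;> rw [h4] at hP
  · exact F.P1 hP
  · exact F.P2 hP
  · exact F.P3 hP

theorem Facts.YY (F : Facts o p q) {i j : ℤ} (h1 : i < j) (h2 : j - i ≤ 3) : Yt o i ≠ Yt o j := by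
  intro he
  have h4 : j - i = 1 ∨ j - i = 2 ∨ j - i = 3 := by omega
  rcases h4 with h4 | h4 | h4
  · have h3 := shift_Y he 0
    rw [h4] at h3
    exact F.Y1 (h3 ▸ F.Y0)
  · have h3 := shift_Y he 0
    rw [h4] at h3
    exact F.Y2 (h3 ▸ F.Y0)
  · have h3 := shift_Y he (-1)
    rw [h4] at h3
    exact F.Y2 (h3 ▸ F.Ym1)

theorem Facts.ZZ' (F : Facts o p q) {i j : ℤ} (h1 : i < j) (h2 : j - i ≤ 3) :
    Zt o i ≠ Zt o j := by
  intro he
  have h4 : j - i = 1 ∨ j - i = 2 ∨ j - i = 3 := by omega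
  rcases h4 with h4 | h4 | h4
  · have h3 := shift_Z he 0
    rw [h4] at h3
    exact F.Z1 (h3 ▸ F.Z0)
  · have h3 := shift_Z he (-2)
    rw [h4] at h3
    exact F.Zm2 (h3.symm ▸ F.Z0)
  · by_cases h5 : p = 5
    · have h3 := shift_Z he (-1)
      rw [h4] at h3
      exact F.Zm1 (h3.symm ▸ F.Z2 h5)
    · by_cases h6 : p = 4 ∧ q = 2
      · have h3 := shift_Z he (-2)
        rw [h4] at h3
        exact (F.ZZ h6).2 (h3 ▸ (F.ZZ h6).1)
      · have h3 := shift_Z he (-3)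
        rw [h4] at h3
        exact F.Zm3 h5 h6 (h3.symm ▸ F.Z0)

theorem Facts.YZ (F : Facts o p q) {i j : ℤ} (h1 : -4 ≤ j - i) (h2 : j - i ≤ 2) :
    Yt o i ≠ Zt o j := by
  intro he
  have h4 : j - i = 2 ∨ j - i = 1 ∨ j - i = 0 ∨ j - i = -1 ∨ j - i = -2 ∨ j - i = -3 ∨
    j - i = -4 := by omega
  rcases h4 with h4 | h4 | h4 | h4 | h4 | h4 | h4
  · have h3 := shift_YZ he (-1)
    rw [h4] at h3
    exact F.Z1 (h3 ▸ F.Ym1)
  · have h3 := shift_YZ he 0
    rw [h4] at h3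
    exact F.Z1 (h3 ▸ F.Y0)
  · have h3 := shift_YZ he (-1)
    rw [h4] at h3
    exact F.Zm1 (h3 ▸ F.Ym1)
  · have h3 := shift_YZ he (-1)
    rw [h4] at h3
    exact F.Zm2 (h3 ▸ F.Ym1)
  · have h3 := shift_YZ he 0
    rw [h4] at h3
    exact F.Zm2 (h3 ▸ F.Y0)
  · by_cases h5 : p = 5
    · have h3 := shift_YZ he 3
      rw [h4] at h3
      exact F.Y3 (by omega) (h3.symm ▸ F.Z0)
    · by_cases h6 : p = 4 ∧ q = 2
      · have h3 := shift_YZ he 4
        rw [h4] at h3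
        exact F.Z1 (h3 ▸ F.Y4' h6)
      · have h3 := shift_YZ he 0
        rw [h4] at h3
        exact F.Zm3 h5 h6 (h3 ▸ F.Y0)
  · by_cases h5 : p = 5
    · have h3 := shift_YZ he 1
      rw [h4] at h3
      exact F.Y1 (h3.symm ▸ F.Zm3' h5)
    · by_cases h6 : p = 4 ∧ q = 2
      · have h3 := shift_YZ he 3
        rw [h4] at h3
        exact F.Zm1 (h3 ▸ F.Y3' h6.1)
      · have h3 := shift_YZ he 4
        rw [h4] at h3
        exact F.Y4 h5 h6 (h3.symm ▸ F.Z0)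

theorem Facts.PY (F : Facts o p q) (i j : ℤ) : Pt o i ≠ Yt o j := by
  intro he
  exact F.A1Y j (he ▸ F.A1P i)

theorem Facts.PZ (F : Facts o p q) (i j : ℤ) : Pt o i ≠ Zt o j := by
  intro he
  exact F.A1Z j (he ▸ F.A1P i)

/-- the twelve vertices -/
def W (o : Origami n) (r : Fin 3) (k : ℤ) : Origami n :=
  if r = 0 then Pt o k else if r = 1 then Yt o (k - 1) else Zt o (k - 2)

theorem Facts.W_inj (F : Facts o p q) {r r' : Fin 3} {k k' : ℤ} (h1 : 0 ≤ k) (h2 : k ≤ 3)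
    (h1' : 0 ≤ k') (h2' : k' ≤ 3) (he : W o r k = W o r' k') : r = r' ∧ k = k' := by
  have e0 : ∀ k, W o 0 k = Pt o k := fun k => rfl
  have e1 : ∀ k, W o 1 k = Yt o (k - 1) := fun k => rfl
  have e2 : ∀ k, W o 2 k = Zt o (k - 2) := fun k => rfl
  have hr : ∀ r : Fin 3, r = 0 ∨ r = 1 ∨ r = 2 := by decide
  rcases hr r with rfl | rfl | rfl <;> rcases hr r' with rfl | rfl | rfl <;>
    simp only [e0, e1, e2] at he
  · rcases lt_trichotomy k k' with h | h | h
    · exact absurd he (F.PP h (by omega))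
    · exact ⟨rfl, h⟩
    · exact absurd he.symm (F.PP h (by omega))
  · exact absurd he (F.PY _ _)
  · exact absurd he (F.PZ _ _)
  · exact absurd he.symm (F.PY _ _)
  · rcases lt_trichotomy k k' with h | h | h
    · exact absurd he (F.YY (by omega) (by omega))
    · exact ⟨rfl, h⟩
    · exact absurd he.symm (F.YY (by omega) (by omega))
  · exact absurd he (F.YZ (by omega) (by omega))
  · exact absurd he.symm (F.PZ _ _)
  · exact absurd he.symm (F.YZ (by omega) (by omega))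
  · rcases lt_trichotomy k k' with h | h | h
    · exact absurd he (F.ZZ' (by omega) (by omega))
    · exact ⟨rfl, h⟩
    · exact absurd he.symm (F.ZZ' (by omega) (by omega))

theorem W_mem (o : Origami n) (r : Fin 3) (k : ℤ) : W o r k ∈ sl2Orbit o := by
  unfold W
  split_ifs
  · exact orbit_Tz (mem_orbit_self o) _
  · exact orbit_Tz (orbit_cc (mem_orbit_self o)) _
  · exact orbit_Tz (orbit_cc (orbit_Ti (mem_orbit_self o))) _

/-- the `S`-edges -/
theorem Facts.S_edges (F : Facts o p q) :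
    S n (Pt o 2) = Yt o 1 ∧ S n (Pt o 3) = Zt o 1 ∧ S n (Yt o (-1)) = Pt o 0 ∧
    S n (Zt o (-1)) = Pt o 1 ∧ S n (Yt o 0) = Zt o 0 ∧ S n (Zt o (-2)) = Yt o 2 := by
  have m0 := mem_orbit_self o
  have m1 := orbit_Ti m0
  have R1 : cc (T n (cc o)) = (T n)⁻¹ o := cc_T_cc (F.neg _ m0)
  have R1' : cc (T n (cc ((T n)⁻¹ o))) = (T n)⁻¹ ((T n)⁻¹ o) := cc_T_cc (F.neg _ m1)
  have R1'' : cc (T n (cc (cc ((T n)⁻¹ o)))) = (T n)⁻¹ (cc ((T n)⁻¹ o)) :=
    cc_T_cc (F.neg _ (orbit_cc m1))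
  have R2 : cc (cc (cc (T n (cc o)))) = T n (cc o) := cc_cube (F.neg _ (orbit_T (orbit_cc m0)))
  have E : T n (cc o) = cc (cc ((T n)⁻¹ o)) := by rw [← R2, R1]
  have t1 : ∀ x : Origami n, (T n ^ (-1 : ℤ)) x = (T n)⁻¹ x := fun x => by rw [zpow_neg_one]
  have t2 : ∀ x : Origami n, (T n ^ (-2 : ℤ)) x = (T n)⁻¹ ((T n)⁻¹ x) := fun x => by
    rw [← Perm.mul_apply]; congr 1
  have t3 : ∀ x : Origami n, (T n ^ (-3 : ℤ)) x = (T n)⁻¹ ((T n)⁻¹ ((T n)⁻¹ x)) := fun x => by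
    rw [← Perm.mul_apply, ← Perm.mul_apply]; congr 1
  have p2 : ∀ x : Origami n, (T n ^ (2 : ℤ)) x = T n (T n x) := fun x => by
    rw [← Perm.mul_apply]; congr 1
  have ci : ∀ x : Origami n, T n ((T n)⁻¹ x) = x := fun x => by simp
  refine ⟨?_, ?_, ?_, ?_, ?_, ?_⟩ <;> rw [S_eq_iff]
  · simp only [Pt, Yt, t2, zpow_one]
    rw [R1, ci]
  · simp only [Pt, Zt, t3, zpow_one]
    rw [R1', ci]
  · simp only [Pt, Yt, t1, neg_zero, zpow_zero, Perm.one_apply]
    rw [ci]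
  · simp only [Pt, Zt, t1]
    rw [ci]
  · simp only [Yt, Zt, zpow_zero, Perm.one_apply]
    exact E
  · simp only [Yt, Zt, t2, p2]
    rw [ci, E, R1'']

end facts

/-- the main configuration: an origami satisfying `Facts` has a 2-local `K_{3,3}` minor in its
orbit graph -/
theorem Facts.localMinor {o : Origami n} {p q : ℕ} (F : Facts o p q) :
    HasLocalMinor 2 (completeBipartiteGraph (Fin 3) (Fin 3)) (orbitGraph o) := by
  let w : Fin 3 → ℤ → sl2Orbit o := fun r k => ⟨W o r k, W_mem o r k⟩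
  have hw : ∀ r r' : Fin 3, ∀ k k' : ℤ, 0 ≤ k → k ≤ 3 → 0 ≤ k' → k' ≤ 3 →
      (r ≠ r' ∨ k ≠ k') → w r k ≠ w r' k' := by
    intro r r' k k' h1 h2 h3 h4 hne he
    have := F.W_inj h1 h2 h3 h4 (congrArg Subtype.val he)
    rcases hne with h | h
    · exact h this.1
    · exact h this.2
  obtain ⟨S1, S2, S3, S4, S5, S6⟩ := F.S_edges
  -- sources: inl 0 = {y0, y-1}, inl 1 = {z-1, z-2}, inl 2 = {P2, P3}
  -- sinks: inr 0 = {P1, P0}, inr 1 = {y1, y2}, inr 2 = {z0, z1}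
  let rr : Fin 3 ⊕ Fin 3 → Fin 3 := Sum.elim ![1, 2, 0] ![0, 1, 2]
  let kk : Fin 3 ⊕ Fin 3 → ℤ := Sum.elim ![1, 1, 2] ![1, 2, 2]
  let kk' : Fin 3 ⊕ Fin 3 → ℤ := Sum.elim ![0, 0, 3] ![0, 3, 3]
  have hkk : ∀ x, 0 ≤ kk x ∧ kk x ≤ 3 ∧ 0 ≤ kk' x ∧ kk' x ≤ 3 := by decide
  apply localMinor_of (orbitGraph o) (fun x => w (rr x) (kk x)) (fun x => w (rr x) (kk' x))
  · intro x y hxy
    obtain ⟨a1, a2, a3, a4⟩ := hkk x
    obtain ⟨b1, b2, b3, b4⟩ := hkk y
    have key : ∀ x y : Fin 3 ⊕ Fin 3, x ≠ y → (rr x ≠ rr y ∨ kk x ≠ kk y) ∧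
        (rr x ≠ rr y ∨ kk x ≠ kk' y) ∧ (rr x ≠ rr y ∨ kk' x ≠ kk' y) := by decide
    obtain ⟨c1, c2, c3⟩ := key x y hxy
    exact ⟨hw _ _ _ _ a1 a2 b1 b2 c1, hw _ _ _ _ a1 a2 b3 b4 c2, hw _ _ _ _ a3 a4 b3 b4 c3⟩
  · intro x
    right
    have tP : ∀ k k' : ℤ, 0 ≤ k → k ≤ 3 → 0 ≤ k' → k' ≤ 3 → k = k' + 1 →
        (orbitGraph o).Adj (w 0 k) (w 0 k') := by
      intro k k' h1 h2 h3 h4 h5
      refine adj_T _ _ (hw _ _ _ _ h1 h2 h3 h4 (Or.inr (by omega))) ?_
      change T n (Pt o k) = Pt o k'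
      rw [h5, T_Pt]
    have tY : ∀ k k' : ℤ, 0 ≤ k → k ≤ 3 → 0 ≤ k' → k' ≤ 3 → k' = k + 1 →
        (orbitGraph o).Adj (w 1 k) (w 1 k') := by
      intro k k' h1 h2 h3 h4 h5
      refine adj_T _ _ (hw _ _ _ _ h1 h2 h3 h4 (Or.inr (by omega))) ?_
      change T n (Yt o (k - 1)) = Yt o (k' - 1)
      rw [T_Yt, h5]; congr 1; ring
    have tZ : ∀ k k' : ℤ, 0 ≤ k → k ≤ 3 → 0 ≤ k' → k' ≤ 3 → k' = k + 1 →
        (orbitGraph o).Adj (w 2 k) (w 2 k') := by
      intro k k' h1 h2 h3 h4 h5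
      refine adj_T _ _ (hw _ _ _ _ h1 h2 h3 h4 (Or.inr (by omega))) ?_
      change T n (Zt o (k - 2)) = Zt o (k' - 2)
      rw [T_Zt, h5]; congr 1; ring
    rcases x with i | i <;> fin_cases i
    · exact (tY 0 1 (by norm_num) (by norm_num) (by norm_num) (by norm_num) rfl).symm
    · exact (tZ 0 1 (by norm_num) (by norm_num) (by norm_num) (by norm_num) rfl).symm
    · exact (tP 3 2 (by norm_num) (by norm_num) (by norm_num) (by norm_num) rfl).symm
    · exact (tP 1 0 (by norm_num) (by norm_num) (by norm_num) (by norm_num) rfl)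
    · exact (tY 2 3 (by norm_num) (by norm_num) (by norm_num) (by norm_num) rfl)
    · exact (tZ 2 3 (by norm_num) (by norm_num) (by norm_num) (by norm_num) rfl)
  · have aS : ∀ (r r' : Fin 3) (k k' : ℤ), 0 ≤ k → k ≤ 3 → 0 ≤ k' → k' ≤ 3 →
        (r ≠ r' ∨ k ≠ k') → S n (W o r k) = W o r' k' → (orbitGraph o).Adj (w r k) (w r' k') := by
      intro r r' k k' h1 h2 h3 h4 h5 h6
      exact adj_S _ _ (hw _ _ _ _ h1 h2 h3 h4 h5) h6
    have aT : ∀ (r r' : Fin 3) (k k' : ℤ), 0 ≤ k → k ≤ 3 → 0 ≤ k' → k' ≤ 3 →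
        (r ≠ r' ∨ k ≠ k') → T n (W o r k) = W o r' k' → (orbitGraph o).Adj (w r k) (w r' k') := by
      intro r r' k k' h1 h2 h3 h4 h5 h6
      exact adj_T _ _ (hw _ _ _ _ h1 h2 h3 h4 h5) h6
    have TZ : T n (Zt o (-1)) = Zt o 0 := by rw [T_Zt]; norm_num
    intro i j
    fin_cases i <;> fin_cases j
    · -- y-1 - P0
      right; right; right
      exact aS 1 0 0 0 (by norm_num) (by norm_num) (by norm_num) (by norm_num)
        (Or.inl (by decide)) S3
    · -- y0 - y1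
      left
      exact aT 1 1 1 2 (by norm_num) (by norm_num) (by norm_num) (by norm_num)
        (Or.inr (by norm_num)) (T_Yt o 0)
    · -- y0 - z0
      left
      exact aS 1 2 1 2 (by norm_num) (by norm_num) (by norm_num) (by norm_num)
        (Or.inl (by decide)) S5
    · -- z-1 - P1
      left
      exact aS 2 0 1 1 (by norm_num) (by norm_num) (by norm_num) (by norm_num)
        (Or.inl (by decide)) S4
    · -- z-2 - y2
      right; right; right
      exact aS 2 1 0 3 (by norm_num) (by norm_num) (by norm_num) (by norm_num)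
        (Or.inl (by decide)) S6
    · -- z-1 - z0
      left
      exact aT 2 2 1 2 (by norm_num) (by norm_num) (by norm_num) (by norm_num)
        (Or.inr (by norm_num)) TZ
    · -- P2 - P1
      left
      exact aT 0 0 2 1 (by norm_num) (by norm_num) (by norm_num) (by norm_num)
        (Or.inr (by norm_num)) (T_Pt o 1)
    · -- P2 - y1
      left
      exact aS 0 1 2 2 (by norm_num) (by norm_num) (by norm_num) (by norm_num)
        (Or.inl (by decide)) S1
    · -- P3 - z1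
      right; right; right
      exact aS 0 2 3 3 (by norm_num) (by norm_num) (by norm_num) (by norm_num)
        (Or.inl (by decide)) S2

end Pool.Agent.Origami
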