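import Pool.Agent.Origami.Word

/-!
# The key lemma and existence of L-shaped pairs

Helper file for `MP_7a6c3d_gt`.
-/

namespace Pool.Agent.Origami

open Equiv Equiv.Perm

variable {Ω : Type*}

theorem eq_of_dvd_sub {w : ℕ} {x y : ℤ} (h : (w : ℤ) ∣ x - y) (h1 : x - y < w)
    (h2 : -(w : ℤ) < x - y) : x = y := by
  have := Int.eq_zero_of_abs_lt_dvd h (abs_lt.2 ⟨h2, h1⟩)
  omega

/-- cumulative number of horizontal steps -/
def Phi (κ m V : ℕ) : ℤ := ((V * κ / m : ℕ) : ℤ)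

theorem Phi_zero (κ m : ℕ) : Phi κ m 0 = 0 := by simp [Phi]

theorem stp_cast (κ m V : ℕ) : ((stp κ m V : ℕ) : ℤ) = Phi κ m (V + 1) - Phi κ m V := by
  unfold stp Phi
  have : V * κ / m ≤ (V + 1) * κ / m := Nat.div_le_div_right (Nat.mul_le_mul_right _ (by omega))
  omega

theorem F_succ_apply (h v : Perm Ω) (κ m V : ℕ) (x : Ω) :
    F h v κ m (V + 1) x = v ((h ^ (Phi κ m (V + 1) - Phi κ m V)) (F h v κ m V x)) := by
  rw [← stp_cast, zpow_natCast]
  simp only [F, Perm.mul_apply]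

section path

variable {h v : Perm Ω} {w1 h1 : ℕ} {t1 : ℤ} {w2 h2 : ℕ} {t2 : ℤ} {a b : ℤ → ℕ → Ω}

theorem Model.pathB (M : Model h v w1 h1 t1 w2 h2 t2 a b) (κ m : ℕ) (x : Ω) (c : ℕ) (i : ℤ)
    (j : ℕ) (hx : F h v κ m c x = b i j) (V : ℕ) (hV : j + V < h2) :
    F h v κ m (c + V) x = b (i + Phi κ m (c + V) - Phi κ m c) (j + V) := by
  induction V with
  | zero => rw [add_zero, add_zero, hx]; congr 1; ring
  | succ V ih =>
    rw [show c + (V + 1) = (c + V) + 1 by ring, F_succ_apply, ih (by omega), M.hb_zpow,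
      M.vb _ _ (by omega)]
    congr 1; ring

theorem Model.pathA (M : Model h v w1 h1 t1 w2 h2 t2 a b) (κ m : ℕ) (x : Ω) (c : ℕ) (i : ℤ)
    (j : ℕ) (hx : F h v κ m c x = a i j) (V : ℕ) (hV : j + V < h1) :
    F h v κ m (c + V) x = a (i + Phi κ m (c + V) - Phi κ m c) (j + V) := by
  induction V with
  | zero => rw [add_zero, add_zero, hx]; congr 1; ring
  | succ V ih =>
    rw [show c + (V + 1) = (c + V) + 1 by ring, F_succ_apply, ih (by omega), M.ha_zpow,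
      M.va _ _ (by omega)]
    congr 1; ring

/-- crossing the top of the wide cylinder -/
theorem Model.crossB (M : Model h v w1 h1 t1 w2 h2 t2 a b) (κ m : ℕ) (x : Ω) (c : ℕ) (i : ℤ)
    (j V : ℕ) (hx : F h v κ m c x = b i j) (hV : j + V = h2) (hV0 : 0 < V) :
    F h v κ m (c + V) x = v (b (i + Phi κ m (c + V) - Phi κ m c) (h2 - 1)) := by
  obtain ⟨V', rfl⟩ : ∃ V', V = V' + 1 := ⟨V - 1, by omega⟩
  rw [show c + (V' + 1) = (c + V') + 1 by ring, F_succ_apply, M.pathB κ m x c i j hx V' (by omega),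
    M.hb_zpow]
  congr 2
  · ring
  · omega

theorem Model.crossA (M : Model h v w1 h1 t1 w2 h2 t2 a b) (κ m : ℕ) (x : Ω) (c : ℕ) (i : ℤ)
    (j V : ℕ) (hx : F h v κ m c x = a i j) (hV : j + V = h1) (hV0 : 0 < V) :
    F h v κ m (c + V) x = v (a (i + Phi κ m (c + V) - Phi κ m c) (h1 - 1)) := by
  obtain ⟨V', rfl⟩ : ∃ V', V = V' + 1 := ⟨V - 1, by omega⟩
  rw [show c + (V' + 1) = (c + V') + 1 by ring, F_succ_apply, M.pathA κ m x c i j hx V' (by omega),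
    M.ha_zpow]
  congr 2
  · ring
  · omega

/-- the points of the first kind -/
theorem Model.qpoint {τ : ℕ} (M : Model h v w1 h1 t1 w2 h2 (τ : ℤ) a b) {κ m d : ℕ}
    (hm : 0 < m) (hd : 0 < d) (hh2 : h2 = m * d) (hτ : τ = κ * d)
    (i0 j0 : ℕ) (hi0 : w1 ≤ i0) (hi0' : i0 < w2) (hj0 : j0 < h2) :
    per (F h v κ m m) (b (i0 + τ - Phi κ m (h2 - j0)) j0) = d := by
  set x := b (i0 + τ - Phi κ m (h2 - j0)) j0 with hx
  have hPh2 : Phi κ m h2 = τ := by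
    unfold Phi
    rw [hh2, hτ, show m * d * κ = κ * d * m by ring, Nat.mul_div_cancel _ hm]
  have hx0 : F h v κ m 0 x = b (i0 + τ - Phi κ m (h2 - j0)) j0 := by simp [F, hx]
  have h0 : F h v κ m (0 + (h2 - j0)) x = v (b (i0 + τ) (h2 - 1)) := by
    rw [M.crossB κ m x 0 _ _ (h2 - j0) hx0 (by omega) (by omega)]
    rw [Phi_zero, zero_add]
    congr 2; ring
  have h1 : F h v κ m (h2 - j0) x = b i0 0 := by
    rw [zero_add] at h0
    rw [h0]
    have e : ((i0 : ℤ) + τ - τ) % w2 = i0 := by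
      rw [add_sub_cancel_right]
      exact Int.emod_eq_of_lt (by omega) (by exact_mod_cast hi0')
    rw [M.vb_top_ge _ _ (by have := M.h2_pos; omega) (by rw [e]; exact_mod_cast hi0), e]
  have hpath1 : ∀ V, V < h2 - j0 → F h v κ m V x =
      b (i0 + τ - Phi κ m (h2 - j0) + Phi κ m V) (j0 + V) := by
    intro V hV
    have := M.pathB κ m x 0 _ _ hx0 V (by omega)
    rw [zero_add, Phi_zero, sub_zero] at this
    exact this
  have hpath2 : ∀ V, V < h2 → F h v κ m (h2 - j0 + V) x =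
      b (i0 + Phi κ m (h2 - j0 + V) - Phi κ m (h2 - j0)) V := by
    intro V hV
    have := M.pathB κ m x (h2 - j0) _ _ h1 V (by omega)
    rw [zero_add] at this
    exact this
  have hret : F h v κ m h2 x = x := by
    have := hpath2 j0 hj0
    rw [Nat.sub_add_cancel hj0.le, hPh2] at this
    rw [this, hx]
  have hne : ∀ V, 0 < V → V < h2 → F h v κ m V x ≠ x := by
    intro V hV hV' he
    rcases Nat.lt_or_ge V (h2 - j0) with h3 | h3
    · rw [hpath1 V h3, hx, M.b_inj _ _ _ _ (by omega) hj0] at he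
      omega
    · obtain ⟨V', rfl⟩ : ∃ V', V = h2 - j0 + V' := ⟨V - (h2 - j0), by omega⟩
      rw [hpath2 V' (by omega), hx, M.b_inj _ _ _ _ (by omega) hj0] at he
      omega
  apply per_eq_of _ _ hd
  · rw [← F_mul h v hm, mul_comm, ← hh2, hret]
  · intro k hk hk'
    rw [← F_mul h v hm]
    apply hne
    · positivity
    · rw [hh2, mul_comm m d]
      exact Nat.mul_lt_mul_of_pos_right hk' hm

/-- the orbit of the corner of the narrow cylinder -/
theorem Model.corner {τ : ℕ} (M : Model h v w1 h1 t1 w2 h2 (τ : ℤ) a b) {κ m d : ℕ}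
    (hm : 0 < m) (hh2 : h2 = m * d) (hτ : τ = κ * d) :
    (∀ V, 0 < V → V < h1 + h2 → F h v κ m V (a 0 0) ≠ a 0 0) ∧
    F h v κ m (h1 + h2) (a 0 0) = a ((Phi κ m h1 - t1) % w1) 0 := by
  have hh1 := M.h1_pos
  have hh2p := M.h2_pos
  set x := a 0 0 with hx
  have hx0 : F h v κ m 0 x = a 0 0 := by simp [F, hx]
  have hpath1 : ∀ V, V < h1 → F h v κ m V x = a (Phi κ m V) V := by
    intro V hV
    have := M.pathA κ m x 0 _ _ hx0 V (by omega)
    simpa [Phi_zero] using this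
  have h0 : F h v κ m h1 x = b ((Phi κ m h1 - t1) % w1) 0 := by
    have := M.crossA κ m x 0 _ _ h1 hx0 (by omega) (by omega)
    rw [zero_add, zero_add, Phi_zero, sub_zero] at this
    rw [this, M.va_top _ _ (by omega)]
  set i' := (Phi κ m h1 - t1) % w1 with hi'
  have hpath2 : ∀ V, V < h2 → F h v κ m (h1 + V) x = b (i' + Phi κ m (h1 + V) - Phi κ m h1) V := by
    intro V hV
    have := M.pathB κ m x h1 _ _ h0 V (by omega)
    rw [zero_add] at this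
    exact this
  constructor
  · intro V hV hV' he
    rcases Nat.lt_or_ge V h1 with h3 | h3
    · rw [hpath1 V h3, hx, M.a_inj _ _ _ _ h3 hh1] at he
      omega
    · obtain ⟨V', rfl⟩ : ∃ V', V = h1 + V' := ⟨V - h1, by omega⟩
      rw [hpath2 V' (by omega)] at he
      exact M.ab 0 0 _ _ hh1 (by omega) he.symm
  · rw [M.crossB κ m x h1 _ _ h2 h0 (by omega) hh2p]
    have hP : Phi κ m (h1 + h2) = Phi κ m h1 + τ := by
      unfold Phi
      rw [hh2, hτ, show (h1 + m * d) * κ = h1 * κ + κ * d * m by ring, Nat.add_mul_div_right _ _ hm]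
      push_cast; ring
    rw [hP]
    have w1p : (0 : ℤ) < w1 := by exact_mod_cast M.w1_pos
    have w12 : (w1 : ℤ) < w2 := by exact_mod_cast M.w12
    have i0 : 0 ≤ i' := Int.emod_nonneg _ w1p.ne'
    have i1 : i' < w1 := Int.emod_lt_of_pos _ w1p
    have e : (i' + (Phi κ m h1 + τ) - Phi κ m h1 - τ) % w2 = i' := by
      rw [show i' + (Phi κ m h1 + τ) - Phi κ m h1 - τ = i' by ring]
      exact Int.emod_eq_of_lt i0 (lt_trans i1 w12)
    rw [M.vb_top_lt _ _ (by omega) (by rw [e]; exact i1), e]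

end path

section good

variable [Fintype Ω] [DecidableEq Ω] {O : Set (Perm Ω × Perm Ω)}

/-- `c` is a lower bound for the invariant `w1 * h2` of all models of pairs in `O` -/
def IsMin (O : Set (Perm Ω × Perm Ω)) (c : ℕ) : Prop :=
  ∀ (h' v' : Perm Ω), (h', v') ∈ O → ∀ (w1 h1 : ℕ) (t1 : ℤ) (w2 h2 : ℕ) (t2 : ℤ)
    (a b : ℤ → ℕ → Ω), Model h' v' w1 h1 t1 w2 h2 t2 a b → c ≤ w1 * h2

omit [Fintype Ω] [DecidableEq Ω] in
theorem key_arith {w1 h1 w2 h2 h1' h2' d m ℓ : ℕ} (hw1 : 0 < w1) (hd : 0 < d) (hw12 : w1 < w2)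
    (hh2 : h2 = m * d) (hcard : w1 * h1 + w2 * h2 = d * h1' + ℓ * h2')
    (hQ : (w2 - w1) * h2 ≤ d * h1') (hmin : w1 * h2 ≤ d * h2') :
    ℓ * h2' ≤ w1 * (h1 + h2) ∧ m * ℓ ≤ h1 + h2 := by
  have hle1 : ℓ * h2' ≤ w1 * (h1 + h2) := by
    have h3 : (w2 - w1) * h2 + w1 * h2 = w2 * h2 := by
      rw [← Nat.add_mul, Nat.sub_add_cancel hw12.le]
    have h4 : w1 * (h1 + h2) = w1 * h1 + w1 * h2 := by ring
    omega
  refine ⟨hle1, ?_⟩
  have h3 : w1 * h2 * ℓ ≤ d * h2' * ℓ := Nat.mul_le_mul_right _ hmin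
  have h4 : d * (ℓ * h2') ≤ d * (w1 * (h1 + h2)) := Nat.mul_le_mul_left _ hle1
  have h5 : (w1 * d) * (m * ℓ) ≤ (w1 * d) * (h1 + h2) := by
    calc w1 * d * (m * ℓ) = w1 * (m * d) * ℓ := by ring
      _ = w1 * h2 * ℓ := by rw [hh2]
      _ ≤ d * h2' * ℓ := h3
      _ = d * (ℓ * h2') := by ring
      _ ≤ _ := h4
      _ = _ := by ring
  exact Nat.le_of_mul_le_mul_left h5 (by positivity)

omit [Fintype Ω] [DecidableEq Ω] in
theorem key_arith2 {w1 h1 w2 h2 h1' : ℕ} (hw12 : w1 < w2) (hh2p : 0 < h2)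
    (hcard : w1 * h1 + w2 * h2 = h2 * h1' + (h1 + h2) * w1) : h1' = w2 - w1 := by
  obtain ⟨e, rfl⟩ : ∃ e, w2 = w1 + e := ⟨w2 - w1, by omega⟩
  have h3 : h2 * h1' = h2 * e := by
    have h4 : w1 * h1 + (w1 + e) * h2 = h2 * e + (h1 + h2) * w1 := by ring
    omega
  have h4 := Nat.eq_of_mul_eq_mul_left hh2p h3
  omega

theorem GoodSet.key (G : GoodSet O) {h v : Perm Ω} (H : (h, v) ∈ O) {w1 h1 : ℕ} {t1 : ℤ}
    {w2 h2 τ : ℕ} {a b : ℤ → ℕ → Ω} (M : Model h v w1 h1 t1 w2 h2 (τ : ℤ) a b)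
    (hmin : IsMin O (w1 * h2)) :
    ∃ κ : ℕ, τ = κ * h2 ∧ (w1 : ℤ) ∣ κ * h1 - t1 ∧
      ∃ (h' v' : Perm Ω) (t1' t2' : ℤ) (a' b' : ℤ → ℕ → Ω), (h', v') ∈ O ∧
        Model h' v' h2 (w2 - w1) t1' (h1 + h2) w1 t2' a' b' := by
  have hh1 := M.h1_pos
  have hh2p := M.h2_pos
  have hw1 := M.w1_pos
  have hw12 := M.w12
  obtain ⟨d, m, κ, hd, hm, hκm, hh2, hτ⟩ : ∃ d m κ : ℕ, 0 < d ∧ 0 < m ∧ Nat.Coprime κ m ∧
      h2 = m * d ∧ τ = κ * d := by
    have hg : 0 < Nat.gcd τ h2 := Nat.gcd_pos_of_pos_right _ hh2p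
    obtain ⟨g, κ, m, h0, h1, h2', h3⟩ := Nat.exists_coprime' (m := τ) (n := h2) hg
    refine ⟨g, m, κ, h0, ?_, h1, h3, h2'⟩
    rcases Nat.eq_zero_or_pos m with h4 | h4
    · subst h4; omega
    · exact h4
  obtain ⟨Y, hY⟩ := G.word H hm hκm
  set X := F h v κ m m with hX
  have hq := fun (i0 j0 : ℕ) (hi0 : w1 ≤ i0) (hi0' : i0 < w2) (hj0 : j0 < h2) =>
    M.qpoint hm hd hh2 hτ i0 j0 hi0 hi0' hj0
  obtain ⟨hc1, hc2⟩ := M.corner hm hh2 hτ
  set ℓ := per X (a 0 0) with hℓ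
  have hℓpos : 0 < ℓ := per_pos _ _
  have hXℓ : F h v κ m (ℓ * m) (a 0 0) = a 0 0 := by
    rw [F_mul h v hm, hℓ, pow_per]
  have hℓm : h1 + h2 ≤ ℓ * m := by
    by_contra hcon
    push Not at hcon
    exact hc1 (ℓ * m) (by positivity) hcon hXℓ
  have hdl : d < ℓ := by
    have h3 : d * m < ℓ * m := by
      calc d * m = h2 := by rw [hh2]; ring
        _ < h1 + h2 := by omega
        _ ≤ ℓ * m := hℓm
    exact Nat.lt_of_mul_lt_mul_right h3
  have hq0 := hq w1 0 le_rfl hw12 hh2p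
  obtain ⟨w1', h1', t1', w2', h2', t2', a', b', M'⟩ := G.exists_model hY
    ⟨b (w1 + τ - Phi κ m (h2 - 0)) 0, a 0 0, by
      rw [hX, hq0, ← hX]; exact ne_of_lt hdl⟩
  have hp1 := M'.per_or (b ((w1 : ℕ) + τ - Phi κ m (h2 - 0)) 0)
  have hp2 := M'.per_or (a 0 0)
  rw [hX, hq0] at hp1
  rw [← hℓ] at hp2
  have hw12' := M'.w12
  have e1 : d = w1' := by omega
  have e2 : ℓ = w2' := by omega
  have hcard : w1 * h1 + w2 * h2 = w1' * h1' + w2' * h2' := by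
    rw [← M.card, ← M'.card]
  -- count the points of period d
  have hQ : (w2 - w1) * h2 ≤ w1' * h1' := by
    rw [← M'.card_a, ← e1]
    have : (((Finset.range (w2 - w1)) ×ˢ (Finset.range h2)).image
        (fun p => b (((w1 + p.1 : ℕ) : ℤ) + τ - Phi κ m (h2 - p.2)) p.2)).card
        = (w2 - w1) * h2 := by
      rw [Finset.card_image_of_injOn, Finset.card_product, Finset.card_range, Finset.card_range]
      rintro ⟨i, j⟩ hij ⟨i', j'⟩ hij' he
      simp only [Finset.coe_product, Finset.coe_range, Set.mem_prod, Set.mem_Iio] at hij hij'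
      simp only at he
      rw [M.b_inj _ _ _ _ hij.2 hij'.2] at he
      obtain ⟨rfl, hc⟩ := he
      have h3 := hij.1
      have h4 := hij'.1
      have hc' : (w2 : ℤ) ∣ (i : ℤ) - i' := by
        convert hc using 1
        push_cast; ring
      have h5 := eq_of_dvd_sub hc' (by omega) (by omega)
      have : i = i' := by omega
      rw [this]
    rw [← this]
    apply Finset.card_le_card
    intro y hy
    simp only [Finset.mem_image, Finset.mem_product, Finset.mem_range, Prod.exists] at hy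
    obtain ⟨i, j, ⟨hi, hj⟩, rfl⟩ := hy
    simp only [Finset.mem_filter, Finset.mem_univ, true_and]
    exact hq (w1 + i) j (by omega) (by omega) hj
  have hmin' := hmin _ _ hY _ _ _ _ _ _ _ _ M'
  rw [← e1] at hmin' hQ
  rw [← e1, ← e2] at hcard
  obtain ⟨hle1, hle2⟩ := key_arith hw1 hd hw12 hh2 hcard hQ hmin'
  have heq : m * ℓ = h1 + h2 := by
    apply le_antisymm hle2
    rw [mul_comm]; exact hℓm
  have hcop := M.coprime (G.prim _ _ H)
  have hm1 : m = 1 := by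
    have h3 : m ∣ h1 + h2 := ⟨ℓ, heq.symm⟩
    have h4 : m ∣ h2 := ⟨d, hh2⟩
    have h5 : m ∣ h1 := (Nat.dvd_add_left h4).1 h3
    have h6 : m ∣ Nat.gcd h1 h2 := Nat.dvd_gcd h5 h4
    rw [hcop] at h6
    exact Nat.dvd_one.1 h6
  rw [hm1, one_mul] at hh2 heq
  have hXℓ' : F h v κ m ℓ (a 0 0) = a 0 0 := by
    have : ℓ * m = ℓ := by rw [hm1, mul_one]
    rw [this] at hXℓ; exact hXℓ
  rw [← heq, hXℓ'] at hc2
  refine ⟨κ, by rw [hτ, hh2], ?_, ?_⟩
  · have h3 := ((M.a_inj _ _ _ _ hh1 hh1).1 hc2).2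
    have h4 : Phi κ m h1 = κ * h1 := by
      unfold Phi; rw [hm1, Nat.div_one]; push_cast; ring
    rw [zero_sub, dvd_neg, h4] at h3
    exact Int.dvd_of_emod_eq_zero (Int.eq_zero_of_dvd_of_nonneg_of_lt
      (Int.emod_nonneg _ (by omega)) (Int.emod_lt_of_pos _ (by omega)) h3)
  · have hh2w : h2' = w1 := by
      apply le_antisymm
      · rw [heq, mul_comm w1] at hle1
        exact Nat.le_of_mul_le_mul_left hle1 (by omega)
      · rw [← hh2, mul_comm w1] at hmin'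
        exact Nat.le_of_mul_le_mul_left hmin' hh2p
    have hw1h : h1' = w2 - w1 := by
      rw [← hh2, heq, hh2w] at hcard
      exact key_arith2 hw12 hh2p hcard
    refine ⟨X, Y, t1', t2', a', b', hY, ?_⟩
    rw [← e1, ← e2, heq, hh2w, hw1h, ← hh2] at M'
    exact M'

omit [Fintype Ω] [DecidableEq Ω] in
theorem Model.shift {h v : Perm Ω} {w1 h1 : ℕ} {t1 : ℤ} {w2 h2 : ℕ} {t2 : ℤ} {a b : ℤ → ℕ → Ω}
    (M : Model h v w1 h1 t1 w2 h2 t2 a b) (k : ℤ) :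
    Model h v w1 h1 t1 w2 h2 (t2 + k * w2) a b := by
  have e : ∀ i : ℤ, (i - (t2 + k * w2)) % w2 = (i - t2) % w2 := by
    intro i
    rw [show i - (t2 + k * w2) = (i - t2) + (-k) * w2 by ring, Int.add_mul_emod_self_right]
  refine ⟨M.w1_pos, M.h1_pos, M.h2_pos, M.w12, M.ha, M.hb, M.va, M.va_top, M.vb, ?_, ?_,
    M.a_inj, M.b_inj, M.ab, M.cover⟩
  · intro i j hj hlt
    rw [e] at hlt ⊢
    exact M.vb_top_lt i j hj hlt
  · intro i j hj hlt
    rw [e] at hlt ⊢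
    exact M.vb_top_ge i j hj hlt

omit [Fintype Ω] [DecidableEq Ω] in
theorem Model.exists_nat_shift {h v : Perm Ω} {w1 h1 : ℕ} {t1 : ℤ} {w2 h2 : ℕ} {t2 : ℤ}
    {a b : ℤ → ℕ → Ω} (M : Model h v w1 h1 t1 w2 h2 t2 a b) :
    ∃ τ : ℕ, Model h v w1 h1 t1 w2 h2 (τ : ℤ) a b := by
  have hw2 : (0 : ℤ) < w2 := by have := M.w1_pos; have := M.w12; omega
  have h0 := Int.emod_nonneg t2 hw2.ne'
  refine ⟨(t2 % w2).toNat, ?_⟩
  rw [Int.toNat_of_nonneg h0]
  have := M.shift (-(t2 / w2))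
  rw [Int.emod_def]
  convert this using 1
  ring

/-- consequences of the key lemma for the two twists `t2` and `t2 + w2` -/
theorem GoodSet.key2 (G : GoodSet O) {h v : Perm Ω} (H : (h, v) ∈ O) {w1 h1 : ℕ} {t1 : ℤ}
    {w2 h2 : ℕ} {t2 : ℤ} {a b : ℤ → ℕ → Ω} (M : Model h v w1 h1 t1 w2 h2 t2 a b)
    (hmin : IsMin O (w1 * h2)) :
    (∃ e : ℕ, w2 = e * h2 ∧ w1 ∣ e * h1) ∧
      ∃ (h' v' : Perm Ω) (t1' t2' : ℤ) (a' b' : ℤ → ℕ → Ω), (h', v') ∈ O ∧
        Model h' v' h2 (w2 - w1) t1' (h1 + h2) w1 t2' a' b' := by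
  obtain ⟨τ, Mτ⟩ := M.exists_nat_shift
  have Mτ' : Model h v w1 h1 t1 w2 h2 ((τ + w2 : ℕ) : ℤ) a b := by
    have := Mτ.shift 1
    rw [one_mul] at this
    push_cast
    exact this
  obtain ⟨κ, hκ, hd, hM⟩ := G.key H Mτ hmin
  obtain ⟨κ', hκ', hd', _⟩ := G.key H Mτ' hmin
  refine ⟨⟨κ' - κ, ?_, ?_⟩, hM⟩
  · rw [Nat.sub_mul, ← hκ', ← hκ]; omega
  · have hle : κ ≤ κ' := by
      by_contra hcon
      push Not at hcon
      have : κ' * h2 ≤ κ * h2 := Nat.mul_le_mul_right _ hcon.le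
      have := M.w1_pos
      have := M.w12
      omega
    have h3 := dvd_sub hd' hd
    have h4 : (κ' : ℤ) * h1 - t1 - (κ * h1 - t1) = ((κ' - κ : ℕ) * h1 : ℕ) := by
      push_cast [Nat.cast_sub hle]; ring
    rw [h4] at h3
    exact_mod_cast h3

/-- every nonempty good set contains an L-shaped pair `(p, q)` and its mirror -/
theorem GoodSet.exists_L (G : GoodSet O) {h v : Perm Ω} (H : (h, v) ∈ O) :
    ∃ p q : ℕ, 2 ≤ p ∧ 2 ≤ q ∧ Fintype.card Ω + 1 = p + q ∧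
      (∃ (h' v' : Perm Ω) (t1' t2' : ℤ) (a' b' : ℤ → ℕ → Ω), (h', v') ∈ O ∧
        Model h' v' 1 (q - 1) t1' p 1 t2' a' b') ∧
      (∃ (h' v' : Perm Ω) (t1' t2' : ℤ) (a' b' : ℤ → ℕ → Ω), (h', v') ∈ O ∧
        Model h' v' 1 (p - 1) t1' q 1 t2' a' b') := by
  classical
  let P : ℕ → Prop := fun c => ∃ (h' v' : Perm Ω), (h', v') ∈ O ∧
    ∃ (w1 h1 : ℕ) (t1 : ℤ) (w2 h2 : ℕ) (t2 : ℤ) (a b : ℤ → ℕ → Ω),
      Model h' v' w1 h1 t1 w2 h2 t2 a b ∧ c = w1 * h2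
  have hex : ∃ c, P c := by
    obtain ⟨h', v', H', hnu⟩ := G.exists_nonuniform H
    obtain ⟨w1, h1, t1, w2, h2, t2, a, b, M⟩ := G.exists_model H' hnu
    exact ⟨w1 * h2, h', v', H', w1, h1, t1, w2, h2, t2, a, b, M, rfl⟩
  obtain ⟨h', v', H', w1, h1, t1, w2, h2, t2, a, b, M, hc⟩ := Nat.find_spec hex
  have hmin : IsMin O (w1 * h2) := by
    rw [← hc]
    intro h'' v'' H'' w1' h1' t1' w2' h2' t2' a' b' M'
    exact Nat.find_min' hex ⟨h'', v'', H'', w1', h1', t1', w2', h2', t2', a', b', M', rfl⟩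
  obtain ⟨⟨e, he, hdvd⟩, h'', v'', t1', t2', a', b', H'', M'⟩ := G.key2 H' M hmin
  have hmin' : IsMin O (h2 * w1) := by rw [mul_comm]; exact hmin
  obtain ⟨⟨e', he', hdvd'⟩, _⟩ := G.key2 H'' M' hmin'
  have hw1 := M.w1_pos
  have hw12 := M.w12
  have hh1 := M.h1_pos
  have hh2 := M.h2_pos
  have c1 : Nat.Coprime h1 h2 := M.coprime (G.prim _ _ H')
  have c2 : Nat.Coprime (w2 - w1) w1 := M'.coprime (G.prim _ _ H'')
  have c3 : Nat.Coprime w1 w2 := by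
    obtain ⟨f, hf⟩ : ∃ f, w2 = f + w1 := ⟨w2 - w1, by omega⟩
    subst hf
    rw [Nat.add_sub_cancel] at c2
    rw [Nat.coprime_add_self_right]
    exact c2.symm
  -- w1 ∣ h1
  have d1 : w1 ∣ h1 := by
    have h3 : Nat.Coprime w1 e := Nat.Coprime.coprime_dvd_right ⟨h2, he⟩ c3
    exact h3.dvd_of_dvd_mul_left hdvd
  have d2 : w1 ∣ h2 := by
    have h3 : w1 ∣ h1 + h2 := ⟨e', by rw [he']; ring⟩
    exact (Nat.dvd_add_right d1).1 h3
  have d3 : h2 ∣ w2 - w1 := by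
    have h3 : Nat.Coprime h2 (h1 + h2) := by
      rw [Nat.coprime_add_self_right]; exact c1.symm
    have h4 : Nat.Coprime h2 e' := Nat.Coprime.coprime_dvd_right ⟨w1, he'⟩ h3
    exact h4.dvd_of_dvd_mul_left hdvd'
  have d4 : h2 ∣ w1 := by
    have h3 : h2 ∣ w2 := ⟨e, by rw [he]; ring⟩
    have h4 : w2 = (w2 - w1) + w1 := by omega
    rw [h4] at h3
    exact (Nat.dvd_add_right d3).1 h3
  have e1 : w1 = h2 := Nat.dvd_antisymm d2 d4
  have e2 : w1 = 1 := by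
    have h3 : w1 ∣ w2 := by
      rw [e1]; exact ⟨e, by rw [he]; ring⟩
    have h4 : w1 ∣ Nat.gcd w1 w2 := Nat.dvd_gcd dvd_rfl h3
    rw [c3] at h4
    exact Nat.dvd_one.1 h4
  have e3 : h2 = 1 := by rw [← e1, e2]
  subst e3
  rw [e2] at M M'
  have hcard := M.card
  refine ⟨w2, h1 + 1, by omega, by omega, by omega, ?_, ?_⟩
  · exact ⟨h', v', t1, t2, a, b, H', by rw [Nat.add_sub_cancel]; exact M⟩
  · exact ⟨h'', v'', t1', t2', a', b', H'', M'⟩

end good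

end Pool.Agent.Origami
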