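import Pool.Agent.Origami.Rep

/-!
# L-shaped pairs

Helper file for `MP_7a6c3d_gt`.
-/

namespace Pool.Agent.Origami

open Equiv Equiv.Perm

variable {Ω : Type*}

/-- the horizontal permutation of the L-shaped origami with labels `0, …, n-1` -/
def hN (p i : ℕ) : ℕ := if i + 1 < p then i + 1 else if i + 1 = p then 0 else i

/-- the vertical permutation of the L-shaped origami with labels `0, …, n-1` -/
def vN (p n i : ℕ) : ℕ := if i = 0 then p else if i < p then i else if i + 1 < n then i + 1 else 0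

structure LPair (h v : Perm Ω) (p q : ℕ) (f : ℕ → Ω) : Prop where
  hp : 2 ≤ p
  hq : 2 ≤ q
  h_eq : ∀ i < p + q - 1, h (f i) = f (hN p i)
  v_eq : ∀ i < p + q - 1, v (f i) = f (vN p (p + q - 1) i)
  inj : ∀ i j, i < p + q - 1 → j < p + q - 1 → f i = f j → i = j
  surj : ∀ x, ∃ i < p + q - 1, f i = x

theorem Model.lpair {h v : Perm Ω} {p q : ℕ} {t1 t2 : ℤ} {a b : ℤ → ℕ → Ω}
    (M : Model h v 1 (q - 1) t1 p 1 t2 a b) :
    LPair h (v * h ^ t2) p q (fun i => if i < p then b i 0 else a 0 (i - p)) := by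
  have hp : 2 ≤ p := M.w12
  have hq : 2 ≤ q := by have := M.h1_pos; omega
  have ap : ∀ (i : ℤ) (j : ℕ), j < q - 1 → a i j = a 0 j := by
    intro i j hj
    rw [M.a_inj _ _ _ _ hj hj]
    exact ⟨rfl, by simp⟩
  refine ⟨hp, hq, ?_, ?_, ?_, ?_⟩
  · intro i hi
    unfold hN
    by_cases h1 : i + 1 < p
    · simp only [h1, show i < p by omega, if_true]
      rw [M.hb]; push_cast; rfl
    · by_cases h2 : i + 1 = p
      · rw [if_neg h1, if_pos h2]
        simp only [show i < p by omega, if_true, show 0 < p by omega]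
        rw [M.hb, M.b_inj _ _ _ _ (by omega) (by omega)]
        refine ⟨rfl, ?_⟩
        rw [← h2]; push_cast; simp
      · simp only [h1, h2, show ¬ i < p by omega, if_false]
        rw [M.ha, ap _ _ (by omega)]
  · intro i hi
    unfold vN
    by_cases h0 : i = 0
    · subst h0
      simp only [if_true, show 0 < p by omega, Perm.mul_apply, lt_irrefl, if_false]
      rw [M.hb_zpow]
      have e : (((0 : ℕ) : ℤ) + t2 - t2) % p = 0 := by simp
      rw [M.vb_top_lt _ _ rfl (by rw [e]; norm_num), e]
      simp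
    · by_cases h1 : i < p
      · simp only [h0, h1, if_true, if_false, Perm.mul_apply]
        rw [M.hb_zpow]
        have e : ((i : ℤ) + t2 - t2) % p = i := by
          rw [add_sub_cancel_right]
          exact Int.emod_eq_of_lt (by omega) (by exact_mod_cast h1)
        rw [M.vb_top_ge _ _ rfl (by rw [e]; push_cast; omega), e]
      · by_cases h2 : i + 1 < p + q - 1
        · simp only [h0, h1, h2, if_true, if_false, Perm.mul_apply,
            show ¬ i + 1 < p by omega]
          rw [M.ha_zpow, M.va _ _ (by omega), ap _ _ (by omega)]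
          congr 1; omega
        · simp only [h0, h1, h2, if_true, if_false, Perm.mul_apply, show 0 < p by omega]
          rw [M.ha_zpow, M.va_top _ _ (by omega)]
          simp
  · intro i j hi hj
    by_cases h1 : i < p
    · by_cases h2 : j < p
      · simp only [h1, h2, if_true]
        intro he
        rw [M.b_inj _ _ _ _ (by omega) (by omega)] at he
        have := eq_of_dvd_sub he.2 (by omega) (by omega)
        omega
      · simp only [h1, h2, if_true, if_false]
        intro he
        exact absurd he.symm (M.ab _ _ _ _ (by omega) (by omega))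
    · by_cases h2 : j < p
      · simp only [h1, h2, if_true, if_false]
        intro he
        exact absurd he (M.ab _ _ _ _ (by omega) (by omega))
      · simp only [h1, h2, if_false]
        intro he
        rw [M.a_inj _ _ _ _ (by omega) (by omega)] at he
        omega
  · intro x
    rcases M.cover x with ⟨i, j, hj, rfl⟩ | ⟨i, j, hj, rfl⟩
    · refine ⟨p + j, by omega, ?_⟩
      simp only [show ¬ p + j < p by omega, if_false]
      rw [Nat.add_sub_cancel_left, ap i j hj]
    · obtain ⟨r, hr, hrp⟩ := emod_toNat_lt (show 0 < p by omega) i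
      refine ⟨r, by omega, ?_⟩
      simp only [hrp, if_true]
      have : j = 0 := by omega
      subst this
      rw [M.b_inj _ _ _ _ (by omega) (by omega)]
      refine ⟨rfl, ?_⟩
      rw [hr, ← dvd_neg, neg_sub]
      exact Int.dvd_self_sub_emod

section lpair

variable {h v : Perm Ω} {p q : ℕ} {f : ℕ → Ω}

theorem hN_lt {p q i : ℕ} (hq : 2 ≤ q) (hi : i < p + q - 1) : hN p i < p + q - 1 := by
  unfold hN; split_ifs <;> first | omega | contradiction

theorem vN_lt {p q i : ℕ} (hq : 2 ≤ q) (hi : i < p + q - 1) :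
    vN p (p + q - 1) i < p + q - 1 := by
  unfold vN; split_ifs <;> first | omega | contradiction

/-- any two L-shaped pairs with the same parameters are simultaneously conjugate -/
theorem LPair.conj (L : LPair h v p q f) {h' v' : Perm Ω} {f' : ℕ → Ω}
    (L' : LPair h' v' p q f') : ∃ g : Perm Ω, h' = g * h * g⁻¹ ∧ v' = g * v * g⁻¹ := by
  let e : Fin (p + q - 1) ≃ Ω := Equiv.ofBijective (fun i => f i)
    ⟨fun i j hij => Fin.ext (L.inj _ _ i.2 j.2 hij), fun x => by
      obtain ⟨i, hi, rfl⟩ := L.surj x; exact ⟨⟨i, hi⟩, rfl⟩⟩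
  let e' : Fin (p + q - 1) ≃ Ω := Equiv.ofBijective (fun i => f' i)
    ⟨fun i j hij => Fin.ext (L'.inj _ _ i.2 j.2 hij), fun x => by
      obtain ⟨i, hi, rfl⟩ := L'.surj x; exact ⟨⟨i, hi⟩, rfl⟩⟩
  have he : ∀ i (hi : i < p + q - 1), e ⟨i, hi⟩ = f i := fun i hi => rfl
  have he' : ∀ i (hi : i < p + q - 1), e' ⟨i, hi⟩ = f' i := fun i hi => rfl
  let g : Perm Ω := e.symm.trans e'
  have hg : ∀ i, i < p + q - 1 → g (f i) = f' i := by
    intro i hi
    change e' (e.symm (f i)) = f' i
    rw [← he i hi, Equiv.symm_apply_apply, he']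
  have hg' : ∀ i, i < p + q - 1 → g⁻¹ (f' i) = f i := by
    intro i hi
    rw [Perm.inv_eq_iff_eq, hg i hi]
  refine ⟨g, ?_, ?_⟩
  · ext x
    obtain ⟨i, hi, rfl⟩ := L'.surj x
    rw [Perm.mul_apply, Perm.mul_apply, hg' i hi, L.h_eq i hi, hg _ (hN_lt L.hq hi), L'.h_eq i hi]
  · ext x
    obtain ⟨i, hi, rfl⟩ := L'.surj x
    rw [Perm.mul_apply, Perm.mul_apply, hg' i hi, L.v_eq i hi, hg _ (vN_lt L.hq hi), L'.v_eq i hi]

/-- the hyperelliptic involution in labels -/
def sN (p n i : ℕ) : ℕ := if i = 0 then 0 else if i < p then p - i else n + p - 1 - i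

theorem LPair.neg (L : LPair h v p q f) :
    LPair h⁻¹ v⁻¹ p q (fun i => f (sN p (p + q - 1) i)) := by
  have hp := L.hp
  have hq := L.hq
  have slt : ∀ i, i < p + q - 1 → sN p (p + q - 1) i < p + q - 1 := by
    intro i hi; unfold sN; split_ifs <;> first | omega | contradiction
  have ss : ∀ i, i < p + q - 1 → sN p (p + q - 1) (sN p (p + q - 1) i) = i := by
    intro i hi; unfold sN; split_ifs <;> first | omega | contradiction
  refine ⟨hp, hq, ?_, ?_, ?_, ?_⟩
  · intro i hi
    have e : hN p (sN p (p + q - 1) (hN p i)) = sN p (p + q - 1) i := by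
      unfold sN hN; split_ifs <;> first | omega | contradiction
    rw [Perm.inv_eq_iff_eq, L.h_eq _ (slt _ (hN_lt hq hi)), e]
  · intro i hi
    have e : vN p (p + q - 1) (sN p (p + q - 1) (vN p (p + q - 1) i)) = sN p (p + q - 1) i := by
      unfold sN vN; split_ifs <;> first | omega | contradiction
    rw [Perm.inv_eq_iff_eq, L.v_eq _ (slt _ (vN_lt hq hi)), e]
  · intro i j hi hj he
    have := L.inj _ _ (slt i hi) (slt j hj) he
    rw [← ss i hi, ← ss j hj, this]
  · intro x
    obtain ⟨i, hi, rfl⟩ := L.surj x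
    exact ⟨_, slt i hi, by simp only [ss i hi]⟩

/-- `v h` in labels -/
def XN (n i : ℕ) : ℕ := if i + 1 < n then i + 1 else 0

/-- `v h²` in labels -/
def YN (p n i : ℕ) : ℕ :=
  if i + 2 < p then i + 2 else if i + 2 = p then p else if i + 1 = p then 1 else
    if i + 1 < n then i + 1 else 0

/-- `v h³` in labels -/
def ZN (p n i : ℕ) : ℕ :=
  if i + 3 < p then i + 3 else if i + 3 = p then p else if i + 2 = p then 1 else
    if i + 1 = p then 2 else if i + 1 < n then i + 1 else 0

theorem XN_lt {n i : ℕ} (hi : i < n) : XN n i < n := by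
  unfold XN; split_ifs <;> first | omega | contradiction

theorem YN_lt {p n i : ℕ} (hp : 2 ≤ p) (hpn : p < n) (hi : i < n) : YN p n i < n := by
  unfold YN; split_ifs <;> first | omega | contradiction

theorem LPair.X_eq (L : LPair h v p q f) (i : ℕ) (hi : i < p + q - 1) :
    (v * h) (f i) = f (XN (p + q - 1) i) := by
  have hp := L.hp
  have hq := L.hq
  rw [Perm.mul_apply, L.h_eq i hi, L.v_eq _ (hN_lt hq hi)]
  congr 1
  unfold vN hN XN
  split_ifs <;> first | omega | contradiction

theorem LPair.Y_eq (L : LPair h v p q f) (i : ℕ) (hi : i < p + q - 1) :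
    (v * h * h) (f i) = f (YN p (p + q - 1) i) := by
  have hp := L.hp
  have hq := L.hq
  rw [Perm.mul_apply, L.h_eq i hi, L.X_eq _ (hN_lt hq hi)]
  congr 1
  unfold hN XN YN
  split_ifs <;> first | omega | contradiction

theorem LPair.Z_eq (L : LPair h v p q f) (hp3 : 3 ≤ p) (i : ℕ) (hi : i < p + q - 1) :
    (v * h * h * h) (f i) = f (ZN p (p + q - 1) i) := by
  have hq := L.hq
  rw [Perm.mul_apply, L.h_eq i hi, L.Y_eq _ (hN_lt hq hi)]
  congr 1
  unfold hN YN ZN
  split_ifs <;> first | omega | contradiction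

/-- absence of fixed points in labels -/
theorem LPair.no_fix (L : LPair h v p q f) (w w' : Perm Ω) (N N' : ℕ → ℕ)
    (hw : ∀ i < p + q - 1, w (f i) = f (N i)) (hw' : ∀ i < p + q - 1, w' (f i) = f (N' i))
    (hN : ∀ i < p + q - 1, N i < p + q - 1) (hN' : ∀ i < p + q - 1, N' i < p + q - 1)
    (hne : ∀ i < p + q - 1, N i ≠ N' i) : ¬ ∃ x, w x = w' x := by
  rintro ⟨x, hx⟩
  obtain ⟨i, hi, rfl⟩ := L.surj x
  rw [hw i hi, hw' i hi] at hx
  exact hne i hi (L.inj _ _ (hN i hi) (hN' i hi) hx)

end lpair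

end Pool.Agent.Origami
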