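import Pool.Agent.Origami.Structure

/-!
# The two-cylinder model

Helper file for `MP_7a6c3d_gt`.
-/

namespace Pool.Agent.Origami

open Equiv Equiv.Perm

variable {Ω : Type*}

/-- two-cylinder model: narrow cylinder `a` (circumference `w1`, height `h1`, twist `t1`), wide
cylinder `b` (circumference `w2`, height `h2`, twist `t2`). -/
structure Model (h v : Perm Ω) (w1 h1 : ℕ) (t1 : ℤ) (w2 h2 : ℕ) (t2 : ℤ)
    (a b : ℤ → ℕ → Ω) : Prop where
  w1_pos : 0 < w1
  h1_pos : 0 < h1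
  h2_pos : 0 < h2
  w12 : w1 < w2
  ha : ∀ i j, h (a i j) = a (i + 1) j
  hb : ∀ i j, h (b i j) = b (i + 1) j
  va : ∀ i j, j + 1 < h1 → v (a i j) = a i (j + 1)
  va_top : ∀ i j, j + 1 = h1 → v (a i j) = b ((i - t1) % w1) 0
  vb : ∀ i j, j + 1 < h2 → v (b i j) = b i (j + 1)
  vb_top_lt : ∀ i j, j + 1 = h2 → (i - t2) % w2 < w1 → v (b i j) = a ((i - t2) % w2) 0
  vb_top_ge : ∀ i j, j + 1 = h2 → (w1 : ℤ) ≤ (i - t2) % w2 → v (b i j) = b ((i - t2) % w2) 0
  a_inj : ∀ i j i' j', j < h1 → j' < h1 → (a i j = a i' j' ↔ (j = j' ∧ (w1 : ℤ) ∣ i - i'))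
  b_inj : ∀ i j i' j', j < h2 → j' < h2 → (b i j = b i' j' ↔ (j = j' ∧ (w2 : ℤ) ∣ i - i'))
  ab : ∀ i j i' j', j < h1 → j' < h2 → a i j ≠ b i' j'
  cover : ∀ x, (∃ i j, j < h1 ∧ x = a i j) ∨ (∃ i j, j < h2 ∧ x = b i j)

section climb

variable {h v : Perm Ω} {s1 s2 s3 : Ω}

/-- climbing up from the row of `x` -/
theorem climb (S : Sg h v s1 s2 s3) (x : Ω) (J : ℕ)
    (H : ∀ j < J, NS h s1 s2 s3 ((v ^ j) x)) :
    (∀ j ≤ J, ∀ i : ℤ, (v ^ j) ((h ^ i) x) = (h ^ i) ((v ^ j) x)) ∧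
    (∀ j ≤ J, per h ((v ^ j) x) = per h x) := by
  constructor
  · intro j
    induction j with
    | zero => intro _ i; simp
    | succ j ih =>
      intro hj i
      have h1 := ih (by omega) i
      rw [pow_succ', Perm.mul_apply, h1, S.comm (H j (by omega)), Perm.mul_apply]
  · intro j
    induction j with
    | zero => intro _; simp
    | succ j ih =>
      intro hj
      rw [pow_succ', Perm.mul_apply, S.per_comm (H j (by omega)), ih (by omega)]

theorem climb_exists [Finite Ω] (S : Sg h v s1 s2 s3) (s x : Ω) (hs : s = s1 ∨ s = s2 ∨ s = s3)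
    (hx : x = h (v s)) : ∃ j, ¬ NS h s1 s2 s3 ((v ^ j) x) := by
  by_contra hcon
  push Not at hcon
  have hN := orderOf_pos v
  have h1 := hcon (orderOf v - 1)
  have h2 := S.comm h1 (-1)
  rw [apply_pow' v, Nat.sub_add_cancel hN, pow_orderOf_eq_one,
    Perm.one_apply, hx, zpow_neg_one] at h2
  have h3 : h⁻¹ (h (v s)) = v s := by simp
  rw [h3] at h2
  have h4 := Equiv.injective v h2
  obtain ⟨a1, a2, a3⟩ := h1 (-1)
  rw [hx, zpow_neg_one] at a1 a2 a3
  rcases hs with rfl | rfl | rfl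
  · exact a1 h4
  · exact a2 h4
  · exact a3 h4

end climb

theorem emod_toNat_lt {w : ℕ} (hw : 0 < w) (k : ℤ) :
    ∃ r : ℕ, (r : ℤ) = k % w ∧ r < w := by
  have h0 : (0 : ℤ) < w := by exact_mod_cast hw
  have h1 := Int.emod_nonneg k h0.ne'
  have h2 := Int.emod_lt_of_pos k h0
  exact ⟨(k % w).toNat, by omega, by omega⟩

theorem model_of_caseC [Fintype Ω] {h v : Perm Ω} {s1 s2 s3 : Ω} {w c : ℕ}
    (C : CaseC h v s1 s2 s3 w c)
    (ht : MulAction.IsPretransitive (Subgroup.closure {h, v}) Ω) :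
    ∃ (h1 : ℕ) (t1 : ℤ) (h2 : ℕ) (t2 : ℤ) (a b : ℤ → ℕ → Ω),
      Model h v w h1 t1 (w + c) h2 t2 a b := by
  classical
  have S := C.sg
  have hw := C.w_pos
  have hc := C.c_pos
  set a0 := h (v s3) with ha0
  set b0 := h (v s2) with hb0
  have ha0' : a0 = v (h s2) := S.e2.symm
  have hb0' : b0 = v (h s1) := S.e1.symm
  have hpa0 : per h a0 = w := by rw [ha0, per_apply, C.perv3]
  have hpb0 : per h b0 = w + c := by rw [hb0, per_apply, C.perv2]
  have exA := climb_exists S s3 a0 (Or.inr (Or.inr rfl)) ha0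
  have exB := climb_exists S s2 b0 (Or.inr (Or.inl rfl)) hb0
  set J1 := Nat.find exA with hJ1
  set J2 := Nat.find exB with hJ2
  have A1 : ∀ j < J1, NS h s1 s2 s3 ((v ^ j) a0) := fun j hj => by
    have := Nat.find_min exA hj; push Not at this; exact this
  have B1 : ∀ j < J2, NS h s1 s2 s3 ((v ^ j) b0) := fun j hj => by
    have := Nat.find_min exB hj; push Not at this; exact this
  have A2 : ¬ NS h s1 s2 s3 ((v ^ J1) a0) := Nat.find_spec exA
  have B2 : ¬ NS h s1 s2 s3 ((v ^ J2) b0) := Nat.find_spec exB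
  obtain ⟨Ac, Ap⟩ := climb S a0 J1 A1
  obtain ⟨Bc, Bp⟩ := climb S b0 J2 B1
  -- the top rows
  obtain ⟨i1, hi1⟩ : ∃ i : ℤ, (h ^ i) ((v ^ J1) a0) = s1 := by
    unfold NS at A2
    push Not at A2
    obtain ⟨i, hi⟩ := A2
    have hp : per h ((h ^ i) ((v ^ J1) a0)) = w := by rw [per_zpow, Ap J1 le_rfl, hpa0]
    refine ⟨i, ?_⟩
    by_contra hn1
    by_cases hn2 : (h ^ i) ((v ^ J1) a0) = s2
    · rw [hn2, C.per2] at hp; omega
    · have hn3 := hi hn1 hn2
      rw [hn3, C.per3] at hp; omega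
  obtain ⟨i2, hi2⟩ : ∃ i : ℤ, (h ^ i) ((v ^ J2) b0) = s2 := by
    unfold NS at B2
    push Not at B2
    obtain ⟨i, hi⟩ := B2
    have hp : per h ((h ^ i) ((v ^ J2) b0)) = w + c := by rw [per_zpow, Bp J2 le_rfl, hpb0]
    by_cases hn2 : (h ^ i) ((v ^ J2) b0) = s2
    · exact ⟨i, hn2⟩
    · by_cases hn1 : (h ^ i) ((v ^ J2) b0) = s1
      · rw [hn1, C.per1] at hp; omega
      · have hn3 := hi hn1 hn2
        refine ⟨c + i, ?_⟩
        rw [zpow_add, Perm.mul_apply, hn3, zpow_natCast, C.h32]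
  -- useful: rows at the bottom in terms of arcs
  have botA : ∀ r : ℕ, r < w → v ((h ^ (r + 1)) s2) = (h ^ (r : ℤ)) a0 := by
    intro r hr
    rw [C.arc2 (r + 1) (by omega) (by omega), pow_succ, Perm.mul_apply, ← ha0, zpow_natCast]
  have botB1 : ∀ r : ℕ, r < w → v ((h ^ (r + 1)) s1) = (h ^ (r : ℤ)) b0 := by
    intro r hr
    rw [C.arc1 (r + 1) (by omega) (by omega), pow_succ, Perm.mul_apply, ← hb0, zpow_natCast]
  have botB3 : ∀ r : ℕ, w ≤ r → r < w + c → v ((h ^ (r - w + 1)) s3) = (h ^ (r : ℤ)) b0 := by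
    intro r hr hr'
    rw [C.arc3 (r - w + 1) (by omega) (by omega), C.v1, ← Perm.mul_apply, ← pow_add,
      show r - w + 1 + w = r + 1 by omega, pow_succ, Perm.mul_apply, ← hb0, zpow_natCast]
  have botB2 : ∀ r : ℕ, w ≤ r → r < w + c → v ((h ^ (r + 1)) s2) = (h ^ (r : ℤ)) b0 := by
    intro r hr hr'
    rw [← botB3 r hr hr', ← C.h23, nn, show r - w + 1 + w = r + 1 by omega]
  set a : ℤ → ℕ → Ω := fun i j => (h ^ i) ((v ^ j) a0) with ha
  set b : ℤ → ℕ → Ω := fun i j => (h ^ i) ((v ^ j) b0) with hb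
  have pa : ∀ i j, j ≤ J1 → per h (a i j) = w := fun i j hj => by
    simp only [ha]; rw [per_zpow, Ap j hj, hpa0]
  have pb : ∀ i j, j ≤ J2 → per h (b i j) = w + c := fun i j hj => by
    simp only [hb]; rw [per_zpow, Bp j hj, hpb0]
  have hva : ∀ i j, j < J1 → v (a i j) = a i (j + 1) := by
    intro i j hj
    simp only [ha]
    rw [S.comm (A1 j hj), pow_succ', Perm.mul_apply]
  have hvb : ∀ i j, j < J2 → v (b i j) = b i (j + 1) := by
    intro i j hj
    simp only [hb]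
    rw [S.comm (B1 j hj), pow_succ', Perm.mul_apply]
  -- the value of a at the top: a i J1 = h ^ (r+1) s1
  have topA : ∀ i : ℤ, ∀ r : ℕ, (r : ℤ) = (i - (i1 + 1)) % w → a i J1 = (h ^ (r + 1)) s1 := by
    intro i r hr
    simp only [ha]
    rw [← hi1, ← zpow_natCast h (r + 1), zz, zpow_eq_iff, Ap J1 le_rfl, hpa0]
    push_cast
    rw [hr]
    have : i - ((i - (i1 + 1)) % w + 1 + i1) = w * ((i - (i1 + 1)) / w) := by
      have := Int.emod_add_mul_ediv (i - (i1 + 1)) w
      linarith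
    rw [this]
    exact dvd_mul_right _ _
  have topB : ∀ i : ℤ, ∀ r : ℕ, (r : ℤ) = (i - (i2 + 1)) % (w + c : ℕ) →
      b i J2 = (h ^ (r + 1)) s2 := by
    intro i r hr
    simp only [hb]
    rw [← hi2, ← zpow_natCast h (r + 1), zz, zpow_eq_iff, Bp J2 le_rfl, hpb0]
    push_cast
    push_cast at hr
    rw [hr]
    have : i - ((i - (i2 + 1)) % (w + c) + 1 + i2) = (w + c) * ((i - (i2 + 1)) / (w + c)) := by
      have := Int.emod_add_mul_ediv (i - (i2 + 1)) (w + c)
      linarith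
    rw [this]
    exact dvd_mul_right _ _
  have hva_top : ∀ i : ℤ, v (a i J1) = b ((i - (i1 + 1)) % w) 0 := by
    intro i
    obtain ⟨r, hr, hrw⟩ := emod_toNat_lt hw (i - (i1 + 1))
    rw [topA i r hr, botB1 r hrw, hr]
    simp [hb]
  have hvb_lt : ∀ i : ℤ, (i - (i2 + 1)) % (w + c : ℕ) < w →
      v (b i J2) = a ((i - (i2 + 1)) % (w + c : ℕ)) 0 := by
    intro i hlt
    obtain ⟨r, hr, _⟩ := emod_toNat_lt (show 0 < w + c by omega) (i - (i2 + 1))
    rw [topB i r hr, botA r (by rw [← hr] at hlt; exact_mod_cast hlt), hr]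
    simp [ha]
  have hvb_ge : ∀ i : ℤ, (w : ℤ) ≤ (i - (i2 + 1)) % (w + c : ℕ) →
      v (b i J2) = b ((i - (i2 + 1)) % (w + c : ℕ)) 0 := by
    intro i hlt
    obtain ⟨r, hr, hrw⟩ := emod_toNat_lt (show 0 < w + c by omega) (i - (i2 + 1))
    rw [topB i r hr, botB2 r (by rw [← hr] at hlt; exact_mod_cast hlt) hrw, hr]
    simp [hb]
  -- injectivity
  have a_inj_lt : ∀ i i' : ℤ, ∀ j j' : ℕ, j < j' → j' ≤ J1 → a i j ≠ a i' j' := by
    intro i i' j j' hjj hj' he
    simp only [ha] at he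
    rw [← Ac j (by omega), ← Ac j' hj'] at he
    obtain ⟨d, rfl⟩ : ∃ d, j' = j + 1 + d := ⟨j' - j - 1, by omega⟩
    rw [pow_add, Perm.mul_apply, pow_succ, Perm.mul_apply] at he
    have he2 := Equiv.injective _ he
    obtain ⟨r, hr, hrw⟩ := emod_toNat_lt hw i
    have h3 : (h ^ i) a0 = (h ^ (r : ℤ)) a0 := by
      rw [hr, ← hpa0, zpow_emod]
    rw [h3, ← botA r hrw] at he2
    have he3 := Equiv.injective _ he2
    have h4 := congrArg (per h) he3
    rw [per_pow, C.per2, Ac d (by omega), per_zpow, Ap d (by omega), hpa0] at h4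
    omega
  have b_inj_lt : ∀ i i' : ℤ, ∀ j j' : ℕ, j < j' → j' ≤ J2 → b i j ≠ b i' j' := by
    intro i i' j j' hjj hj' he
    simp only [hb] at he
    rw [← Bc j (by omega), ← Bc j' hj'] at he
    obtain ⟨d, rfl⟩ : ∃ d, j' = j + 1 + d := ⟨j' - j - 1, by omega⟩
    rw [pow_add, Perm.mul_apply, pow_succ, Perm.mul_apply] at he
    have he2 := Equiv.injective _ he
    obtain ⟨r, hr, hrw⟩ := emod_toNat_lt (show 0 < w + c by omega) i
    have h3 : (h ^ i) b0 = (h ^ (r : ℤ)) b0 := by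
      rw [hr, ← hpb0, zpow_emod]
    rw [h3] at he2
    rcases lt_or_ge r w with hrw' | hrw'
    · rw [← botB1 r hrw'] at he2
      have he3 := Equiv.injective _ he2
      have h4 := congrArg (per h) he3
      rw [per_pow, C.per1, Bc d (by omega), per_zpow, Bp d (by omega), hpb0] at h4
      omega
    · rw [← botB3 r hrw' hrw] at he2
      have he3 := Equiv.injective _ he2
      rw [Bc d (by omega)] at he3
      have h5 := (B1 d (by omega) (-(r - w + 1 : ℕ) + i')).2.2
      apply h5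
      rw [zpow_add, Perm.mul_apply, ← he3, zpow_neg, zpow_natCast, Perm.inv_eq_iff_eq]
  have hab : ∀ i j i' j', j ≤ J1 → j' ≤ J2 → a i j ≠ b i' j' := by
    intro i j i' j' hj hj' he
    have := congrArg (per h) he
    rw [pa i j hj, pb i' j' hj'] at this
    omega
  have ha1 : ∀ i j, h (a i j) = a (i + 1) j := by
    intro i j
    simp only [ha]
    rw [add_comm, zpow_add, zpow_one, Perm.mul_apply]
  have hb1 : ∀ i j, h (b i j) = b (i + 1) j := by
    intro i j
    simp only [hb]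
    rw [add_comm, zpow_add, zpow_one, Perm.mul_apply]
  refine ⟨J1 + 1, i1 + 1, J2 + 1, i2 + 1, a, b, hw, by omega, by omega, by omega, ha1, hb1,
    fun i j hj => hva i j (by omega), fun i j hj => ?_, fun i j hj => hvb i j (by omega),
    fun i j hj => ?_, fun i j hj => ?_, ?_, ?_, fun i j i' j' hj hj' =>
      hab i j i' j' (by omega) (by omega), ?_⟩
  · obtain rfl : j = J1 := by omega
    exact hva_top i
  · obtain rfl : j = J2 := by omega
    exact hvb_lt i
  · obtain rfl : j = J2 := by omega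
    exact hvb_ge i
  · intro i j i' j' hj hj'
    constructor
    · intro he
      rcases lt_trichotomy j j' with h0 | h0 | h0
      · exact absurd he (a_inj_lt i i' j j' h0 (by omega))
      · refine ⟨h0, ?_⟩
        subst h0
        simp only [ha] at he
        rwa [zpow_eq_iff, Ap j (by omega), hpa0] at he
      · exact absurd he.symm (a_inj_lt i' i j' j h0 (by omega))
    · rintro ⟨rfl, hd⟩
      simp only [ha]
      rwa [zpow_eq_iff, Ap j (by omega), hpa0]
  · intro i j i' j' hj hj'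
    constructor
    · intro he
      rcases lt_trichotomy j j' with h0 | h0 | h0
      · exact absurd he (b_inj_lt i i' j j' h0 (by omega))
      · refine ⟨h0, ?_⟩
        subst h0
        simp only [hb] at he
        rwa [zpow_eq_iff, Bp j (by omega), hpb0] at he
      · exact absurd he.symm (b_inj_lt i' i j' j h0 (by omega))
    · rintro ⟨rfl, hd⟩
      simp only [hb]
      rwa [zpow_eq_iff, Bp j (by omega), hpb0]
  · -- covering
    intro x
    have key := closed_eq_univ h v ht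
      {x | (∃ i j, j < J1 + 1 ∧ x = a i j) ∨ (∃ i j, j < J2 + 1 ∧ x = b i j)} (a 0 0)
      (Or.inl ⟨0, 0, by omega, rfl⟩) ?_ ?_ x
    · exact key
    · rintro x (⟨i, j, hj, rfl⟩ | ⟨i, j, hj, rfl⟩)
      · exact Or.inl ⟨i + 1, j, hj, ha1 i j⟩
      · exact Or.inr ⟨i + 1, j, hj, hb1 i j⟩
    · rintro x (⟨i, j, hj, rfl⟩ | ⟨i, j, hj, rfl⟩)
      · rcases lt_or_eq_of_le (Nat.le_of_lt_succ hj) with h0 | h0
        · exact Or.inl ⟨i, j + 1, by omega, hva i j h0⟩
        · subst h0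
          exact Or.inr ⟨_, 0, by omega, hva_top i⟩
      · rcases lt_or_eq_of_le (Nat.le_of_lt_succ hj) with h0 | h0
        · exact Or.inr ⟨i, j + 1, by omega, hvb i j h0⟩
        · subst h0
          rcases lt_or_ge ((i - (i2 + 1)) % (w + c : ℕ)) (w : ℤ) with h1 | h1
          · exact Or.inl ⟨_, 0, by omega, hvb_lt i h1⟩
          · exact Or.inr ⟨_, 0, by omega, hvb_ge i h1⟩

end Pool.Agent.Origami
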