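import Pool.Agent.Origami.Defs
import Pool.Agent.Origami.Key

/-!
# Representatives of origamis and the relations of the action

Helper file for `MP_7a6c3d_gt`.
-/

namespace Pool.Agent.Origami

open Equiv Equiv.Perm

variable {n : ℕ}

/-- `(h, v)` represents the origami `x` -/
def Rep (x : Origami n) (h v : Perm (Fin n)) : Prop :=
  ∃ ht : MulAction.IsPretransitive (Subgroup.closure {h, v}) (Fin n),
    x = Quotient.mk (conjSetoid n) ⟨(h, v), ht⟩

theorem exists_rep (x : Origami n) : ∃ h v, Rep x h v := by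
  induction x using Quotient.inductionOn with
  | h p => exact ⟨p.1.1, p.1.2, p.2, rfl⟩

theorem Rep.T {x : Origami n} {h v : Perm (Fin n)} (H : Rep x h v) :
    Rep (T n x) h (v * h⁻¹) := by
  obtain ⟨ht, rfl⟩ := H
  exact ⟨by rw [closure_T]; exact ht, rfl⟩

theorem Rep.Ti {x : Origami n} {h v : Perm (Fin n)} (H : Rep x h v) :
    Rep ((Origami.T n)⁻¹ x) h (v * h) := by
  obtain ⟨ht, rfl⟩ := H
  exact ⟨by rw [closure_Ti]; exact ht, rfl⟩

theorem Rep.S {x : Origami n} {h v : Perm (Fin n)} (H : Rep x h v) :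
    Rep (Origami.S n x) (h * v⁻¹) v := by
  obtain ⟨ht, rfl⟩ := H
  exact ⟨by rw [closure_S]; exact ht, rfl⟩

theorem Rep.Si {x : Origami n} {h v : Perm (Fin n)} (H : Rep x h v) :
    Rep ((Origami.S n)⁻¹ x) (h * v) v := by
  obtain ⟨ht, rfl⟩ := H
  exact ⟨by rw [closure_Si]; exact ht, rfl⟩

theorem conj_closure_mem {G : Type*} [Group G] (g h v : G) {m : G}
    (hm : m ∈ Subgroup.closure {h, v}) :
    g * m * g⁻¹ ∈ Subgroup.closure {g * h * g⁻¹, g * v * g⁻¹} := by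
  induction hm using Subgroup.closure_induction with
  | mem m hm =>
    rcases hm with rfl | hm
    · exact Subgroup.subset_closure (by simp)
    · rw [Set.mem_singleton_iff] at hm; subst hm
      exact Subgroup.subset_closure (by simp)
  | one => simp
  | mul a b _ _ ha hb =>
    have : g * (a * b) * g⁻¹ = (g * a * g⁻¹) * (g * b * g⁻¹) := by group
    rw [this]; exact Subgroup.mul_mem _ ha hb
  | inv a _ ha =>
    have : g * a⁻¹ * g⁻¹ = (g * a * g⁻¹)⁻¹ := by group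
    rw [this]; exact Subgroup.inv_mem _ ha

theorem conj_pretransitive (g h v : Perm (Fin n))
    (ht : MulAction.IsPretransitive (Subgroup.closure {h, v}) (Fin n)) :
    MulAction.IsPretransitive (Subgroup.closure {g * h * g⁻¹, g * v * g⁻¹}) (Fin n) := by
  constructor
  intro x y
  obtain ⟨⟨m, hm⟩, hmx⟩ := ht.exists_smul_eq (g⁻¹ x) (g⁻¹ y)
  refine ⟨⟨g * m * g⁻¹, conj_closure_mem g h v hm⟩, ?_⟩
  have hmx' : m (g⁻¹ x) = g⁻¹ y := hmx
  change (g * m * g⁻¹) x = y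
  rw [Perm.mul_apply, Perm.mul_apply, hmx']
  simp

theorem conj_preprimitive (g h v : Perm (Fin n))
    (ht : MulAction.IsPreprimitive (Subgroup.closure {h, v}) (Fin n)) :
    MulAction.IsPreprimitive (Subgroup.closure {g * h * g⁻¹, g * v * g⁻¹}) (Fin n) := by
  let φ : Subgroup.closure {h, v} → Subgroup.closure {g * h * g⁻¹, g * v * g⁻¹} :=
    fun m => ⟨g * m.1 * g⁻¹, conj_closure_mem g h v m.2⟩
  let f : (Fin n) →ₑ[φ] (Fin n) :=
    { toFun := g
      map_smul' := by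
        intro m x
        change g (m.1 x) = (g * m.1 * g⁻¹) (g x)
        simp [Perm.mul_apply] }
  exact MulAction.IsPreprimitive.of_surjective (f := f) g.surjective

theorem Rep.conj {x : Origami n} {h v : Perm (Fin n)} (H : Rep x h v) (g : Perm (Fin n)) :
    Rep x (g * h * g⁻¹) (g * v * g⁻¹) := by
  obtain ⟨ht, rfl⟩ := H
  refine ⟨conj_pretransitive g h v ht, ?_⟩
  exact Quotient.sound (s := conjSetoid n) ⟨g, rfl, rfl⟩

theorem Rep.conj_of {x : Origami n} {h v h' v' : Perm (Fin n)} (H : Rep x h v) (g : Perm (Fin n))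
    (h1 : h' = g * h * g⁻¹) (h2 : v' = g * v * g⁻¹) : Rep x h' v' := by
  rw [h1, h2]; exact H.conj g

theorem Rep.unique {x : Origami n} {h v h' v' : Perm (Fin n)} (H : Rep x h v) (H' : Rep x h' v') :
    ∃ g : Perm (Fin n), h' = g * h * g⁻¹ ∧ v' = g * v * g⁻¹ := by
  obtain ⟨ht, rfl⟩ := H
  obtain ⟨ht', he⟩ := H'
  obtain ⟨g, h1, h2⟩ := Quotient.exact (s := conjSetoid n) he
  exact ⟨g, h1, h2⟩

theorem Rep.ext {x y : Origami n} {h v : Perm (Fin n)} (H : Rep x h v) (H' : Rep y h v) :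
    x = y := by
  obtain ⟨ht, rfl⟩ := H
  obtain ⟨ht', rfl⟩ := H'
  rfl

theorem Rep.congr {x : Origami n} {h v h' v' : Perm (Fin n)} (H : Rep x h v) (h1 : h' = h)
    (h2 : v' = v) : Rep x h' v' := by rw [h1, h2]; exact H

theorem Rep.Tz {x : Origami n} {h v : Perm (Fin n)} (H : Rep x h v) (k : ℤ) :
    Rep ((Origami.T n ^ k) x) h (v * h ^ (-k)) := by
  induction k using Int.induction_on with
  | zero => simpa using H
  | succ k ih =>
    have := ih.T
    rw [apply_zpow'] at this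
    refine this.congr rfl ?_
    group
  | pred k ih =>
    have := ih.Ti
    have e : (Origami.T n)⁻¹ ((Origami.T n ^ (-(k : ℤ))) x) = (Origami.T n ^ (-(k : ℤ) - 1)) x := by
      rw [Perm.inv_eq_iff_eq, apply_zpow', sub_add_cancel]
    rw [e] at this
    refine this.congr rfl ?_
    group

section orbit

theorem mem_orbit_self (x : Origami n) : x ∈ sl2Orbit x := MulAction.mem_orbit_self x

theorem orbit_T {x y : Origami n} (hy : y ∈ sl2Orbit x) : T n y ∈ sl2Orbit x := by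
  obtain ⟨⟨g, hg⟩, rfl⟩ := hy
  exact ⟨⟨T n * g, Subgroup.mul_mem _ (Subgroup.subset_closure (by simp)) hg⟩, rfl⟩

theorem orbit_Ti {x y : Origami n} (hy : y ∈ sl2Orbit x) : (T n)⁻¹ y ∈ sl2Orbit x := by
  obtain ⟨⟨g, hg⟩, rfl⟩ := hy
  exact ⟨⟨(T n)⁻¹ * g, Subgroup.mul_mem _ (Subgroup.inv_mem _
    (Subgroup.subset_closure (by simp))) hg⟩, rfl⟩

theorem orbit_S {x y : Origami n} (hy : y ∈ sl2Orbit x) : S n y ∈ sl2Orbit x := by
  obtain ⟨⟨g, hg⟩, rfl⟩ := hy
  exact ⟨⟨S n * g, Subgroup.mul_mem _ (Subgroup.subset_closure (by simp)) hg⟩, rfl⟩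

theorem orbit_Si {x y : Origami n} (hy : y ∈ sl2Orbit x) : (S n)⁻¹ y ∈ sl2Orbit x := by
  obtain ⟨⟨g, hg⟩, rfl⟩ := hy
  exact ⟨⟨(S n)⁻¹ * g, Subgroup.mul_mem _ (Subgroup.inv_mem _
    (Subgroup.subset_closure (by simp))) hg⟩, rfl⟩

theorem orbit_Tz {x y : Origami n} (hy : y ∈ sl2Orbit x) (k : ℤ) :
    (T n ^ k) y ∈ sl2Orbit x := by
  induction k using Int.induction_on with
  | zero => simpa using hy
  | succ k ih => rw [← apply_zpow']; exact orbit_T ih
  | pred k ih =>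
    have e : (T n)⁻¹ ((T n ^ (-(k : ℤ))) y) = (T n ^ (-(k : ℤ) - 1)) y := by
      rw [Perm.inv_eq_iff_eq, apply_zpow', sub_add_cancel]
    rw [← e]; exact orbit_Ti ih

theorem orbit_induction {x y : Origami n} (hy : y ∈ sl2Orbit x) (Q : Origami n → Prop)
    (hT : ∀ z, Q z ↔ Q (T n z)) (hS : ∀ z, Q z ↔ Q (S n z)) : Q x ↔ Q y := by
  obtain ⟨⟨g, hg⟩, rfl⟩ := hy
  have key : ∀ g ∈ Subgroup.closure {T n, S n}, ∀ z, Q z ↔ Q (g z) := by
    intro g hg
    induction hg using Subgroup.closure_induction with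
    | mem m hm =>
      rcases hm with rfl | hm
      · exact hT
      · rw [Set.mem_singleton_iff] at hm; subst hm; exact hS
    | one => intro z; simp
    | mul a b _ _ ha hb => intro z; rw [Perm.mul_apply, hb z, ha]
    | inv a _ ha => intro z; rw [ha (a⁻¹ z)]; simp
  exact key g hg x

/-- invariance criterion: it is enough to check the four moves -/
theorem orbit_induction' {x y : Origami n} (hy : y ∈ sl2Orbit x) (Q : Origami n → Prop)
    (hT : ∀ z, Q z → Q (T n z)) (hTi : ∀ z, Q z → Q ((T n)⁻¹ z))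
    (hS : ∀ z, Q z → Q (S n z)) (hSi : ∀ z, Q z → Q ((S n)⁻¹ z)) : Q x ↔ Q y := by
  apply orbit_induction hy
  · intro z
    refine ⟨hT z, fun H => ?_⟩
    have := hTi _ H
    simpa using this
  · intro z
    refine ⟨hS z, fun H => ?_⟩
    have := hSi _ H
    simpa using this

end orbit

section neg

/-- the hyperelliptic involution acts trivially on `x` -/
def NegFix (x : Origami n) : Prop :=
  ∃ h v g, Rep x h v ∧ h⁻¹ = g * h * g⁻¹ ∧ v⁻¹ = g * v * g⁻¹

theorem NegFix.of_orbit {x y : Origami n} (hy : y ∈ sl2Orbit x) : NegFix x ↔ NegFix y := by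
  apply orbit_induction' hy
  · rintro z ⟨h, v, g, H, h1, h2⟩
    refine ⟨_, _, h * g, H.T, ?_, ?_⟩
    · have : h * g * h * (h * g)⁻¹ = h * (g * h * g⁻¹) * h⁻¹ := by group
      rw [this, ← h1]; group
    · have : h * g * (v * h⁻¹) * (h * g)⁻¹ = h * (g * v * g⁻¹) * (g * h * g⁻¹)⁻¹ * h⁻¹ := by group
      rw [this, ← h1, ← h2]; group
  · rintro z ⟨h, v, g, H, h1, h2⟩
    refine ⟨_, _, h⁻¹ * g, H.Ti, ?_, ?_⟩
    · have : h⁻¹ * g * h * (h⁻¹ * g)⁻¹ = h⁻¹ * (g * h * g⁻¹) * h := by group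
      rw [this, ← h1]; group
    · have : h⁻¹ * g * (v * h) * (h⁻¹ * g)⁻¹ = h⁻¹ * (g * v * g⁻¹) * (g * h * g⁻¹) * h := by group
      rw [this, ← h1, ← h2]; group
  · rintro z ⟨h, v, g, H, h1, h2⟩
    refine ⟨_, _, v * g, H.S, ?_, ?_⟩
    · have : v * g * (h * v⁻¹) * (v * g)⁻¹ = v * (g * h * g⁻¹) * (g * v * g⁻¹)⁻¹ * v⁻¹ := by group
      rw [this, ← h1, ← h2]; group
    · have : v * g * v * (v * g)⁻¹ = v * (g * v * g⁻¹) * v⁻¹ := by group
      rw [this, ← h2]; group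
  · rintro z ⟨h, v, g, H, h1, h2⟩
    refine ⟨_, _, v⁻¹ * g, H.Si, ?_, ?_⟩
    · have : v⁻¹ * g * (h * v) * (v⁻¹ * g)⁻¹ = v⁻¹ * (g * h * g⁻¹) * (g * v * g⁻¹) * v := by group
      rw [this, ← h1, ← h2]; group
    · have : v⁻¹ * g * v * (v⁻¹ * g)⁻¹ = v⁻¹ * (g * v * g⁻¹) * v := by group
      rw [this, ← h2]; group

/-- the element of order 3 -/
def cc (x : Origami n) : Origami n := T n ((S n)⁻¹ x)

theorem Rep.cc {x : Origami n} {h v : Perm (Fin n)} (H : Rep x h v) :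
    Rep (cc x) (h * v) h⁻¹ := by
  have := H.Si.T
  refine this.congr rfl ?_
  simp

theorem orbit_cc {x y : Origami n} (hy : y ∈ sl2Orbit x) : cc y ∈ sl2Orbit x :=
  orbit_T (orbit_Si hy)

theorem S_eq_iff (x y : Origami n) : S n x = y ↔ T n x = cc y := by
  unfold cc
  rw [Equiv.apply_eq_iff_eq, Perm.eq_inv_iff_eq]

theorem cc_cube {x : Origami n} (hx : NegFix x) : cc (cc (cc x)) = x := by
  obtain ⟨h, v, g, H, h1, h2⟩ := hx
  have h3 := H.cc.cc.cc
  refine Rep.ext h3 ((H.conj g).conj_of (h * v) ?_ ?_)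
  · rw [← h1]
  · rw [← h2]; simp [mul_assoc]

theorem cc_T_cc {x : Origami n} (hx : NegFix x) : cc (T n (cc x)) = (T n)⁻¹ x := by
  obtain ⟨h, v, g, H, h1, h2⟩ := hx
  have h3 := H.cc.T.cc
  refine Rep.ext h3 ((H.Ti.conj g).conj_of (h * v) ?_ ?_)
  · rw [← h1]; group
  · have : g * (v * h) * g⁻¹ = (g * v * g⁻¹) * (g * h * g⁻¹) := by group
    rw [this, ← h1, ← h2]; group

end neg

section fix

/-- the first permutation has a fixed point -/
def A1 (x : Origami n) : Prop := ∃ h v, Rep x h v ∧ ∃ i, h i = i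

/-- the second permutation has a fixed point -/
def A2 (x : Origami n) : Prop := ∃ h v, Rep x h v ∧ ∃ i, v i = i

/-- the square of the second permutation has a fixed point -/
def A3 (x : Origami n) : Prop := ∃ h v, Rep x h v ∧ ∃ i, v (v i) = i

theorem Rep.A1 {x : Origami n} {h v : Perm (Fin n)} (H : Rep x h v) :
    A1 x ↔ ∃ i, h i = i := by
  constructor
  · rintro ⟨h', v', H', i, hi⟩
    obtain ⟨g, rfl, -⟩ := H'.unique H
    exact ⟨g i, by simp [Perm.mul_apply, hi]⟩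
  · rintro ⟨i, hi⟩; exact ⟨h, v, H, i, hi⟩

theorem Rep.A2 {x : Origami n} {h v : Perm (Fin n)} (H : Rep x h v) :
    A2 x ↔ ∃ i, v i = i := by
  constructor
  · rintro ⟨h', v', H', i, hi⟩
    obtain ⟨g, -, rfl⟩ := H'.unique H
    exact ⟨g i, by simp [Perm.mul_apply, hi]⟩
  · rintro ⟨i, hi⟩; exact ⟨h, v, H, i, hi⟩

theorem Rep.A3 {x : Origami n} {h v : Perm (Fin n)} (H : Rep x h v) :
    A3 x ↔ ∃ i, v (v i) = i := by
  constructor
  · rintro ⟨h', v', H', i, hi⟩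
    obtain ⟨g, -, rfl⟩ := H'.unique H
    exact ⟨g i, by simp [Perm.mul_apply, hi]⟩
  · rintro ⟨i, hi⟩; exact ⟨h, v, H, i, hi⟩

end fix

section good

/-- the set of all representatives of the elements of the orbit of `x` -/
def reps (x : Origami n) : Set (Perm (Fin n) × Perm (Fin n)) :=
  {p | ∃ y ∈ sl2Orbit x, Rep y p.1 p.2}

/-- primitive with commutator a 3-cycle, at the level of origamis -/
def PH (x : Origami n) : Prop :=
  ∃ h v, Rep x h v ∧ (h * v * h⁻¹ * v⁻¹).IsThreeCycle ∧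
    MulAction.IsPreprimitive (Subgroup.closure {h, v}) (Fin n)

theorem isThreeCycle_conj (g c : Perm (Fin n)) (H : c.IsThreeCycle) :
    (g * c * g⁻¹).IsThreeCycle := by
  unfold Perm.IsThreeCycle at *
  rw [Perm.cycleType_conj, H]

theorem Rep.PH {x : Origami n} {h v : Perm (Fin n)} (H : Rep x h v) (hx : PH x) :
    (h * v * h⁻¹ * v⁻¹).IsThreeCycle ∧
    MulAction.IsPreprimitive (Subgroup.closure {h, v}) (Fin n) := by
  obtain ⟨h', v', H', h3, hp⟩ := hx
  obtain ⟨g, rfl, rfl⟩ := H'.unique H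
  refine ⟨?_, conj_preprimitive g h' v' hp⟩
  have := isThreeCycle_conj g _ h3
  convert this using 1
  group

theorem PH.of_orbit {x y : Origami n} (hy : y ∈ sl2Orbit x) : PH x ↔ PH y := by
  apply orbit_induction' hy
  · rintro z ⟨h, v, H, h3, hp⟩
    refine ⟨_, _, H.T, ?_, ?_⟩
    · convert h3 using 1; group
    · rw [closure_T]; exact hp
  · rintro z ⟨h, v, H, h3, hp⟩
    refine ⟨_, _, H.Ti, ?_, ?_⟩
    · convert h3 using 1; group
    · rw [closure_Ti]; exact hp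
  · rintro z ⟨h, v, H, h3, hp⟩
    refine ⟨_, _, H.S, ?_, ?_⟩
    · convert h3 using 1; group
    · rw [closure_S]; exact hp
  · rintro z ⟨h, v, H, h3, hp⟩
    refine ⟨_, _, H.Si, ?_, ?_⟩
    · convert h3 using 1; group
    · rw [closure_Si]; exact hp

theorem goodSet_reps {x : Origami n} (hx : PH x) : GoodSet (reps x) := by
  have hPH : ∀ y ∈ sl2Orbit x, PH y := fun y hy => (PH.of_orbit hy).1 hx
  refine ⟨?_, ?_, ?_, ?_, ?_, ?_, ?_⟩
  · rintro h v ⟨y, hy, H⟩; exact ⟨_, orbit_T hy, H.T⟩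
  · rintro h v ⟨y, hy, H⟩; exact ⟨_, orbit_Ti hy, H.Ti⟩
  · rintro h v ⟨y, hy, H⟩; exact ⟨_, orbit_S hy, H.S⟩
  · rintro h v ⟨y, hy, H⟩; exact ⟨_, orbit_Si hy, H.Si⟩
  · rintro g h v ⟨y, hy, H⟩; exact ⟨y, hy, H.conj g⟩
  · rintro h v ⟨y, hy, H⟩; exact (H.PH (hPH y hy)).1
  · rintro h v ⟨y, hy, H⟩; exact (H.PH (hPH y hy)).2

/-- both permutations are even -/
def Ev (x : Origami n) : Prop := ∃ h v, Rep x h v ∧ sign h = 1 ∧ sign v = 1

theorem Ev.of_orbit {x y : Origami n} (hy : y ∈ sl2Orbit x) : Ev x ↔ Ev y := by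
  apply orbit_induction' hy
  · rintro z ⟨h, v, H, h1, h2⟩
    exact ⟨_, _, H.T, h1, by simp [h1, h2]⟩
  · rintro z ⟨h, v, H, h1, h2⟩
    exact ⟨_, _, H.Ti, h1, by simp [h1, h2]⟩
  · rintro z ⟨h, v, H, h1, h2⟩
    exact ⟨_, _, H.S, by simp [h1, h2], h2⟩
  · rintro z ⟨h, v, H, h1, h2⟩
    exact ⟨_, _, H.Si, by simp [h1, h2], h2⟩

theorem Ev.hasAltMonodromy {x : Origami n} (hx : Ev x) (hP : PH x) : HasAltMonodromy x := by
  obtain ⟨h, v, H, h1, h2⟩ := hx
  obtain ⟨h3, hp⟩ := H.PH hP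
  obtain ⟨ht, rfl⟩ := H
  refine ⟨_, rfl, ?_⟩
  apply le_antisymm
  · rw [Subgroup.closure_le]
    rintro g (rfl | hg)
    · exact Perm.mem_alternatingGroup.2 h1
    · rw [Set.mem_singleton_iff] at hg
      rw [hg]
      exact Perm.mem_alternatingGroup.2 h2
  · apply Perm.alternatingGroup_le_of_isPreprimitive_of_isThreeCycle_mem hp h3
    have m1 : h ∈ Subgroup.closure {h, v} := Subgroup.subset_closure (by simp)
    have m2 : v ∈ Subgroup.closure {h, v} := Subgroup.subset_closure (by simp)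
    exact Subgroup.mul_mem _ (Subgroup.mul_mem _ (Subgroup.mul_mem _ m1 m2)
      (Subgroup.inv_mem _ m1)) (Subgroup.inv_mem _ m2)

end good

end Pool.Agent.Origami
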