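import Pool.Agent.Origami.K33

/-!
# The case `n = 4`

Helper file for `MP_7a6c3d_gt`.
-/

namespace Pool.Agent.Origami

open Equiv Equiv.Perm

/-- standard horizontal permutation for `n = 4` -/
def h4 : Perm (Fin 4) := ⟨![1, 2, 0, 3], ![2, 0, 1, 3], by decide, by decide⟩

/-- standard vertical permutation for `n = 4` -/
def v4 : Perm (Fin 4) := ⟨![3, 1, 2, 0], ![3, 1, 2, 0], by decide, by decide⟩

theorem lpair4 : LPair h4 v4 3 2 (fun i => if hi : i < 4 then ⟨i, hi⟩ else 0) := by
  refine ⟨by norm_num, by norm_num, ?_, ?_, ?_, ?_⟩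
  · intro i hi
    norm_num at hi
    interval_cases i <;> decide
  · intro i hi
    norm_num at hi
    interval_cases i <;> decide
  · intro i j hi hj
    norm_num at hi hj
    simp only [hi, hj, dif_pos, Fin.mk.injEq]
    exact id
  · intro x
    refine ⟨x.1, by have := x.2; omega, ?_⟩
    simp

theorem Rep.eq_of {n : ℕ} {x y : Origami n} {h v h' v' : Perm (Fin n)} (H : Rep x h v)
    (H' : Rep y h' v') (hg : ∃ g : Perm (Fin n), h' = g * h * g⁻¹ ∧ v' = g * v * g⁻¹) : x = y := by
  obtain ⟨g, h1, h2⟩ := hg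
  exact (H.conj_of g h1 h2).ext H'

theorem Rep.ne_of {n : ℕ} {x y : Origami n} {h v h' v' : Perm (Fin n)} (H : Rep x h v)
    (H' : Rep y h' v') (hg : ¬ ∃ g : Perm (Fin n), h' = g * h * g⁻¹ ∧ v' = g * v * g⁻¹) :
    x ≠ y := by
  rintro rfl
  exact hg (H.unique H')

set_option maxRecDepth 100000 in
theorem localMinor4 {o : Origami 4} (H : Rep o h4 v4) :
    HasLocalMinor 2 (completeBipartiteGraph (Fin 3) (Fin 3)) (orbitGraph o) := by
  have m0 := mem_orbit_self o
  have H1 := H.T
  have H3 := H.Ti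
  have H2 := H.S
  have H4 := H.T.S
  have H6 := H.Ti.S
  have H5 := H.S.T
  have H8 := H.Ti.S.T
  -- relations
  have r1 : Origami.S 4 (Origami.S 4 (T 4 o)) = (T 4)⁻¹ o := H4.S.eq_of H3 (by decide)
  have r2 : T 4 (T 4 (Origami.S 4 o)) = Origami.S 4 (T 4 o) := H5.T.eq_of H4 (by decide)
  have r3 : Origami.S 4 (Origami.S 4 ((T 4)⁻¹ o)) = T 4 o := H6.S.eq_of H1 (by decide)
  have r4 : Origami.S 4 (T 4 (Origami.S 4 ((T 4)⁻¹ o))) = T 4 (Origami.S 4 o) :=
    H8.S.eq_of H5 (by decide)
  let V0 : sl2Orbit o := ⟨o, m0⟩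
  let V1 : sl2Orbit o := ⟨T 4 o, orbit_T m0⟩
  let V2 : sl2Orbit o := ⟨Origami.S 4 o, orbit_S m0⟩
  let V3 : sl2Orbit o := ⟨(T 4)⁻¹ o, orbit_Ti m0⟩
  let V4 : sl2Orbit o := ⟨Origami.S 4 (T 4 o), orbit_S (orbit_T m0)⟩
  let V5 : sl2Orbit o := ⟨T 4 (Origami.S 4 o), orbit_T (orbit_S m0)⟩
  let V6 : sl2Orbit o := ⟨Origami.S 4 ((T 4)⁻¹ o), orbit_S (orbit_Ti m0)⟩
  let V8 : sl2Orbit o := ⟨T 4 (Origami.S 4 ((T 4)⁻¹ o)), orbit_T (orbit_S (orbit_Ti m0))⟩
  have n01 : V0 ≠ V1 := fun he => H.ne_of H1 (by decide) (congrArg Subtype.val he)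
  have n02 : V0 ≠ V2 := fun he => H.ne_of H2 (by decide) (congrArg Subtype.val he)
  have n03 : V0 ≠ V3 := fun he => H.ne_of H3 (by decide) (congrArg Subtype.val he)
  have n04 : V0 ≠ V4 := fun he => H.ne_of H4 (by decide) (congrArg Subtype.val he)
  have n05 : V0 ≠ V5 := fun he => H.ne_of H5 (by decide) (congrArg Subtype.val he)
  have n06 : V0 ≠ V6 := fun he => H.ne_of H6 (by decide) (congrArg Subtype.val he)
  have n08 : V0 ≠ V8 := fun he => H.ne_of H8 (by decide) (congrArg Subtype.val he)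
  have n12 : V1 ≠ V2 := fun he => H1.ne_of H2 (by decide) (congrArg Subtype.val he)
  have n13 : V1 ≠ V3 := fun he => H1.ne_of H3 (by decide) (congrArg Subtype.val he)
  have n14 : V1 ≠ V4 := fun he => H1.ne_of H4 (by decide) (congrArg Subtype.val he)
  have n15 : V1 ≠ V5 := fun he => H1.ne_of H5 (by decide) (congrArg Subtype.val he)
  have n16 : V1 ≠ V6 := fun he => H1.ne_of H6 (by decide) (congrArg Subtype.val he)
  have n18 : V1 ≠ V8 := fun he => H1.ne_of H8 (by decide) (congrArg Subtype.val he)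
  have n23 : V2 ≠ V3 := fun he => H2.ne_of H3 (by decide) (congrArg Subtype.val he)
  have n24 : V2 ≠ V4 := fun he => H2.ne_of H4 (by decide) (congrArg Subtype.val he)
  have n25 : V2 ≠ V5 := fun he => H2.ne_of H5 (by decide) (congrArg Subtype.val he)
  have n26 : V2 ≠ V6 := fun he => H2.ne_of H6 (by decide) (congrArg Subtype.val he)
  have n28 : V2 ≠ V8 := fun he => H2.ne_of H8 (by decide) (congrArg Subtype.val he)
  have n34 : V3 ≠ V4 := fun he => H3.ne_of H4 (by decide) (congrArg Subtype.val he)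
  have n35 : V3 ≠ V5 := fun he => H3.ne_of H5 (by decide) (congrArg Subtype.val he)
  have n36 : V3 ≠ V6 := fun he => H3.ne_of H6 (by decide) (congrArg Subtype.val he)
  have n38 : V3 ≠ V8 := fun he => H3.ne_of H8 (by decide) (congrArg Subtype.val he)
  have n45 : V4 ≠ V5 := fun he => H4.ne_of H5 (by decide) (congrArg Subtype.val he)
  have n46 : V4 ≠ V6 := fun he => H4.ne_of H6 (by decide) (congrArg Subtype.val he)
  have n48 : V4 ≠ V8 := fun he => H4.ne_of H8 (by decide) (congrArg Subtype.val he)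
  have n56 : V5 ≠ V6 := fun he => H5.ne_of H6 (by decide) (congrArg Subtype.val he)
  have n58 : V5 ≠ V8 := fun he => H5.ne_of H8 (by decide) (congrArg Subtype.val he)
  have n68 : V6 ≠ V8 := fun he => H6.ne_of H8 (by decide) (congrArg Subtype.val he)
  let s : Fin 3 ⊕ Fin 3 → sl2Orbit o := Sum.elim ![V0, V4, V6] ![V1, V3, V2]
  let s' : Fin 3 ⊕ Fin 3 → sl2Orbit o := Sum.elim ![V0, V4, V8] ![V1, V3, V5]
  apply localMinor_of (orbitGraph o) s s'
  · intro x y hxy
    rcases x with i | i <;> rcases y with j | j <;> fin_cases i <;> fin_cases j <;>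
      first
        | exact absurd rfl hxy
        | exact ⟨by assumption, by assumption, by assumption⟩
        | exact ⟨Ne.symm (by assumption), Ne.symm (by assumption), Ne.symm (by assumption)⟩
        | exact ⟨Ne.symm (by assumption), (by assumption), Ne.symm (by assumption)⟩
        | exact ⟨(by assumption), Ne.symm (by assumption), Ne.symm (by assumption)⟩
        | exact ⟨(by assumption), Ne.symm (by assumption), (by assumption)⟩
        | exact ⟨Ne.symm (by assumption), (by assumption), (by assumption)⟩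
        | exact ⟨(by assumption), (by assumption), Ne.symm (by assumption)⟩
        | exact ⟨Ne.symm (by assumption), Ne.symm (by assumption), (by assumption)⟩
  · intro x
    rcases x with i | i <;> fin_cases i
    · left; rfl
    · left; rfl
    · right; exact adj_T V6 V8 n68 rfl
    · left; rfl
    · left; rfl
    · right; exact adj_T V2 V5 n25 rfl
  · intro i j
    fin_cases i <;> fin_cases j
    · left; exact adj_T V0 V1 n01 rfl
    · left; exact (adj_T V3 V0 n03.symm (by simp [V3, V0])).symm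
    · left; exact adj_S V0 V2 n02 rfl
    · left; exact (adj_S V1 V4 n14 rfl).symm
    · left; exact adj_S V4 V3 n34.symm r1
    · right; left; exact (adj_T V5 V4 n45.symm r2).symm
    · left; exact adj_S V6 V1 n16.symm r3
    · left; exact (adj_S V3 V6 n36 rfl).symm
    · right; right; right; exact adj_S V8 V5 n58.symm r4

end Pool.Agent.Origami
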