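import Pool.Agent.Origami.Basic

/-!
# The structure theorem for pairs whose commutator is a 3-cycle

Helper file for `MP_7a6c3d_gt`.
-/

namespace Pool.Agent.Origami

open Equiv Equiv.Perm

variable {Ω : Type*}

/-- The three singular points of a pair whose commutator is a 3-cycle. -/
structure Sg (h v : Perm Ω) (s1 s2 s3 : Ω) : Prop where
  n12 : s1 ≠ s2
  n13 : s1 ≠ s3
  n23 : s2 ≠ s3
  e1 : v (h s1) = h (v s2)
  e2 : v (h s2) = h (v s3)
  e3 : v (h s3) = h (v s1)
  off : ∀ x, x ≠ s1 → x ≠ s2 → x ≠ s3 → v (h x) = h (v x)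

theorem Sg.rot {h v : Perm Ω} {s1 s2 s3 : Ω} (S : Sg h v s1 s2 s3) : Sg h v s2 s3 s1 :=
  ⟨S.n23, S.n12.symm, S.n13.symm, S.e2, S.e3, S.e1, fun x h2 h3 h1 => S.off x h1 h2 h3⟩

theorem exists_sg [Fintype Ω] [DecidableEq Ω] (h v : Perm Ω)
    (H : (h * v * h⁻¹ * v⁻¹).IsThreeCycle) : ∃ s1 s2 s3, Sg h v s1 s2 s3 := by
  set C := h * v * h⁻¹ * v⁻¹ with hC
  have hCx : ∀ x, C (v (h x)) = h (v x) := by
    intro x; simp [hC, Perm.mul_apply]
  have hcard := H.card_support
  obtain ⟨z, hz⟩ : C.support.Nonempty := by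
    rw [← Finset.card_pos, hcard]; norm_num
  have hsup := (H.support_eq_iff_mem_support (a := z)).2 hz
  have hnd := (H.nodup_iff_mem_support (a := z)).2 hz
  have h3 : C (C (C z)) = z := by
    have hc := H.orderOf
    have : (C ^ 3) z = z := by rw [← hc, pow_orderOf_eq_one]; rfl
    simpa [pow_succ, Perm.mul_apply] using this
  simp only [List.nodup_cons, List.mem_cons, List.not_mem_nil, or_false, not_or,
    List.nodup_nil, and_true, not_false_eq_true] at hnd
  obtain ⟨⟨hz1, hz2⟩, hz3⟩ := hnd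
  refine ⟨(v * h)⁻¹ (C (C z)), (v * h)⁻¹ (C z), (v * h)⁻¹ z, ?_, ?_, ?_, ?_, ?_, ?_, ?_⟩
  · intro he; exact hz3 ((Equiv.injective _ he).symm)
  · intro he; exact hz2 ((Equiv.injective _ he).symm)
  · intro he; exact hz1 ((Equiv.injective _ he).symm)
  · rw [← hCx]
    rw [← Perm.mul_apply, ← Perm.mul_apply, ← Perm.mul_apply v h, mul_inv_cancel, ]
    simp
  · rw [← hCx]
    rw [← Perm.mul_apply, ← Perm.mul_apply, ← Perm.mul_apply v h, mul_inv_cancel, ]
    simp
  · rw [← hCx]
    rw [← Perm.mul_apply, ← Perm.mul_apply, ← Perm.mul_apply v h, mul_inv_cancel, ]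
    simp [h3]
  · intro x hx1 hx2 hx3
    rw [← hCx]
    symm
    rw [← Perm.notMem_support, hsup]
    simp only [Finset.mem_insert, Finset.mem_singleton, not_or]
    have aux : ∀ y, v (h x) = y → x = (v * h)⁻¹ y := by
      intro y hy
      rw [Perm.eq_inv_iff_eq]; exact hy
    exact ⟨fun hy => hx3 (aux _ hy), fun hy => hx2 (aux _ hy), fun hy => hx1 (aux _ hy)⟩

theorem Sg.arc {h v : Perm Ω} {s1 s2 s3 : Ω} (S : Sg h v s1 s2 s3) (L : ℕ)
    (H : ∀ j, 0 < j → j < L → (h ^ j) s1 ≠ s1 ∧ (h ^ j) s1 ≠ s2 ∧ (h ^ j) s1 ≠ s3) :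
    ∀ k, 1 ≤ k → k ≤ L → v ((h ^ k) s1) = (h ^ k) (v s2) := by
  intro k hk1
  induction k, hk1 using Nat.le_induction with
  | base => intro _; simpa using S.e1
  | succ k hk ih =>
    intro hL
    have h1 := ih (by omega)
    obtain ⟨a1, a2, a3⟩ := H k (by omega) (by omega)
    rw [pow_succ', Perm.mul_apply, Perm.mul_apply, S.off _ a1 a2 a3, h1]

/-- the row of `x` contains no singular point -/
def NS (h : Perm Ω) (s1 s2 s3 x : Ω) : Prop :=
  ∀ i : ℤ, (h ^ i) x ≠ s1 ∧ (h ^ i) x ≠ s2 ∧ (h ^ i) x ≠ s3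

theorem Sg.comm {h v : Perm Ω} {s1 s2 s3 : Ω} (S : Sg h v s1 s2 s3) {x : Ω}
    (H : NS h s1 s2 s3 x) : ∀ i : ℤ, v ((h ^ i) x) = (h ^ i) (v x) := by
  intro i
  induction i using Int.induction_on with
  | zero => simp
  | succ i ih =>
    obtain ⟨a1, a2, a3⟩ := H i
    rw [add_comm, zpow_add, zpow_one, Perm.mul_apply, Perm.mul_apply, S.off _ a1 a2 a3, ih]
  | pred i ih =>
    obtain ⟨a1, a2, a3⟩ := H (-i - 1)
    have h1 := S.off _ a1 a2 a3
    rw [← Perm.mul_apply h, ← zpow_one_add, show (1 : ℤ) + (-i - 1) = -i by ring, ih] at h1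
    rw [← Perm.inv_eq_iff_eq] at h1
    rw [← h1, ← Perm.mul_apply, ← zpow_neg_one, ← zpow_add]
    congr 2; ring

theorem Sg.per_comm {h v : Perm Ω} {s1 s2 s3 : Ω} (S : Sg h v s1 s2 s3) {x : Ω}
    (H : NS h s1 s2 s3 x) : per h (v x) = per h x := by
  apply per_congr
  intro j
  rw [← S.comm H]
  exact Equiv.apply_eq_iff_eq v

theorem ns_of_not {h : Perm Ω} {s1 s2 s3 x : Ω} (h1 : ¬ SameCycle h x s1)
    (h2 : ¬ SameCycle h x s2) (h3 : ¬ SameCycle h x s3) : NS h s1 s2 s3 x := by
  intro i
  refine ⟨fun he => h1 ⟨i, he⟩, fun he => h2 ⟨i, he⟩, fun he => h3 ⟨i, he⟩⟩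

section fin

variable [Fintype Ω]

theorem sum_per (h v : Perm Ω) : ∑ x, per h (v x) = ∑ x, per h x :=
  Equiv.sum_comp v (fun x => per h x)

open Classical in
/-- Case A: all singular points in one row: the pair is uniform and `v` maps rows to rows -/
theorem Sg.caseA {h v : Perm Ω} {s1 s2 s3 : Ω} (S : Sg h v s1 s2 s3)
    (h12 : SameCycle h s1 s2) (h13 : SameCycle h s1 s3) :
    (∀ x, per h (v x) = per h x) ∧ (∀ x y, SameCycle h x y → SameCycle h (v x) (v y)) := by
  have hoff : ∀ x, ¬ SameCycle h s1 x → NS h s1 s2 s3 x := by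
    intro x hx
    exact ns_of_not (fun H => hx H.symm) (fun H => hx (h12.trans H.symm))
      (fun H => hx (h13.trans H.symm))
  -- image of the special row is closed under h
  have hcl : ∀ x, SameCycle h s1 x → ∃ x', SameCycle h s1 x' ∧ h (v x) = v x' := by
    intro x hx
    refine ⟨v⁻¹ (h (v x)), ?_, by simp⟩
    by_contra hcon
    have h1 := S.comm (hoff _ hcon) (-1)
    have h2 : h⁻¹ (v (v⁻¹ (h (v x)))) = v x := by simp
    rw [zpow_neg_one, h2] at h1
    have h3 : h⁻¹ (v⁻¹ (h (v x))) = x := Equiv.injective v h1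
    apply hcon
    rw [Perm.inv_eq_iff_eq] at h3
    rw [h3]
    exact hx.trans ⟨1, by simp⟩
  have hclk : ∀ x, SameCycle h s1 x → ∀ k : ℕ, ∃ x', SameCycle h s1 x' ∧ (h ^ k) (v x) = v x' := by
    intro x hx k
    induction k with
    | zero => exact ⟨x, hx, by simp⟩
    | succ k ih =>
      obtain ⟨x', hx', he⟩ := ih
      rw [pow_succ', Perm.mul_apply, he]
      exact hcl x' hx'
  have hsub : ∀ x, SameCycle h s1 x →
      (Finset.univ.filter (fun y => SameCycle h (v x) y)) ⊆
      (Finset.univ.filter (fun y => SameCycle h s1 y)).image v := by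
    intro x hx y hy
    simp only [Finset.mem_filter, Finset.mem_univ, true_and] at hy
    obtain ⟨k, _, rfl⟩ := exists_pow_lt_of_sameCycle hy
    obtain ⟨x', hx', he⟩ := hclk x hx k
    rw [Finset.mem_image]
    exact ⟨x', by simpa using hx', he.symm⟩
  have hle : ∀ x, per h (v x) ≤ per h x := by
    intro x
    by_cases hx : SameCycle h s1 x
    · have h1 := Finset.card_le_card (hsub x hx)
      rw [card_row, Finset.card_image_of_injective _ (Equiv.injective v), card_row] at h1
      rw [per_sameCycle hx]; exact h1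
    · exact le_of_eq (S.per_comm (hoff x hx))
  have heq : ∀ x, per h (v x) = per h x := by
    have := (Finset.sum_eq_sum_iff_of_le (s := Finset.univ) (fun x _ => hle x)).1 (sum_per h v)
    intro x; exact this x (Finset.mem_univ x)
  refine ⟨heq, ?_⟩
  intro x y hxy
  by_cases hx : SameCycle h s1 x
  · have hy := hx.trans hxy
    have hfe : (Finset.univ.filter (fun y => SameCycle h (v x) y)) =
      (Finset.univ.filter (fun y => SameCycle h s1 y)).image v := by
      apply Finset.eq_of_subset_of_card_le (hsub x hx)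
      rw [card_row, Finset.card_image_of_injective _ (Equiv.injective v), card_row, heq,
        per_sameCycle hx]
    have : v y ∈ (Finset.univ.filter (fun y => SameCycle h s1 y)).image v := by
      rw [Finset.mem_image]; exact ⟨y, by simpa using hy, rfl⟩
    rw [← hfe] at this
    simpa using this
  · obtain ⟨i, rfl⟩ := hxy
    exact ⟨i, (S.comm (hoff x hx) i).symm⟩

open Classical in
/-- Case B: three different rows is impossible. -/
theorem Sg.caseB {h v : Perm Ω} {s1 s2 s3 : Ω} (S : Sg h v s1 s2 s3)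
    (h12 : ¬ SameCycle h s1 s2) (h13 : ¬ SameCycle h s1 s3) (h23 : ¬ SameCycle h s2 s3) :
    False := by
  have alone : ∀ {s1 s2 s3 : Ω}, Sg h v s1 s2 s3 → ¬ SameCycle h s1 s2 → ¬ SameCycle h s1 s3 →
      ∀ x, SameCycle h s1 x → SameCycle h (v s2) (v x) := by
    intro s1 s2 s3 S h12 h13 x hx
    have harc := S.arc (per h s1) (by
      intro j hj hj'
      refine ⟨pow_ne_of_lt_per h s1 hj hj', ?_, ?_⟩
      · intro he; exact h12 ⟨j, by rw [zpow_natCast]; exact he⟩
      · intro he; exact h13 ⟨j, by rw [zpow_natCast]; exact he⟩)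
    obtain ⟨k, hk, hk'⟩ := exists_pow_lt_of_sameCycle hx
    rcases Nat.eq_zero_or_pos k with h0 | hpos
    · subst h0
      have h1 := harc (per h s1) (per_pos h s1) le_rfl
      rw [pow_per] at h1
      have : x = s1 := by simpa using hk'.symm
      rw [this, h1]
      exact ⟨per h s1, by rw [zpow_natCast]⟩
    · have h1 := harc k hpos hk.le
      rw [← hk', h1]
      exact ⟨k, by rw [zpow_natCast]⟩
  have A1 := alone S h12 h13
  have A2 := alone S.rot h23 (fun H => h12 H.symm)
  have A3 := alone S.rot.rot (fun H => h13 H.symm) (fun H => h23 H.symm)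
  -- all v s_i in the row of v s2
  have c1 : SameCycle h (v s2) (v s1) := A1 s1 (SameCycle.refl h s1)
  have c2 : SameCycle h (v s3) (v s2) := A2 s2 (SameCycle.refl h s2)
  have hW : ∀ x, (SameCycle h s1 x ∨ SameCycle h s2 x ∨ SameCycle h s3 x) →
      SameCycle h (v s2) (v x) := by
    rintro x (hx | hx | hx)
    · exact A1 x hx
    · exact c2.symm.trans (A2 x hx)
    · exact c1.trans (A3 x hx)
  have hcard : (Finset.univ.filter
      (fun x => SameCycle h s1 x ∨ SameCycle h s2 x ∨ SameCycle h s3 x)).card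
      ≤ per h (v s2) := by
    rw [← card_row h (v s2), ← Finset.card_image_of_injective _ (Equiv.injective v)]
    apply Finset.card_le_card
    intro y hy
    rw [Finset.mem_image] at hy
    obtain ⟨x, hx, rfl⟩ := hy
    simp only [Finset.mem_filter, Finset.mem_univ, true_and] at hx ⊢
    exact hW x hx
  have hlt : ∀ x, (SameCycle h s1 x ∨ SameCycle h s2 x ∨ SameCycle h s3 x) →
      per h x < per h (v x) := by
    intro x hx
    rw [per_sameCycle (hW x hx)]
    refine lt_of_lt_of_le ?_ hcard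
    rw [← card_row h x]
    apply Finset.card_lt_card
    rw [Finset.ssubset_iff_of_subset]
    · rcases hx with hx | hx | hx
      · refine ⟨s2, by simp [SameCycle.refl], ?_⟩
        simp only [Finset.mem_filter, Finset.mem_univ, true_and]
        intro H; exact h12 (hx.trans H)
      · refine ⟨s1, by simp [SameCycle.refl], ?_⟩
        simp only [Finset.mem_filter, Finset.mem_univ, true_and]
        intro H; exact h12 (hx.trans H).symm
      · refine ⟨s1, by simp [SameCycle.refl], ?_⟩
        simp only [Finset.mem_filter, Finset.mem_univ, true_and]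
        intro H; exact h13 (hx.trans H).symm
    · intro y hy
      simp only [Finset.mem_filter, Finset.mem_univ, true_and] at hy ⊢
      rcases hx with hx | hx | hx
      · exact Or.inl (hx.trans hy)
      · exact Or.inr (Or.inl (hx.trans hy))
      · exact Or.inr (Or.inr (hx.trans hy))
  have hsum : ∑ x, per h x < ∑ x, per h (v x) := by
    apply Finset.sum_lt_sum
    · intro x _
      by_cases hx : SameCycle h s1 x ∨ SameCycle h s2 x ∨ SameCycle h s3 x
      · exact (hlt x hx).le
      · push Not at hx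
        exact le_of_eq (S.per_comm (ns_of_not (fun H => hx.1 H.symm) (fun H => hx.2.1 H.symm)
          (fun H => hx.2.2 H.symm))).symm
    · exact ⟨s1, Finset.mem_univ _, hlt s1 (Or.inl (SameCycle.refl h s1))⟩
  rw [sum_per] at hsum
  exact lt_irrefl _ hsum

/-- data in case C: `s1` alone in its row, `s2, s3` in one row -/
structure CaseC (h v : Perm Ω) (s1 s2 s3 : Ω) (w c : ℕ) : Prop where
  sg : Sg h v s1 s2 s3
  w_pos : 0 < w
  c_pos : 0 < c
  per1 : per h s1 = w
  per2 : per h s2 = w + c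
  per3 : per h s3 = w + c
  h23 : (h ^ w) s2 = s3
  h32 : (h ^ c) s3 = s2
  arc1 : ∀ k, 1 ≤ k → k ≤ w → v ((h ^ k) s1) = (h ^ k) (v s2)
  arc2 : ∀ k, 1 ≤ k → k ≤ w → v ((h ^ k) s2) = (h ^ k) (v s3)
  arc3 : ∀ k, 1 ≤ k → k ≤ c → v ((h ^ k) s3) = (h ^ k) (v s1)
  v1 : v s1 = (h ^ w) (v s2)
  v2 : v s2 = (h ^ c) (v s1)
  perv3 : per h (v s3) = w
  perv1 : per h (v s1) = w + c
  perv2 : per h (v s2) = w + c

open Classical in
theorem Sg.caseC {h v : Perm Ω} {s1 s2 s3 : Ω} (S : Sg h v s1 s2 s3)
    (h12 : ¬ SameCycle h s1 s2) (h13 : ¬ SameCycle h s1 s3) (h23 : SameCycle h s2 s3) :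
    ∃ w c, CaseC h v s1 s2 s3 w c := by
  have hex : ∃ k, (h ^ k) s2 = s3 := by
    obtain ⟨k, _, hk⟩ := exists_pow_lt_of_sameCycle h23
    exact ⟨k, hk⟩
  obtain ⟨k0, hk0, hk0'⟩ := exists_pow_lt_of_sameCycle h23
  set α := Nat.find hex with hα
  have hαs : (h ^ α) s2 = s3 := Nat.find_spec hex
  have hαmin : ∀ j, j < α → (h ^ j) s2 ≠ s3 := fun j hj => Nat.find_min hex hj
  have hαlt : α < per h s2 := lt_of_le_of_lt (Nat.find_min' hex hk0') hk0
  have hαpos : 0 < α := by
    rcases Nat.eq_zero_or_pos α with h0 | h0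
    · rw [h0] at hαs; exact absurd (by simpa using hαs) S.n23
    · exact h0
  set W := per h s1 with hW
  obtain ⟨c, hc⟩ : ∃ c, per h s2 = α + c := ⟨per h s2 - α, by omega⟩
  have hcpos : 0 < c := by omega
  have hper3 : per h s3 = α + c := by rw [per_sameCycle h23, hc]
  have hcs : (h ^ c) s3 = s2 := by
    rw [← hαs, ← Perm.mul_apply, ← pow_add, add_comm c α, ← hc, pow_per]
  have n1 : ∀ k : ℕ, (h ^ k) s1 ≠ s2 := fun k he => h12 ⟨k, by rw [zpow_natCast]; exact he⟩
  have n2 : ∀ k : ℕ, (h ^ k) s1 ≠ s3 := fun k he => h13 ⟨k, by rw [zpow_natCast]; exact he⟩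
  have n3 : ∀ k : ℕ, (h ^ k) s2 ≠ s1 := fun k he =>
    h12 (SameCycle.symm ⟨k, by rw [zpow_natCast]; exact he⟩)
  have n4 : ∀ k : ℕ, (h ^ k) s3 ≠ s1 := fun k he =>
    h13 (SameCycle.symm ⟨k, by rw [zpow_natCast]; exact he⟩)
  have arc1 := S.arc W (fun j hj hj' => ⟨pow_ne_of_lt_per h s1 hj hj', n1 j, n2 j⟩)
  have arc2 := S.rot.arc α (fun j hj hj' =>
    ⟨pow_ne_of_lt_per h s2 hj (lt_trans hj' hαlt), hαmin j hj', n3 j⟩)
  have arc3 := S.rot.rot.arc c (fun j hj hj' =>
    ⟨pow_ne_of_lt_per h s3 hj (by omega), n4 j, by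
      intro he
      have : (h ^ (j + α)) s2 = s2 := by rw [pow_add, Perm.mul_apply, hαs, he]
      exact pow_ne_of_lt_per h s2 (by omega) (by omega) this⟩)
  have hWpos : 0 < W := per_pos h s1
  have v1 : v s1 = (h ^ W) (v s2) := by
    have := arc1 W hWpos le_rfl
    rwa [hW, pow_per] at this
  have v3 : v s3 = (h ^ α) (v s3) := by
    have := arc2 α hαpos le_rfl
    rwa [hαs] at this
  have v2 : v s2 = (h ^ c) (v s1) := by
    have := arc3 c hcpos le_rfl
    rwa [hcs] at this
  have perv3 : per h (v s3) = α := by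
    apply per_eq_of h _ hαpos v3.symm
    intro k hk hk' he
    rw [← arc2 k hk hk'.le] at he
    exact hαmin k hk' (Equiv.injective v he)
  have perv1 : per h (v s1) = W + c := by
    apply per_eq_of h _ (by omega)
    · rw [pow_add, Perm.mul_apply, ← v2, ← v1]
    · intro k hk hk' he
      rcases le_or_gt k c with hkc | hkc
      · rw [← arc3 k hk hkc] at he
        exact n4 k (Equiv.injective v he)
      · obtain ⟨k', rfl⟩ : ∃ k', k = k' + c := ⟨k - c, by omega⟩
        rw [pow_add, Perm.mul_apply, ← v2, ← arc1 k' (by omega) (by omega)] at he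
        exact pow_ne_of_lt_per h s1 (by omega) (by omega) (Equiv.injective v he)
  have perv2 : per h (v s2) = W + c := by
    rw [v2, per_pow, perv1]
  -- counting
  have hαW : α = W := by
    by_contra hne
    have hS1 : ∀ x, SameCycle h s1 x → per h (v x) ≠ W := by
      intro x hx
      obtain ⟨k, hk, hk'⟩ := exists_pow_lt_of_sameCycle hx
      rcases Nat.eq_zero_or_pos k with h0 | hpos
      · subst h0
        have : x = s1 := by simpa using hk'.symm
        rw [this, perv1]; omega
      · rw [← hk', arc1 k hpos hk.le, per_pow, perv2]; omega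
    have hS2 : ∀ x, SameCycle h s2 x → per h (v x) ≠ W := by
      intro x hx
      obtain ⟨k, hk, hk'⟩ := exists_pow_lt_of_sameCycle hx
      rcases Nat.eq_zero_or_pos k with h0 | hpos
      · subst h0
        have : x = s2 := by simpa using hk'.symm
        rw [this, perv2]; omega
      · rcases le_or_gt k α with hkα | hkα
        · rw [← hk', arc2 k hpos hkα, per_pow, perv3]; omega
        · obtain ⟨k', rfl⟩ : ∃ k', k = k' + α := ⟨k - α, by omega⟩
          rw [← hk', pow_add, Perm.mul_apply, hαs, arc3 k' (by omega) (by omega), per_pow, perv1]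
          omega
    have hsub : (Finset.univ.filter (fun x => per h (v x) = W)) ⊆
        (Finset.univ.filter (fun x => per h x = W)).erase s1 := by
      intro x hx
      simp only [Finset.mem_filter, Finset.mem_univ, true_and, Finset.mem_erase] at hx ⊢
      refine ⟨?_, ?_⟩
      · rintro rfl; exact hS1 _ (SameCycle.refl h _) hx
      · rw [← hx]
        symm
        apply S.per_comm
        apply ns_of_not
        · intro H; exact hS1 x H.symm hx
        · intro H; exact hS2 x H.symm hx
        · intro H; exact hS2 x (h23.trans H.symm) hx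
    have hc1 : (Finset.univ.filter (fun x => per h (v x) = W)).card
        = (Finset.univ.filter (fun x => per h x = W)).card := by
      apply Finset.card_bij (fun x _ => v x)
      · intro x hx; simpa using hx
      · intro x _ y _ hxy; exact Equiv.injective v hxy
      · intro y hy
        refine ⟨v⁻¹ y, ?_, by simp⟩
        simpa using hy
    have hc2 := Finset.card_le_card hsub
    have hmem : s1 ∈ (Finset.univ.filter (fun x => per h x = W)) := by simp [hW]
    rw [hc1] at hc2
    have hc3 := Finset.card_erase_lt_of_mem hmem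
    omega
  rw [hαW] at hαs arc2 hc hper3 perv3
  exact ⟨W, c, S, hWpos, hcpos, rfl, hc, hper3, hαs, hcs, arc1, arc2, arc3, v1, v2, perv3,
    perv1, perv2⟩

end fin

end Pool.Agent.Origami
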