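import Pool.Agent.Origami.Good

/-!
# Christoffel words and the moves

Helper file for `MP_7a6c3d_gt`.
-/

namespace Pool.Agent.Origami

open Equiv Equiv.Perm

variable {Ω : Type*}

/-- number of horizontal steps in the `V`-th block -/
def stp (κ m V : ℕ) : ℕ := (V + 1) * κ / m - V * κ / m

/-- the flow of slope `m / κ` after `V` vertical steps -/
def F (h v : Perm Ω) (κ m : ℕ) : ℕ → Perm Ω
  | 0 => 1
  | V + 1 => v * h ^ (stp κ m V) * F h v κ m V

theorem stp_add_period {κ m : ℕ} (hm : 0 < m) (V : ℕ) : stp κ m (V + m) = stp κ m V := by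
  unfold stp
  have h1 : (V + m + 1) * κ / m = (V + 1) * κ / m + κ := by
    rw [show (V + m + 1) * κ = (V + 1) * κ + κ * m by ring, Nat.add_mul_div_right _ _ hm]
  have h2 : (V + m) * κ / m = V * κ / m + κ := by
    rw [show (V + m) * κ = V * κ + κ * m by ring, Nat.add_mul_div_right _ _ hm]
  rw [h1, h2]; omega

theorem F_add_period (h v : Perm Ω) {κ m : ℕ} (hm : 0 < m) (V : ℕ) :
    F h v κ m (V + m) = F h v κ m V * F h v κ m m := by
  induction V with
  | zero => simp [F]
  | succ V ih =>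
    rw [show V + 1 + m = (V + m) + 1 by ring]
    simp only [F]
    rw [stp_add_period hm, ih]
    group

theorem F_mul (h v : Perm Ω) {κ m : ℕ} (hm : 0 < m) (k : ℕ) :
    F h v κ m (k * m) = (F h v κ m m) ^ k := by
  induction k with
  | zero => simp [F]
  | succ k ih =>
    rw [show (k + 1) * m = k * m + m by ring, F_add_period h v hm, ih, pow_succ]

/-- two flows agree when the step counts agree -/
theorem F_congr (h v : Perm Ω) {κ m κ' m' c : ℕ} {N : ℕ}
    (H : ∀ V < N, stp κ m (c + V) = stp κ' m' V) :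
    ∀ V ≤ N, F h v κ m (c + V) = F h v κ' m' V * F h v κ m c := by
  intro V
  induction V with
  | zero => intro _; simp [F]
  | succ V ih =>
    intro hV
    rw [show c + (V + 1) = (c + V) + 1 by ring]
    simp only [F]
    rw [ih (by omega), H V (by omega)]
    group

theorem floor1 {κ1 m1 κ2 m2 : ℕ} (hm2 : 0 < m2) (hm1 : 0 < m1)
    (hd : κ2 * m1 = κ1 * m2 + 1) (i : ℕ) (hi : i ≤ m1) :
    i * (κ1 + κ2) / (m1 + m2) = i * κ1 / m1 := by
  set q := i * κ1 / m1 with hq
  have h1 : q * m1 ≤ i * κ1 := Nat.div_mul_le_self _ _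
  have h2 : i * κ1 < (q + 1) * m1 := by
    have := Nat.lt_div_mul_add hm1 (a := i * κ1)
    rw [← hq] at this
    nlinarith
  have key : m1 * (i * (κ1 + κ2)) = (m1 + m2) * (i * κ1) + i := by
    have : m1 * (i * (κ1 + κ2)) = i * κ1 * m1 + i * (κ2 * m1) := by ring
    rw [this, hd]; ring
  apply Nat.div_eq_of_lt_le
  · -- q * m ≤ i κ
    have : m1 * (q * (m1 + m2)) ≤ m1 * (i * (κ1 + κ2)) := by
      rw [key]; nlinarith
    exact Nat.le_of_mul_le_mul_left this hm1
  · have : m1 * (i * (κ1 + κ2)) < m1 * ((q + 1) * (m1 + m2)) := by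
      rw [key]
      have h3 : i * κ1 + 1 ≤ (q + 1) * m1 := h2
      nlinarith
    exact Nat.lt_of_mul_lt_mul_left this

theorem floor2 {κ1 m1 κ2 m2 : ℕ} (hm2 : 0 < m2) (hm1 : 0 < m1)
    (hd : κ2 * m1 = κ1 * m2 + 1) (i : ℕ) (hi : i ≤ m2) :
    (m1 + i) * (κ1 + κ2) / (m1 + m2) = κ1 + i * κ2 / m2 := by
  set q := i * κ2 / m2 with hq
  have h1 : q * m2 ≤ i * κ2 := Nat.div_mul_le_self _ _
  have h2 : i * κ2 < (q + 1) * m2 := by
    have := Nat.lt_div_mul_add hm2 (a := i * κ2)
    rw [← hq] at this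
    nlinarith
  have h2' : i * κ2 + 1 ≤ (q + 1) * m2 := h2
  have key0 : (m1 + i) * (κ1 + κ2) = κ1 * (m1 + m2) + 1 + i * (κ1 + κ2) := by
    have : (m1 + i) * (κ1 + κ2) = m1 * κ1 + κ2 * m1 + i * (κ1 + κ2) := by ring
    rw [this, hd]; ring
  have key : m2 * (i * (κ1 + κ2)) + i = i * κ2 * (m1 + m2) := by
    have : i * κ2 * (m1 + m2) = i * (κ2 * m1) + i * κ2 * m2 := by ring
    rw [this, hd]; ring
  apply Nat.div_eq_of_lt_le
  · rw [key0]
    have : m2 * (q * (m1 + m2)) ≤ m2 * (1 + i * (κ1 + κ2)) := by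
      nlinarith
    have := Nat.le_of_mul_le_mul_left this hm2
    nlinarith
  · rw [key0]
    have : m2 * (1 + i * (κ1 + κ2)) < m2 * ((q + 1) * (m1 + m2)) := by
      have h4 : m2 * (1 + i * (κ1 + κ2)) + i = m2 + i * κ2 * (m1 + m2) := by
        rw [← key]; ring
      have h5 : (i * κ2 + 1) * (m1 + m2) ≤ (q + 1) * m2 * (m1 + m2) :=
        Nat.mul_le_mul_right _ h2'
      nlinarith
    have := Nat.lt_of_mul_lt_mul_left this
    nlinarith

theorem F_mediant (h v : Perm Ω) {κ1 m1 κ2 m2 : ℕ} (hm2 : 0 < m2) (hm1 : 0 < m1)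
    (hd : κ2 * m1 = κ1 * m2 + 1) :
    F h v (κ1 + κ2) (m1 + m2) (m1 + m2) = F h v κ2 m2 m2 * F h v κ1 m1 m1 := by
  have e1 : ∀ V < m1, stp (κ1 + κ2) (m1 + m2) (0 + V) = stp κ1 m1 V := by
    intro V hV
    unfold stp
    rw [zero_add, floor1 hm2 hm1 hd (V + 1) (by omega), floor1 hm2 hm1 hd V (by omega)]
  have e2 : ∀ V < m2, stp (κ1 + κ2) (m1 + m2) (m1 + V) = stp κ2 m2 V := by
    intro V hV
    unfold stp
    rw [show m1 + V + 1 = m1 + (V + 1) by ring, floor2 hm2 hm1 hd (V + 1) (by omega),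
      floor2 hm2 hm1 hd V (by omega)]
    omega
  have f1 := F_congr h v e1 m1 le_rfl
  have f2 := F_congr h v e2 m2 le_rfl
  rw [f2]
  congr 1
  rw [zero_add] at f1
  rw [f1]; simp [F]

theorem F_one (h v : Perm Ω) (κ : ℕ) : F h v κ 1 1 = v * h ^ κ := by
  simp [F, stp]

section good

variable [Fintype Ω] [DecidableEq Ω] {O : Set (Perm Ω × Perm Ω)}

/-- the word of slope `κ / m` -/
def X (h v : Perm Ω) (κ m : ℕ) : Perm Ω := if m = 0 then h else F h v κ m m

theorem GoodSet.sternBrocot (G : GoodSet O) {h v : Perm Ω} (H : (h, v) ∈ O) :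
    ∀ N κ1 m1 κ2 m2 : ℕ, κ1 + m1 + κ2 + m2 ≤ N → κ2 * m1 = κ1 * m2 + 1 →
      (X h v κ2 m2, X h v κ1 m1) ∈ O := by
  intro N
  induction N with
  | zero =>
    intro κ1 m1 κ2 m2 hN hd
    have : m1 = 0 := by omega
    subst this
    omega
  | succ N ih =>
    intro κ1 m1 κ2 m2 hN hd
    have hm1 : 0 < m1 := by
      rcases Nat.eq_zero_or_pos m1 with h0 | h0
      · subst h0; omega
      · exact h0
    have hκ2 : 0 < κ2 := by
      rcases Nat.eq_zero_or_pos κ2 with h0 | h0
      · subst h0; omega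
      · exact h0
    rcases Nat.eq_zero_or_pos m2 with hm2 | hm2
    · subst hm2
      have h1 : κ2 * m1 = 1 := by omega
      have h2 : κ2 = 1 := Nat.eq_one_of_mul_eq_one_right h1
      have h3 : m1 = 1 := Nat.eq_one_of_mul_eq_one_left h1
      subst h2 h3
      simp only [X, if_true, one_ne_zero, if_false]
      rw [F_one]
      have := G.Tn H κ1
      rwa [zpow_natCast] at this
    · by_cases hc : m2 ≤ m1 ∧ κ2 ≤ κ1
      · obtain ⟨m1', rfl⟩ : ∃ m', m1 = m' + m2 := ⟨m1 - m2, by omega⟩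
        obtain ⟨κ1', rfl⟩ : ∃ k', κ1 = k' + κ2 := ⟨κ1 - κ2, by omega⟩
        have hd' : κ2 * m1' = κ1' * m2 + 1 := by nlinarith
        have hm1' : 0 < m1' := by
          rcases Nat.eq_zero_or_pos m1' with h0 | h0
          · subst h0; omega
          · exact h0
        have h1 := ih κ1' m1' κ2 m2 (by omega) hd'
        have h2 := G.PQ2 h1
        have h3 : X h v (κ1' + κ2) (m1' + m2) = X h v κ2 m2 * X h v κ1' m1' := by
          unfold X
          rw [if_neg (by omega), if_neg (by omega), if_neg (by omega)]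
          exact F_mediant h v hm2 hm1' hd'
        rw [h3]; exact h2
      · have hc' : m1 ≤ m2 ∧ κ1 ≤ κ2 := by
          rcases Nat.lt_or_ge m1 m2 with h0 | h0
          · refine ⟨h0.le, ?_⟩
            by_contra hcon
            push Not at hcon
            have h1 : κ2 * m1 ≤ κ1 * m2 := Nat.mul_le_mul hcon.le h0.le
            omega
          · have h1 : κ1 < κ2 := by
              by_contra hcon
              push Not at hcon
              exact hc ⟨h0, hcon⟩
            have h2 : (κ1 + 1) * m1 ≤ κ2 * m1 := Nat.mul_le_mul_right _ h1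
            have h3 : κ1 * m2 ≤ κ1 * m1 := Nat.mul_le_mul_left _ h0
            have h4 : m1 ≤ 1 := by nlinarith
            exact ⟨by omega, h1.le⟩
        obtain ⟨m2', rfl⟩ : ∃ m', m2 = m1 + m' := ⟨m2 - m1, by omega⟩
        obtain ⟨κ2', rfl⟩ : ∃ k', κ2 = κ1 + k' := ⟨κ2 - κ1, by omega⟩
        have hd' : κ2' * m1 = κ1 * m2' + 1 := by nlinarith
        have h1 := ih κ1 m1 κ2' m2' (by omega) hd'
        rcases Nat.eq_zero_or_pos m2' with h0 | h0
        · subst h0
          have h5 : κ2' * m1 = 1 := by omega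
          have h6 : κ2' = 1 := Nat.eq_one_of_mul_eq_one_right h5
          have h7 : m1 = 1 := Nat.eq_one_of_mul_eq_one_left h5
          subst h6 h7
          have h2 := G.QP1 h1
          have h3 : X h v (κ1 + 1) (1 + 0) = X h v κ1 1 * X h v 1 0 := by
            simp only [X, if_true, one_ne_zero, if_false, add_zero]
            rw [F_one, F_one, pow_succ]
            group
          rw [h3]; exact h2
        · have h2 := G.Si _ _ h1
          have h3 : X h v (κ1 + κ2') (m1 + m2') = X h v κ2' m2' * X h v κ1 m1 := by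
            unfold X
            rw [if_neg (by omega), if_neg (by omega), if_neg (by omega)]
            exact F_mediant h v h0 hm1 hd'
          rw [h3]; exact h2

theorem GoodSet.word (G : GoodSet O) {h v : Perm Ω} (H : (h, v) ∈ O) {κ m : ℕ} (hm : 0 < m)
    (hc : Nat.Coprime κ m) : ∃ Y, (F h v κ m m, Y) ∈ O := by
  have hX : X h v κ m = F h v κ m m := by unfold X; rw [if_neg (by omega)]
  rw [← hX]
  rcases Nat.eq_zero_or_pos κ with h0 | hκ
  · subst h0
    have : m = 1 := by simpa using hc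
    subst this
    refine ⟨h⁻¹, ?_⟩
    rw [hX, F_one]
    simpa using G.U H
  · rcases Nat.lt_or_ge 1 m with h1 | h1
    · obtain ⟨m1, _, hm1⟩ := Nat.exists_mul_mod_eq_one_of_coprime hc h1
      refine ⟨X h v (κ * m1 / m) m1, G.sternBrocot H _ _ _ _ _ le_rfl ?_⟩
      have := Nat.div_add_mod (κ * m1) m
      rw [hm1] at this
      rw [mul_comm (κ * m1 / m) m]
      omega
    · have : m = 1 := by omega
      subst this
      refine ⟨X h v (κ - 1) 1, G.sternBrocot H _ _ _ _ _ le_rfl ?_⟩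
      omega

end good

end Pool.Agent.Origami
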